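import Mathlib

/-!
Points and curves of bounded complexity in a family of quasi-projective varieties.

The family is `{G = 0, Q ≠ 0}` in the product of the affine space with the coordinates `s` (the
parameters) and the projective space with the coordinates `x`; the exceptional set `V'` is given by
the polynomials `H`. All polynomials have coefficients in the ring of integers of `K`.
-/

set_option autoImplicit false

namespace Pool.Agent.W2helper39.MU

open MvPolynomial IsDedekindDomain MeasureTheory ValueDistribution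
open scoped NumberField LinearAlgebra.Projectivization

/-- the value of the polynomial `P` at the point `x` of the fibre over `s` -/
noncomputable def val {A F : Type} [CommRing A] [CommRing F] (φ : A →+* F) {r M : ℕ} (s : Fin r → F)
    (x : Fin M → F) (P : MvPolynomial (Fin r ⊕ Fin M) A) : F :=
  eval₂ φ (Sum.elim s x) P

/-- the complex embedding of the ring of integers -/
def emb {K : Type} [Field K] (σ : K →+* ℂ) : 𝓞 K →+* ℂ := σ.comp (algebraMap (𝓞 K) K)

/-- the inclusion of the ring of integers of `K` in an extension `L` -/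
def inc (K L : Type) [Field K] [Field L] [Algebra K L] : 𝓞 K →+* L :=
  (algebraMap K L).comp (algebraMap (𝓞 K) K)

/-- `x` is a point of `U = {G = 0, Q ≠ 0}` over `s` -/
def InU {A F ι : Type} [CommRing A] [CommRing F] (φ : A →+* F) {r M : ℕ}
    (G : ι → MvPolynomial (Fin r ⊕ Fin M) A) (Q : MvPolynomial (Fin r ⊕ Fin M) A) (s : Fin r → F)
    (x : Fin M → F) : Prop :=
  (∀ j, val φ s x (G j) = 0) ∧ val φ s x Q ≠ 0

/-- `x` is a point of `V' = {H = 0}` over `s` -/
def InV {A F κ : Type} [CommRing A] [CommRing F] (φ : A →+* F) {r M : ℕ}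
    (H : κ → MvPolynomial (Fin r ⊕ Fin M) A) (s : Fin r → F) (x : Fin M → F) : Prop :=
  ∀ j, val φ s x (H j) = 0

/-- vectors of Laurent polynomials with at most `m` terms -/
def laur {F : Type} [Field F] {M m : ℕ} (a : Fin M → Fin m → F) (b : Fin M → Fin m → ℤ) (t : F) :
    Fin M → F :=
  fun c => ∑ i, a c i * t ^ b c i

section conditions

variable {K : Type} [Field K] {ι κ : Type} {r M : ℕ} (σ : K →+* ℂ) (m : ℕ)
  (G : ι → MvPolynomial (Fin r ⊕ Fin M) (𝓞 K)) (Q : MvPolynomial (Fin r ⊕ Fin M) (𝓞 K))
  (H : κ → MvPolynomial (Fin r ⊕ Fin M) (𝓞 K))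

/-- Every nonconstant map from the punctured line to a fibre of `U`, with projective coordinates given
by Laurent polynomials with at most `m` terms, lies in `V'`. -/
def GmIn : Prop :=
  ∀ (s : Fin r → ℂ) (a : Fin M → Fin m → ℂ) (b : Fin M → Fin m → ℤ),
    (∀ t, t ≠ 0 → InU (emb σ) G Q s (laur a b t)) →
    (∃ t u c c', t ≠ 0 ∧ u ≠ 0 ∧ laur a b t c * laur a b u c' ≠ laur a b t c' * laur a b u c) →
    ∀ t, t ≠ 0 → InV (emb σ) H s (laur a b t)

/-- Every entire curve in a fibre of `U`, with projective coordinates which are sums of `m` entire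
functions each of which is zero or has no zeros, is constant or lies in `V'`. -/
def EntireIn : Prop :=
  ∀ (s : Fin r → ℂ) (g : Fin M → Fin m → ℂ → ℂ) (f : ℂ → Fin M → ℂ),
    (∀ c i, Differentiable ℂ (g c i) ∧ ((∀ z, g c i z = 0) ∨ ∀ z, g c i z ≠ 0)) →
    (∀ z c, f z c = ∑ i, g c i z) → (∀ z, InU (emb σ) G Q s (f z)) →
    (∃ z w c c', f z c * f w c' ≠ f z c' * f w c) → ∀ z, InV (emb σ) H s (f z)

/-- Let `f` be an entire curve with the parameters `s`, entire functions, whose projective
coordinates are sums of `m` terms `a u`, `a` and `u` entire, `u` without zeros, and `Q (f) = q v`,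
`q` and `v` entire, `v` without zeros. If `f` does not lie in `V'`, then the characteristic
functions of the ratios of its coordinates are bounded, linearly, by those of all `s`, `a` and `q`
and the logarithm, outside a set of radii of finite measure. -/
def EntireBound : Prop :=
  ∀ (s : Fin r → ℂ → ℂ) (a u : Fin M → Fin m → ℂ → ℂ) (q v : ℂ → ℂ) (f : ℂ → Fin M → ℂ),
    (∀ j, Differentiable ℂ (s j)) → (∀ c i, Differentiable ℂ (a c i)) → Differentiable ℂ q →
    (∀ c i, Differentiable ℂ (u c i) ∧ ∀ z, u c i z ≠ 0) → (Differentiable ℂ v ∧ ∀ z, v z ≠ 0) →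
    (∀ z c, f z c = ∑ i, a c i z * u c i z) →
    (∀ z j, val (emb σ) (fun i => s i z) (f z) (G j) = 0) →
    (∀ z, val (emb σ) (fun i => s i z) (f z) Q = q z * v z) → (∃ z, q z ≠ 0) →
    (∃ z, ¬ InV (emb σ) H (fun i => s i z) (f z)) →
    ∃ (C : ℝ) (E : Set ℝ), volume E < ⊤ ∧ ∀ ρ, 1 ≤ ρ → ρ ∉ E → ∀ c c',
      characteristic (fun z => f z c / f z c') ⊤ ρ ≤
        C * (1 + Real.log ρ + ∑ j, characteristic (s j) ⊤ ρ +
          ∑ c, ∑ i, characteristic (a c i) ⊤ ρ + characteristic q ⊤ ρ)

/-- the `S`-units of `L` -/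
def SUnit {L : Type} [Field L] [NumberField L] (S : Set (HeightOneSpectrum (𝓞 L))) (y : L) : Prop :=
  ∃ w : Lˣ, w ∈ S.unit L ∧ (w : L) = y

/-- For all number fields `L ⊇ K`, all finite sets of places `S` and all `s` over `L` there are only
finitely many points `x` in the fibre of `U` over `s` outside `V'` with projective coordinates which
are sums of `m` elements, each of them zero or an `S`-unit, and for which `Q (x)` is an `S`-unit. -/
def IntegralFinite : Prop :=
  ∀ (L : Type) [Field L] [NumberField L] [Algebra K L] (S : Set (HeightOneSpectrum (𝓞 L))),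
    S.Finite → ∀ s : Fin r → L,
      {P : ℙ L (Fin M → L) | ∃ (x : Fin M → L) (hx : x ≠ 0) (g : Fin M → Fin m → L),
        P = Projectivization.mk L x hx ∧ (∀ c i, g c i = 0 ∨ SUnit S (g c i)) ∧
        (∀ c, x c = ∑ i, g c i) ∧ (∀ j, val (inc K L) s x (G j) = 0) ∧
        SUnit S (val (inc K L) s x Q) ∧ ¬ InV (inc K L) H s x}.Finite

/-- For all number fields `L ⊇ K` and finite sets of places `S` there is a number `C`, such that all
points `x` over `s` outside `V'` with `G (x) = 0`, whose projective coordinates are sums of `m` terms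
`a u`, `a` in `L` and `u` an `S`-unit, and with `Q (x) = q v`, `q` in `L` and `v` an `S`-unit,
`q ≠ 0`, have height at most `C` times the sum of the heights of all `s`, `a` and `q` and `1`. -/
def IntegralBound : Prop :=
  ∀ (L : Type) [Field L] [NumberField L] [Algebra K L] (S : Set (HeightOneSpectrum (𝓞 L))),
    S.Finite → ∃ C : ℝ, ∀ (s : Fin r → L) (a u : Fin M → Fin m → L) (q v : L) (x : Fin M → L),
      (∀ c i, SUnit S (u c i)) → SUnit S v → (∀ c, x c = ∑ i, a c i * u c i) → x ≠ 0 →
      (∀ j, val (inc K L) s x (G j) = 0) → val (inc K L) s x Q = q * v → q ≠ 0 →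
      ¬ InV (inc K L) H s x →
      Height.logHeight x ≤ C * (1 + ∑ j, Height.logHeight₁ (s j) +
        ∑ c, ∑ i, Height.logHeight₁ (a c i) + Height.logHeight₁ q)

/-- For all finitely generated subgroups `Γ` of the multiplicative group of `ℂ` and all complex `s`
there are only finitely many points `x` in the fibre of `U` over `s` outside `V'` with projective
coordinates which are sums of `m` elements of `Γ` or zero, and for which `Q (x)` is in `Γ`. -/
def GroupFinite : Prop :=
  ∀ Γ : Subgroup ℂˣ, Γ.FG → ∀ s : Fin r → ℂ,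
      {P : ℙ ℂ (Fin M → ℂ) | ∃ (x : Fin M → ℂ) (hx : x ≠ 0) (g : Fin M → Fin m → ℂ),
        P = Projectivization.mk ℂ x hx ∧ (∀ c i, g c i = 0 ∨ ∃ w ∈ Γ, (w : ℂ) = g c i) ∧
        (∀ c, x c = ∑ i, g c i) ∧ (∀ j, val (emb σ) s x (G j) = 0) ∧
        (∃ w ∈ Γ, (w : ℂ) = val (emb σ) s x Q) ∧ ¬ InV (emb σ) H s x}.Finite

end conditions

end Pool.Agent.W2helper39.MU
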