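import Mathlib

/-!
Relations between products of small elements and units: the terms of a polynomial relation can be
collected by the classes of the units modulo small elements.
-/

set_option autoImplicit false

namespace Pool.Agent.W2helper39.MU

open MvPolynomial Finset

section lin

variable {E : Type} [Field E] (k : Subfield E) (𝒢 : Subgroup Eˣ)

/-- elements of `𝒢` which are pairwise not proportional over `k` are linearly independent over `k` -/
def IndU : Prop :=
  ∀ (J : Type) [Fintype J] (g : J → Eˣ) (c : J → E), (∀ j, g j ∈ 𝒢) → (∀ j, c j ∈ k) →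
    (∀ i j, i ≠ j → ((g i : E) / (g j : E)) ∉ k) → ∑ j, c j * (g j : E) = 0 → ∀ j, c j = 0

/-- elements of `𝒢` with a power in `k` are in `k` -/
def RootC : Prop := ∀ g ∈ 𝒢, ∀ n : ℕ, 0 < n → ((g : E)) ^ n ∈ k → (g : E) ∈ k

variable {k 𝒢}

theorem class_sums (hI : IndU k 𝒢) {J : Type} [Fintype J] (g : J → Eˣ) (hg : ∀ j, g j ∈ 𝒢)
    (c : J → E) (hc : ∀ j, c j ∈ k) (hsum : ∑ j, c j * (g j : E) = 0) (ψ : J → ℤ)
    (hψ : ∀ i j, (g i : E) / (g j : E) ∈ k → ψ i = ψ j) (b : ℤ) :
    ∑ j ∈ univ.filter (fun j => ψ j = b), c j * (g j : E) = 0 := by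
  classical
  let s : Setoid J :=
    { r := fun i j => (g i : E) / (g j : E) ∈ k
      iseqv := ⟨fun i => by
        rw [div_self (Units.ne_zero _)]
        exact k.one_mem, fun {i j} h => by
        have h1 := k.inv_mem h
        rwa [inv_div] at h1, fun {i j l} h h' => by
        have h1 := k.mul_mem h h'
        rwa [div_mul_div_cancel₀ (Units.ne_zero _)] at h1⟩ }
  have hfin : Fintype (Quotient s) := Fintype.ofFinite _
  let rep : Quotient s → J := fun q => q.out
  have hrep : ∀ q, (Quotient.mk s (rep q)) = q := fun q => Quotient.out_eq q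
  have hrel : ∀ i j : J, Quotient.mk s i = Quotient.mk s j ↔ (g i : E) / (g j : E) ∈ k := fun i j =>
    Quotient.eq (r := s)
  let C : Quotient s → E := fun q =>
    ∑ j ∈ univ.filter (fun j => Quotient.mk s j = q), c j * ((g j : E) / (g (rep q) : E))
  have hCk : ∀ q, C q ∈ k := by
    intro q
    refine k.sum_mem fun j hj => k.mul_mem (hc j) ?_
    rw [← hrel, hrep]
    exact (mem_filter.1 hj).2
  have hCg : ∀ q, C q * (g (rep q) : E) =
      ∑ j ∈ univ.filter (fun j => Quotient.mk s j = q), c j * (g j : E) := by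
    intro q
    rw [Finset.sum_mul]
    refine Finset.sum_congr rfl fun j _ => ?_
    rw [mul_assoc, div_mul_cancel₀ _ (Units.ne_zero _)]
  have h0 : ∀ q, C q = 0 := by
    refine hI (Quotient s) (fun q => g (rep q)) C (fun q => hg _) hCk (fun q q' hqq h => ?_) ?_
    · apply hqq
      rw [← hrep q, ← hrep q']
      exact (hrel _ _).2 h
    · simp only [hCg]
      rw [Finset.sum_fiberwise]
      exact hsum
  have h1 : ∀ q, ∑ j ∈ univ.filter (fun j => Quotient.mk s j = q), c j * (g j : E) = 0 := by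
    intro q
    rw [← hCg, h0, zero_mul]
  rw [← Finset.sum_fiberwise (univ.filter fun j => ψ j = b) (fun j => Quotient.mk s j)
    (fun j => c j * (g j : E))]
  refine Finset.sum_eq_zero fun q _ => ?_
  by_cases hq : ψ (rep q) = b
  · have h2 : (univ.filter fun j => ψ j = b).filter (fun j => Quotient.mk s j = q) =
        univ.filter (fun j => Quotient.mk s j = q) := by
      ext j
      simp only [mem_filter, mem_univ, true_and, and_iff_right_iff_imp]
      intro h
      rw [← hq]
      apply hψ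
      rw [← hrel, hrep]
      exact h
    rw [h2, h1]
  · have h2 : (univ.filter fun j => ψ j = b).filter (fun j => Quotient.mk s j = q) = ∅ := by
      ext j
      simp only [mem_filter, mem_univ, true_and, notMem_empty, iff_false, not_and]
      intro h h'
      apply hq
      rw [← h]
      symm
      apply hψ
      rw [← hrel, hrep]
      exact h'
    rw [h2, Finset.sum_empty]

end lin

section wt

variable {P A : Type} [Fintype P] [CommRing A]

/-- the weight of an exponent -/
def wt (l : P → ℤ) (d : P →₀ ℕ) : ℤ := ∑ p, l p * (d p : ℤ)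

/-- the terms of weight `b` -/
noncomputable def cmp (l : P → ℤ) (b : ℤ) (R : MvPolynomial P A) : MvPolynomial P A :=
  ∑ d ∈ R.support.filter (fun d => wt l d = b), monomial d (coeff d R)

theorem eval₂_cmp {F : Type} [CommRing F] (φ : A →+* F) (y : P → F) (l : P → ℤ) (b : ℤ)
    (R : MvPolynomial P A) : eval₂ φ y (cmp l b R) =
      ∑ d ∈ R.support.filter (fun d => wt l d = b), φ (coeff d R) * ∏ p, y p ^ d p := by
  unfold cmp
  rw [eval₂_sum]
  refine Finset.sum_congr rfl fun d _ => ?_
  rw [eval₂_monomial, Finsupp.prod_fintype _ _ fun p => pow_zero _]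

theorem prod_zpow_sum {ι F : Type} [Field F] (s : Finset ι) {t : F} (ht : t ≠ 0) (c : ι → ℤ) :
    ∏ i ∈ s, t ^ c i = t ^ ∑ i ∈ s, c i := by
  classical
  induction s using Finset.induction_on with
  | empty => simp
  | insert i s hi ih => rw [Finset.prod_insert hi, Finset.sum_insert hi, ih, zpow_add₀ ht]

theorem prod_zpow_wt {F : Type} [Field F] {t : F} (ht : t ≠ 0) (l : P → ℤ) (d : P →₀ ℕ) :
    ∏ p, (t ^ l p) ^ d p = t ^ wt l d := by
  unfold wt
  rw [← prod_zpow_sum _ ht]
  refine Finset.prod_congr rfl fun p _ => ?_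
  rw [zpow_mul, zpow_natCast]

/-- the expansion along a one-parameter group -/
theorem eval₂_curve {F : Type} [Field F] (φ : A →+* F) (y : P → F) (l : P → ℤ)
    (R : MvPolynomial P A) {t : F} (ht : t ≠ 0) :
    eval₂ φ (fun p => y p * t ^ l p) R =
      ∑ b ∈ R.support.image (wt l), t ^ b * eval₂ φ y (cmp l b R) := by
  classical
  have h1 : ∀ d : P →₀ ℕ, φ (coeff d R) * ∏ p, (y p * t ^ l p) ^ d p =
      t ^ wt l d * (φ (coeff d R) * ∏ p, y p ^ d p) := by
    intro d
    have h2 : ∏ p, (y p * t ^ l p) ^ d p = (∏ p, y p ^ d p) * t ^ wt l d := by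
      rw [← prod_zpow_wt ht, ← Finset.prod_mul_distrib]
      exact Finset.prod_congr rfl fun p _ => mul_pow _ _ _
    rw [h2]
    ring
  rw [eval₂_eq']
  simp only [h1]
  rw [← Finset.sum_fiberwise_of_maps_to (g := wt l) (t := R.support.image (wt l))
    (fun d hd => Finset.mem_image_of_mem _ hd)]
  refine Finset.sum_congr rfl fun b _ => ?_
  rw [eval₂_cmp, Finset.mul_sum]
  refine Finset.sum_congr rfl fun d hd => ?_
  rw [(Finset.mem_filter.1 hd).2]

theorem cmp_eq_zero (l : P → ℤ) (R : MvPolynomial P A) {b : ℤ}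
    (hb : b ∉ R.support.image (wt l)) : cmp l b R = 0 := by
  unfold cmp
  refine Finset.sum_eq_zero fun d hd => ?_
  exact absurd (Finset.mem_image.2 ⟨d, (Finset.mem_filter.1 hd).1, (Finset.mem_filter.1 hd).2⟩) hb

end wt

section tr

variable {E : Type} [Field E] {k : Subfield E} {𝒢 : Subgroup Eˣ}

/-- **Terms of different weight.** -/
theorem transfer {P A : Type} [Fintype P] [CommRing A] (hI : IndU k 𝒢) (φ : A →+* E)
    (hφ : ∀ c, φ c ∈ k) (a : P → E) (g : P → Eˣ) (ha : ∀ p, a p ∈ k) (hg : ∀ p, g p ∈ 𝒢) (a' : E)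
    (g' : Eˣ) (ha' : a' ∈ k) (hg' : g' ∈ 𝒢) (l : P → ℤ) (l' : ℤ)
    (hl : ∀ (γ : P → ℤ) (ε : ℤ), (((∏ p, g p ^ γ p) * g' ^ ε : Eˣ) : E) ∈ k →
      ∑ p, l p * γ p + l' * ε = 0)
    (R : MvPolynomial P A) (hR : eval₂ φ (fun p => a p * (g p : E)) R = a' * (g' : E)) (b : ℤ) :
    eval₂ φ (fun p => a p * (g p : E)) (cmp l b R) = if b = l' then a' * (g' : E) else 0 := by
  classical
  let v1 : Option R.support → P → ℤ := fun j => match j with
    | none => 0
    | some d => fun p => (d.1 p : ℤ)
  let v2 : Option R.support → ℤ := fun j => match j with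
    | none => 1
    | some _ => 0
  let gJ : Option R.support → Eˣ := fun j => (∏ p, g p ^ v1 j p) * g' ^ v2 j
  let ψ : Option R.support → ℤ := fun j => ∑ p, l p * v1 j p + l' * v2 j
  let c : Option R.support → E := fun j => match j with
    | none => -a'
    | some d => φ (coeff d.1 R) * ∏ p, a p ^ d.1 p
  have hgJ : ∀ j, gJ j ∈ 𝒢 := fun j =>
    𝒢.mul_mem (𝒢.prod_mem fun p _ => 𝒢.zpow_mem (hg p) _) (𝒢.zpow_mem hg' _)
  have hc : ∀ j, c j ∈ k := by
    rintro (_ | d)
    · exact k.neg_mem ha'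
    · exact k.mul_mem (hφ _) (k.prod_mem fun p _ => k.pow_mem (ha p) _)
  have hnone : c none * (gJ none : E) = -(a' * (g' : E)) := by
    simp only [c, gJ, v1, v2, Pi.zero_apply, zpow_zero, Finset.prod_const_one, one_mul, zpow_one]
    ring
  have hsome : ∀ d : R.support, c (some d) * (gJ (some d) : E) =
      φ (coeff d.1 R) * ∏ p, (a p * (g p : E)) ^ d.1 p := by
    intro d
    simp only [c, gJ, v1, v2, zpow_zero, mul_one, zpow_natCast, Units.coe_prod,
      Units.val_pow_eq_pow_val, mul_pow, Finset.prod_mul_distrib]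
    ring
  have hψn : ψ none = l' := by
    simp [ψ, v1, v2]
  have hψs : ∀ d : R.support, ψ (some d) = wt l d.1 := by
    intro d
    simp [ψ, v1, v2, wt]
  have hsum : ∑ j, c j * (gJ j : E) = 0 := by
    rw [Fintype.sum_option, hnone]
    simp only [hsome]
    rw [Finset.sum_coe_sort R.support fun d => φ (coeff d R) * ∏ p, (a p * (g p : E)) ^ d p,
      ← eval₂_eq', hR, neg_add_cancel]
  have hψ : ∀ i j, (gJ i : E) / (gJ j : E) ∈ k → ψ i = ψ j := by
    intro i j h
    have h1 : (((∏ p, g p ^ (v1 i p - v1 j p)) * g' ^ (v2 i - v2 j) : Eˣ) : E) =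
        (gJ i : E) / (gJ j : E) := by
      have h2 : ((∏ p, g p ^ (v1 i p - v1 j p)) * g' ^ (v2 i - v2 j) : Eˣ) = gJ i / gJ j := by
        simp only [gJ, zpow_sub, Finset.prod_mul_distrib, Finset.prod_inv_distrib]
        rw [div_eq_mul_inv, mul_inv]
        exact mul_mul_mul_comm _ _ _ _
      rw [h2]
      exact Units.val_div_eq_div_val _ _
    have h2 := hl (fun p => v1 i p - v1 j p) (v2 i - v2 j) (by
      rw [h1]
      exact h)
    simp only [mul_sub, Finset.sum_sub_distrib] at h2
    simp only [ψ]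
    linarith
  have key := class_sums hI gJ hgJ c hc hsum ψ hψ b
  rw [Finset.sum_filter, Fintype.sum_option, hnone, hψn] at key
  simp only [hsome, hψs] at key
  rw [Finset.sum_coe_sort R.support fun d => if wt l d = b then
    φ (coeff d R) * ∏ p, (a p * (g p : E)) ^ d p else 0, ← Finset.sum_filter, ← eval₂_cmp] at key
  by_cases hb : b = l'
  · rw [if_pos hb.symm] at key
    rw [if_pos hb]
    linear_combination key
  · rw [if_neg (fun h => hb h.symm), zero_add] at key
    rw [if_neg hb]
    exact key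

/-- A number at which finitely many nonzero integral polynomials do not vanish. -/
theorem exists_num {ι : Type} (T : Finset ι) {s : ℕ} (x : ι → Fin s → ℤ)
    (hx : ∀ i ∈ T, x i ≠ 0) : ∃ M : ℤ, ∀ i ∈ T, ∑ k, x i k * M ^ (k : ℕ) ≠ 0 := by
  classical
  let P : ι → Polynomial ℤ := fun i => ∑ k, Polynomial.C (x i k) * Polynomial.X ^ (k : ℕ)
  have hP : ∀ i, ∀ k : Fin s, (P i).coeff k = x i k := by
    intro i k
    simp only [P, Polynomial.finsetSum_coeff, Polynomial.coeff_C_mul, Polynomial.coeff_X_pow]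
    rw [Finset.sum_eq_single k]
    · simp
    · intro l _ hl
      rw [if_neg (fun h => hl (Fin.ext h.symm)), mul_zero]
    · intro h
      exact absurd (Finset.mem_univ _) h
  have hP0 : ∀ i ∈ T, P i ≠ 0 := by
    intro i hi h0
    apply hx i hi
    funext k
    rw [← hP i k, h0]
    simp
  have hprod : ∏ i ∈ T, P i ≠ 0 := Finset.prod_ne_zero_iff.mpr hP0
  obtain ⟨M, hM⟩ : ∃ M : ℤ, (∏ i ∈ T, P i).eval M ≠ 0 := by
    by_contra hcon
    push Not at hcon
    exact hprod (Polynomial.funext fun M => by rw [hcon M, Polynomial.eval_zero])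
  refine ⟨M, fun i hi => ?_⟩
  rw [Polynomial.eval_prod, Finset.prod_ne_zero_iff] at hM
  have := hM i hi
  simpa [P, Polynomial.eval_finsetSum] using this

/-- **Generic weights.** -/
theorem exists_wt {P : Type} [Fintype P] (hR : RootC k 𝒢) (g : P → Eˣ) (hg : ∀ p, g p ∈ 𝒢) :
    ∃ l : P → ℤ, (∀ γ : P → ℤ, ((∏ p, g p ^ γ p : Eˣ) : E) ∈ k → ∑ p, l p * γ p = 0) ∧
      ∀ p p', l p = l p' → (g p : E) / (g p' : E) ∈ k := by
  classical
  let Λ : AddSubgroup (P → ℤ) :=
    { carrier := {γ | ((∏ p, g p ^ γ p : Eˣ) : E) ∈ k}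
      add_mem' := by
        intro γ γ' h h'
        have h1 : (∏ p, g p ^ (γ + γ') p : Eˣ) = (∏ p, g p ^ γ p) * ∏ p, g p ^ γ' p := by
          rw [← Finset.prod_mul_distrib]
          exact Finset.prod_congr rfl fun p _ => by rw [Pi.add_apply, zpow_add]
        show ((∏ p, g p ^ (γ + γ') p : Eˣ) : E) ∈ k
        rw [h1, Units.val_mul]
        exact k.mul_mem h h'
      zero_mem' := by
        show ((∏ p, g p ^ (0 : P → ℤ) p : Eˣ) : E) ∈ k
        simp only [Pi.zero_apply, zpow_zero, Finset.prod_const_one, Units.val_one]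
        exact k.one_mem
      neg_mem' := by
        intro γ h
        have h1 : (∏ p, g p ^ (-γ) p : Eˣ) = (∏ p, g p ^ γ p)⁻¹ := by
          rw [← Finset.prod_inv_distrib]
          exact Finset.prod_congr rfl fun p _ => by rw [Pi.neg_apply, zpow_neg]
        show ((∏ p, g p ^ (-γ) p : Eˣ) : E) ∈ k
        rw [h1, Units.val_inv_eq_inv_val]
        exact k.inv_mem h }
  have hmem : ∀ γ : P → ℤ, γ ∈ Λ ↔ ((∏ p, g p ^ γ p : Eˣ) : E) ∈ k := fun γ => Iff.rfl
  let Q := (P → ℤ) ⧸ Λ
  have hfin : Module.Finite ℤ Q :=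
    Module.Finite.of_surjective (QuotientAddGroup.mk' Λ).toIntLinearMap
      (QuotientAddGroup.mk'_surjective Λ)
  have hmk : ∀ γ : P → ℤ, (QuotientAddGroup.mk γ : Q) = 0 ↔ γ ∈ Λ := fun γ =>
    QuotientAddGroup.eq_zero_iff γ
  have hsat : ∀ (n : ℕ) (γ : P → ℤ), 0 < n → n • γ ∈ Λ → γ ∈ Λ := by
    intro n γ hn h
    rw [hmem] at h ⊢
    refine hR _ (𝒢.prod_mem fun p _ => 𝒢.zpow_mem (hg p) _) n hn ?_
    have h1 : (∏ p, g p ^ (n • γ) p : Eˣ) = (∏ p, g p ^ γ p) ^ n := by
      rw [← Finset.prod_pow]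
      refine Finset.prod_congr rfl fun p _ => ?_
      rw [Pi.smul_apply, nsmul_eq_mul, mul_comm, zpow_mul, zpow_natCast]
    rw [h1, Units.val_pow_eq_pow_val] at h
    exact h
  have htf : Module.IsTorsionFree ℤ Q := by
    refine Module.IsTorsionFree.of_smul_eq_zero fun r q hq => ?_
    by_cases hr : r = 0
    · exact Or.inl hr
    right
    obtain ⟨γ, rfl⟩ := QuotientAddGroup.mk_surjective q
    have h1 : (QuotientAddGroup.mk (r • γ) : Q) = 0 := hq
    rw [hmk] at h1
    rw [hmk]
    refine hsat r.natAbs γ (Int.natAbs_pos.mpr hr) ?_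
    have h2 : (r.natAbs : ℕ) • γ = (r.natAbs : ℤ) • γ := (natCast_zsmul γ _).symm
    rw [h2]
    rcases Int.natAbs_eq r with h3 | h3
    · rw [← h3]
      exact h1
    · have h4 : ((r.natAbs : ℤ)) = -r := by omega
      rw [h4, neg_smul]
      exact Λ.neg_mem h1
  have hfree : Module.Free ℤ Q := Module.free_of_finite_type_torsion_free'
  obtain ⟨r, hr⟩ : ∃ r : ℕ, r = Module.finrank ℤ Q := ⟨_, rfl⟩
  let B : Module.Basis (Fin r) ℤ Q := (Module.finBasis ℤ Q).reindex (finCongr hr.symm)
  let x : P → Fin r → ℤ := fun p i => B.repr (QuotientAddGroup.mk (Pi.single p 1)) i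
  have hx : ∀ p, (QuotientAddGroup.mk (Pi.single p 1) : Q) = ∑ i, x p i • B i := fun p =>
    (B.sum_repr _).symm
  obtain ⟨M, hM⟩ := exists_num ((Finset.univ : Finset (P × P)).filter
    fun p => x p.1 ≠ x p.2) (fun p => x p.1 - x p.2) (fun p hp =>
      sub_ne_zero.mpr (Finset.mem_filter.mp hp).2)
  refine ⟨fun p => ∑ i, x p i * M ^ (i : ℕ), fun γ hγ => ?_, fun p p' hpp => ?_⟩
  · have h1 : (QuotientAddGroup.mk γ : Q) = 0 := (hmk γ).2 hγ
    have h2 : (QuotientAddGroup.mk γ : Q) = ∑ p, γ p • (QuotientAddGroup.mk (Pi.single p 1) : Q) := by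
      have h3 : γ = ∑ p, γ p • (Pi.single p 1 : P → ℤ) := by
        funext q
        rw [Finset.sum_apply, Finset.sum_eq_single q]
        · simp
        · intro p _ hp
          simp [hp.symm]
        · intro h
          exact absurd (Finset.mem_univ _) h
      have h4 := map_sum (QuotientAddGroup.mk' Λ) (fun p => γ p • (Pi.single p 1 : P → ℤ)) univ
      rw [← h3] at h4
      exact h4
    rw [h2] at h1
    have h5 : ∀ i, ∑ p, γ p * x p i = 0 := by
      intro i
      have h6 := congrArg (fun q => B.repr q i) h1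
      simp only [map_sum, map_zsmul, map_zero, Finsupp.coe_zero, Pi.zero_apply,
        Finsupp.coe_finsetSum, Finset.sum_apply, Finsupp.coe_smul, Pi.smul_apply,
        smul_eq_mul] at h6
      exact h6
    simp only [Finset.sum_mul]
    rw [Finset.sum_comm]
    refine Finset.sum_eq_zero fun i _ => ?_
    have h6 : ∑ p, x p i * M ^ (i : ℕ) * γ p = (∑ p, γ p * x p i) * M ^ (i : ℕ) := by
      rw [Finset.sum_mul]
      exact Finset.sum_congr rfl fun p _ => by ring
    rw [h6, h5, zero_mul]
  · have h1 : x p = x p' := by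
      by_contra hne
      apply hM (p, p') (Finset.mem_filter.mpr ⟨Finset.mem_univ _, hne⟩)
      simp only [Pi.sub_apply, sub_mul, Finset.sum_sub_distrib]
      exact sub_eq_zero.2 hpp
    have h2 : (Pi.single p 1 - Pi.single p' 1 : P → ℤ) ∈ Λ := by
      rw [← hmk]
      have h3 : (QuotientAddGroup.mk (Pi.single p 1 - Pi.single p' 1 : P → ℤ) : Q) =
          QuotientAddGroup.mk (Pi.single p 1) - QuotientAddGroup.mk (Pi.single p' 1) := rfl
      rw [h3, hx p, hx p', h1, sub_self]
    rw [hmem] at h2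
    have h3 : (∏ q, g q ^ (Pi.single p 1 - Pi.single p' 1 : P → ℤ) q : Eˣ) = g p / g p' := by
      simp only [Pi.sub_apply, zpow_sub, Finset.prod_mul_distrib, Finset.prod_inv_distrib]
      rw [div_eq_mul_inv]
      congr 1
      · rw [Finset.prod_eq_single p]
        · simp
        · intro q _ hq
          simp [hq]
        · intro h
          exact absurd (Finset.mem_univ _) h
      · congr 1
        rw [Finset.prod_eq_single p']
        · simp
        · intro q _ hq
          simp [hq]
        · intro h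
          exact absurd (Finset.mem_univ _) h
    rw [h3] at h2
    rw [← Units.val_div_eq_div_val]
    exact h2

end tr

end Pool.Agent.W2helper39.MU
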