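import Mathlib
import Pool.Agent.W2helper39.MU.Defs
import Pool.Agent.W2helper39.MU.Lin

/-!
The curve through a point whose coordinates are sums of products of small elements and units.
-/

set_option autoImplicit false
set_option linter.unusedSectionVars false

namespace Pool.Agent.W2helper39.MU

open MvPolynomial Finset Filter

section good

variable {A : Type} [CommRing A] {r M m : ℕ}

/-- the variables: parameters and terms -/
abbrev Vr (r M m : ℕ) : Type := Fin r ⊕ (Fin M × Fin m)

/-- the polynomial in the parameters and the terms -/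
noncomputable def sub (m : ℕ) (G : MvPolynomial (Fin r ⊕ Fin M) A) : MvPolynomial (Vr r M m) A :=
  bind₁ (Sum.elim (fun j => X (Sum.inl j)) fun c => ∑ i : Fin m, X (Sum.inr (c, i))) G

/-- the values of the variables -/
def pt {F : Type} (s : Fin r → F) (y : Fin M → Fin m → F) : Vr r M m → F :=
  Sum.elim s fun p => y p.1 p.2

/-- the weights of the variables -/
def wv (r : ℕ) (b : Fin M → Fin m → ℤ) : Vr r M m → ℤ :=
  Sum.elim (fun _ => 0) fun p => b p.1 p.2

theorem eval₂_sub {F : Type} [CommRing F] (φ : A →+* F) (s : Fin r → F) (y : Fin M → Fin m → F)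
    (G : MvPolynomial (Fin r ⊕ Fin M) A) :
    eval₂ φ (pt s y) (sub m G) = val φ s (fun c => ∑ i, y c i) G := by
  have h : ∀ P : MvPolynomial (Fin r ⊕ Fin M) A, eval₂Hom φ (pt s y) (sub m P) =
      eval₂Hom φ (Sum.elim s fun c => ∑ i, y c i) P := by
    intro P
    unfold sub
    rw [eval₂Hom_bind₁]
    congr 2
    funext j
    rcases j with j | c
    · simp [pt]
    · simp [pt]
  exact h G

theorem eval₂_sub_laur {F : Type} [Field F] (φ : A →+* F) (s : Fin r → F) (y : Fin M → Fin m → F)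
    (b : Fin M → Fin m → ℤ) (t : F) (G : MvPolynomial (Fin r ⊕ Fin M) A) :
    eval₂ φ (fun p => pt s y p * t ^ wv r b p) (sub m G) = val φ s (laur y b t) G := by
  have h : (fun p => pt s y p * t ^ wv r b p) = pt s fun c i => y c i * t ^ b c i := by
    funext p
    rcases p with j | p
    · simp [pt, wv]
    · simp [pt, wv]
  rw [h, eval₂_sub]
  rfl

/-- the coefficient of `t ^ e` in the coordinate `c` -/
def cf {F : Type} [Field F] (y : Fin M → Fin m → F) (b : Fin M → Fin m → ℤ) (c : Fin M) (e : ℤ) : F :=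
  ∑ i ∈ univ.filter (fun i => b c i = e), y c i

/-- the curve `laur y b` is nonconstant, in a fibre of `U` -/
structure Good {F ι : Type} [Field F] (φ : A →+* F) (G : ι → MvPolynomial (Fin r ⊕ Fin M) A)
    (Q : MvPolynomial (Fin r ⊕ Fin M) A) (s : Fin r → F) (y : Fin M → Fin m → F)
    (b : Fin M → Fin m → ℤ) : Prop where
  eqs : ∀ j e, eval₂ φ (pt s y) (cmp (wv r b) e (sub m (G j))) = 0
  bd : ∃ e₀, eval₂ φ (pt s y) (cmp (wv r b) e₀ (sub m Q)) ≠ 0 ∧
    ∀ e, e ≠ e₀ → eval₂ φ (pt s y) (cmp (wv r b) e (sub m Q)) = 0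
  nc : ∃ c c' e e', cf y b c e * cf y b c' e' ≠ cf y b c' e * cf y b c e'

theorem laur_cf {F : Type} [Field F] (y : Fin M → Fin m → F) (b : Fin M → Fin m → ℤ)
    (c : Fin M) (t : F) (T : Finset ℤ) (hT : ∀ i, b c i ∈ T) :
    laur y b t c = ∑ e ∈ T, cf y b c e * t ^ e := by
  classical
  unfold laur
  rw [← Finset.sum_fiberwise_of_maps_to (g := fun i => b c i) (t := T) (fun i _ => hT i)]
  refine Finset.sum_congr rfl fun e _ => ?_
  unfold cf
  rw [Finset.sum_mul]
  refine Finset.sum_congr rfl fun i hi => ?_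
  rw [(Finset.mem_filter.1 hi).2]

/-- a sum of powers which vanishes -/
theorem coeff_zero {F : Type} [Field F] [Infinite F] (T : Finset ℤ) (d : ℤ → F)
    (h : {t : F | t ≠ 0 ∧ ∑ e ∈ T, d e * t ^ e = 0}.Infinite) : ∀ e ∈ T, d e = 0 := by
  classical
  obtain ⟨N, hN⟩ : ∃ N : ℕ, ∀ e ∈ T, 0 ≤ e + N := by
    refine ⟨∑ e ∈ T, e.natAbs, fun e he => ?_⟩
    have h1 : e.natAbs ≤ ∑ e ∈ T, e.natAbs :=
      Finset.single_le_sum (f := fun e : ℤ => e.natAbs) (fun _ _ => Nat.zero_le _) he
    omega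
  let p : Polynomial F := ∑ e ∈ T, Polynomial.C (d e) * Polynomial.X ^ (e + N).toNat
  have hp : p = 0 := by
    apply Polynomial.eq_zero_of_infinite_isRoot
    refine h.mono ?_
    rintro t ⟨ht, h1⟩
    have h2 : Polynomial.eval t p = t ^ N * ∑ e ∈ T, d e * t ^ e := by
      simp only [p, Polynomial.eval_finsetSum, Polynomial.eval_mul, Polynomial.eval_C,
        Polynomial.eval_pow, Polynomial.eval_X]
      rw [Finset.mul_sum]
      refine Finset.sum_congr rfl fun e he => ?_
      have h3 : t ^ (e + N).toNat = t ^ N * t ^ e := by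
        rw [← zpow_natCast, ← zpow_natCast, Int.toNat_of_nonneg (hN e he), zpow_add₀ ht, mul_comm]
      rw [h3]
      ring
    show Polynomial.eval t p = 0
    rw [h2, h1, mul_zero]
  intro e he
  have h1 : p.coeff (e + N).toNat = d e := by
    simp only [p, Polynomial.finsetSum_coeff, Polynomial.coeff_C_mul, Polynomial.coeff_X_pow]
    rw [Finset.sum_eq_single e]
    · simp
    · intro e' he' hne
      rw [if_neg, mul_zero]
      intro h2
      apply hne
      have h3 := hN e he
      have h4 := hN e' he'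
      omega
    · intro h2
      exact absurd he h2
  rw [← h1, hp, Polynomial.coeff_zero]

variable {F ι : Type} [Field F] {φ : A →+* F} {G : ι → MvPolynomial (Fin r ⊕ Fin M) A}
  {Q : MvPolynomial (Fin r ⊕ Fin M) A} {s : Fin r → F} {y : Fin M → Fin m → F}
  {b : Fin M → Fin m → ℤ}

theorem val_expand (φ : A →+* F) (P : MvPolynomial (Fin r ⊕ Fin M) A) (s : Fin r → F)
    (y : Fin M → Fin m → F) (b : Fin M → Fin m → ℤ) {t : F} (ht : t ≠ 0) :
    val φ s (laur y b t) P = ∑ e ∈ (sub m P).support.image (wt (wv r b)),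
      t ^ e * eval₂ φ (pt s y) (cmp (wv r b) e (sub m P)) := by
  rw [← eval₂_sub_laur, eval₂_curve φ (pt s y) (wv r b) (sub m P) ht]

/-- the exponents -/
def exps (b : Fin M → Fin m → ℤ) : Finset ℤ := univ.image fun p : Fin M × Fin m => b p.1 p.2

theorem mem_exps (b : Fin M → Fin m → ℤ) (c : Fin M) (i : Fin m) : b c i ∈ exps b :=
  Finset.mem_image.2 ⟨(c, i), Finset.mem_univ _, rfl⟩

theorem cf_eq_zero {c : Fin M} {e : ℤ} (he : e ∉ exps b) : cf y b c e = 0 := by
  unfold cf
  refine Finset.sum_eq_zero fun i hi => ?_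
  exact absurd ((Finset.mem_filter.1 hi).2 ▸ mem_exps b c i) he

/-- the double expansion -/
theorem wedge_expand (y : Fin M → Fin m → F) (b : Fin M → Fin m → ℤ) (c c' : Fin M) (t u : F) :
    laur y b t c * laur y b u c' - laur y b t c' * laur y b u c = ∑ e ∈ exps b,
      (∑ e' ∈ exps b, (cf y b c e * cf y b c' e' - cf y b c' e * cf y b c e') * u ^ e') * t ^ e := by
  rw [laur_cf y b c t _ (mem_exps b c), laur_cf y b c' u _ (mem_exps b c'),
    laur_cf y b c' t _ (mem_exps b c'), laur_cf y b c u _ (mem_exps b c),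
    Finset.sum_mul_sum, Finset.sum_mul_sum, ← Finset.sum_sub_distrib]
  refine Finset.sum_congr rfl fun e _ => ?_
  rw [← Finset.sum_sub_distrib, Finset.sum_mul]
  refine Finset.sum_congr rfl fun e' _ => ?_
  ring

theorem infinite_ne_zero [Infinite F] : {t : F | t ≠ 0}.Infinite := by
  have h : {t : F | t ≠ 0} = ({0} : Set F)ᶜ := by
    ext t
    simp
  rw [h]
  exact (Set.finite_singleton 0).infinite_compl

/-- the properties of good curves -/
theorem Good.curve [Infinite F] (h : Good φ G Q s y b) :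
    (∀ t, t ≠ 0 → InU φ G Q s (laur y b t)) ∧
    ∃ t u c c', t ≠ 0 ∧ u ≠ 0 ∧ laur y b t c * laur y b u c' ≠ laur y b t c' * laur y b u c := by
  classical
  refine ⟨fun t ht => ⟨fun j => ?_, ?_⟩, ?_⟩
  · rw [val_expand φ _ s y b ht]
    refine Finset.sum_eq_zero fun e _ => ?_
    rw [h.eqs, mul_zero]
  · obtain ⟨e₀, h0, h1⟩ := h.bd
    have he : e₀ ∈ (sub m Q).support.image (wt (wv r b)) := by
      by_contra hcon
      rw [cmp_eq_zero _ _ hcon, eval₂_zero] at h0
      exact h0 rfl
    rw [val_expand φ _ s y b ht, Finset.sum_eq_single e₀]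
    · exact mul_ne_zero (zpow_ne_zero _ ht) h0
    · intro e _ hne
      rw [h1 e hne, mul_zero]
    · intro h2
      exact absurd he h2
  · by_contra hcon
    push Not at hcon
    obtain ⟨c, c', e, e', hne⟩ := h.nc
    apply hne
    have he : e ∈ exps b := by
      by_contra h1
      rw [cf_eq_zero h1, cf_eq_zero h1, zero_mul, zero_mul] at hne
      exact hne rfl
    have he' : e' ∈ exps b := by
      by_contra h1
      rw [cf_eq_zero h1, cf_eq_zero h1, mul_zero, mul_zero] at hne
      exact hne rfl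
    have h1 : ∀ u : F, u ≠ 0 → ∑ e' ∈ exps b,
        (cf y b c e * cf y b c' e' - cf y b c' e * cf y b c e') * u ^ e' = 0 := by
      intro u hu
      refine coeff_zero (exps b) (fun e => ∑ e' ∈ exps b,
        (cf y b c e * cf y b c' e' - cf y b c' e * cf y b c e') * u ^ e') ?_ e he
      refine infinite_ne_zero.mono fun t (ht : t ≠ 0) => ⟨ht, ?_⟩
      rw [← wedge_expand, hcon t u c c' ht hu, sub_self]
    have h2 := coeff_zero (exps b)
      (fun e' => cf y b c e * cf y b c' e' - cf y b c' e * cf y b c e') (by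
        refine infinite_ne_zero.mono fun u (hu : u ≠ 0) => ⟨hu, h1 u hu⟩) e' he'
    exact sub_eq_zero.1 h2

/-- a Laurent polynomial without zeros is a monomial -/
theorem monomial_of_ne (T : Finset ℤ) (d : ℤ → ℂ)
    (h : ∀ t : ℂ, t ≠ 0 → ∑ e ∈ T, t ^ e * d e ≠ 0) :
    ∃ e₀ ∈ T, d e₀ ≠ 0 ∧ ∀ e ∈ T, e ≠ e₀ → d e = 0 := by
  classical
  obtain ⟨N, hN⟩ : ∃ N : ℕ, ∀ e ∈ T, 0 ≤ e + N := by
    refine ⟨∑ e ∈ T, e.natAbs, fun e he => ?_⟩
    have h1 : e.natAbs ≤ ∑ e ∈ T, e.natAbs :=
      Finset.single_le_sum (f := fun e : ℤ => e.natAbs) (fun _ _ => Nat.zero_le _) he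
    omega
  let p : Polynomial ℂ := ∑ e ∈ T, Polynomial.C (d e) * Polynomial.X ^ (e + N).toNat
  have hev : ∀ t : ℂ, t ≠ 0 → Polynomial.eval t p = t ^ N * ∑ e ∈ T, t ^ e * d e := by
    intro t ht
    simp only [p, Polynomial.eval_finsetSum, Polynomial.eval_mul, Polynomial.eval_C,
      Polynomial.eval_pow, Polynomial.eval_X]
    rw [Finset.mul_sum]
    refine Finset.sum_congr rfl fun e he => ?_
    have h3 : t ^ (e + N).toNat = t ^ N * t ^ e := by
      rw [← zpow_natCast, ← zpow_natCast, Int.toNat_of_nonneg (hN e he), zpow_add₀ ht, mul_comm]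
    rw [h3]
    ring
  have hcoeff : ∀ e ∈ T, p.coeff (e + N).toNat = d e := by
    intro e he
    simp only [p, Polynomial.finsetSum_coeff, Polynomial.coeff_C_mul, Polynomial.coeff_X_pow]
    rw [Finset.sum_eq_single e]
    · simp
    · intro e' he' hne
      rw [if_neg, mul_zero]
      intro h2
      apply hne
      have h3 := hN e he
      have h4 := hN e' he'
      omega
    · intro h2
      exact absurd he h2
  have hroot : ∀ t : ℂ, t ≠ 0 → Polynomial.eval t p ≠ 0 := fun t ht => by
    rw [hev t ht]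
    exact mul_ne_zero (pow_ne_zero _ ht) (h t ht)
  have hp0 : p ≠ 0 := by
    intro h0
    apply hroot 1 one_ne_zero
    rw [h0, Polynomial.eval_zero]
  -- all roots are zero, so `p = c X ^ k`
  have hsplit := IsAlgClosed.splits p
  have hroots : ∀ z ∈ p.roots, z = 0 := by
    intro z hz
    by_contra hz0
    exact hroot z hz0 ((Polynomial.mem_roots hp0).1 hz)
  have hrep : p.roots = Multiset.replicate (Multiset.card p.roots) 0 :=
    Multiset.eq_replicate.2 ⟨rfl, hroots⟩
  have hpe : p = Polynomial.C p.leadingCoeff * Polynomial.X ^ (Multiset.card p.roots) := by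
    have h1 := hsplit.eq_prod_roots
    rw [hrep, Multiset.map_replicate, Multiset.prod_replicate, map_zero, sub_zero] at h1
    exact h1
  set k := Multiset.card p.roots with hk
  have hex : ∃ e₀ ∈ T, (e₀ + N).toNat = k ∧ d e₀ ≠ 0 := by
    by_contra hcon
    push Not at hcon
    apply hp0
    have h2 : ∀ e ∈ T, d e = 0 := by
      intro e he
      by_cases hek : (e + N).toNat = k
      · exact hcon e he hek
      · rw [← hcoeff e he, hpe, Polynomial.coeff_C_mul, Polynomial.coeff_X_pow, if_neg hek,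
          mul_zero]
    simp only [p]
    refine Finset.sum_eq_zero fun e he => ?_
    rw [h2 e he, map_zero, zero_mul]
  obtain ⟨e₀, he₀, hek, hde⟩ := hex
  refine ⟨e₀, he₀, hde, fun e he hne => ?_⟩
  have hek' : (e + N).toNat ≠ k := by
    rw [← hek]
    intro h2
    apply hne
    have h3 := hN e he
    have h4 := hN e₀ he₀
    omega
  rw [← hcoeff e he, hpe, Polynomial.coeff_C_mul, Polynomial.coeff_X_pow, if_neg hek', mul_zero]

/-- nonconstant curves in a fibre of `U` are good -/
theorem Good.of_curve {φ : A →+* ℂ} {s : Fin r → ℂ} {y : Fin M → Fin m → ℂ}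
    (h1 : ∀ t, t ≠ 0 → InU φ G Q s (laur y b t))
    (h2 : ∃ t u c c', t ≠ 0 ∧ u ≠ 0 ∧
      laur y b t c * laur y b u c' ≠ laur y b t c' * laur y b u c) : Good φ G Q s y b := by
  classical
  refine ⟨fun j e => ?_, ?_, ?_⟩
  · by_cases he : e ∈ (sub m (G j)).support.image (wt (wv r b))
    · refine coeff_zero _ (fun e => eval₂ φ (pt s y) (cmp (wv r b) e (sub m (G j)))) ?_ e he
      refine infinite_ne_zero.mono fun t (ht : t ≠ 0) => ⟨ht, ?_⟩
      rw [← (h1 t ht).1 j, val_expand φ (G j) s y b ht]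
      exact Finset.sum_congr rfl fun e _ => mul_comm _ _
    · rw [cmp_eq_zero _ _ he, eval₂_zero]
  · obtain ⟨e₀, -, h3, h4⟩ := monomial_of_ne ((sub m Q).support.image (wt (wv r b)))
      (fun e => eval₂ φ (pt s y) (cmp (wv r b) e (sub m Q))) (fun t ht => by
        rw [← val_expand φ Q s y b ht]
        exact (h1 t ht).2)
    refine ⟨e₀, h3, fun e hne => ?_⟩
    by_cases he : e ∈ (sub m Q).support.image (wt (wv r b))
    · exact h4 e he hne
    · rw [cmp_eq_zero _ _ he, eval₂_zero]
  · by_contra hcon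
    push Not at hcon
    obtain ⟨t, u, c, c', -, -, hne⟩ := h2
    apply hne
    rw [← sub_eq_zero, wedge_expand]
    refine Finset.sum_eq_zero fun e _ => ?_
    rw [Finset.sum_eq_zero, zero_mul]
    intro e' _
    rw [hcon c c' e e', sub_self, zero_mul]

theorem pt_map {F' : Type} [Field F'] (θ : F →+* F') (s : Fin r → F) (y : Fin M → Fin m → F) :
    pt (fun j => θ (s j)) (fun c i => θ (y c i)) = fun p => θ (pt s y p) := by
  funext p
  rcases p with j | p
  · rfl
  · rfl

theorem cf_map {F' : Type} [Field F'] (θ : F →+* F') (y : Fin M → Fin m → F)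
    (b : Fin M → Fin m → ℤ) (c : Fin M) (e : ℤ) :
    cf (fun c i => θ (y c i)) b c e = θ (cf y b c e) := by
  unfold cf
  rw [map_sum]

/-- extension of the field -/
theorem Good.map {F' : Type} [Field F'] (θ : F →+* F') (h : Good φ G Q s y b) :
    Good (θ.comp φ) G Q (fun j => θ (s j)) (fun c i => θ (y c i)) b := by
  have h0 : ∀ P : MvPolynomial (Vr r M m) A,
      eval₂ (θ.comp φ) (pt (fun j => θ (s j)) fun c i => θ (y c i)) P =
        θ (eval₂ φ (pt s y) P) := by
    intro P
    rw [pt_map]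
    exact (eval₂_comp_left θ φ (pt s y) P).symm
  refine ⟨fun j e => ?_, ?_, ?_⟩
  · rw [h0, h.eqs, map_zero]
  · obtain ⟨e₀, h1, h2⟩ := h.bd
    refine ⟨e₀, ?_, fun e he => ?_⟩
    · rw [h0]
      exact (map_ne_zero θ).2 h1
    · rw [h0, h2 e he, map_zero]
  · obtain ⟨c, c', e, e', hne⟩ := h.nc
    refine ⟨c, c', e, e', fun h1 => hne (θ.injective ?_)⟩
    simp only [cf_map] at h1
    rw [map_mul, map_mul]
    exact h1

theorem laur_one (y : Fin M → Fin m → F) (b : Fin M → Fin m → ℤ) :
    laur y b 1 = fun c => ∑ i, y c i := by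
  funext c
  simp [laur]

end good

section special

variable {Ω F E A : Type} [Field F] [Field E] [CommRing A]

/-- **The main construction.** -/
theorem special (𝒰 : Ultrafilter Ω) (mk : (Ω → F) →+* E)
    (hmk : ∀ f, mk f = 0 ↔ ∀ᶠ ω in (𝒰 : Filter Ω), f ω = 0) {k : Subfield E} {𝒢 : Subgroup Eˣ}
    (hI : IndU k 𝒢) (hR : RootC k 𝒢) (φ : A →+* F) (hφ : ∀ c, mk (fun _ => φ c) ∈ k) {r M m : ℕ}
    {ι : Type} [Finite ι] (G : ι → MvPolynomial (Fin r ⊕ Fin M) A)
    (Q : MvPolynomial (Fin r ⊕ Fin M) A) (s : Fin r → Ω → F) (hs : ∀ j, mk (s j) ∈ k)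
    (a u : Fin M → Fin m → Ω → F) (ha : ∀ c i, mk (a c i) ∈ k)
    (hu : ∀ c i, ∃ g ∈ 𝒢, (g : E) = mk (u c i)) (q v : Ω → F) (hq : mk q ∈ k)
    (hv : ∃ g ∈ 𝒢, (g : E) = mk v) (hq0 : mk q ≠ 0)
    (hG : ∀ j, ∀ᶠ ω in (𝒰 : Filter Ω),
      val φ (fun i => s i ω) (fun c => ∑ i, a c i ω * u c i ω) (G j) = 0)
    (hQ : ∀ᶠ ω in (𝒰 : Filter Ω),
      val φ (fun i => s i ω) (fun c => ∑ i, a c i ω * u c i ω) Q = q ω * v ω)
    (hne : ∃ c c', mk (fun ω => ∑ i, a c' i ω * u c' i ω) ≠ 0 ∧
      mk (fun ω => ∑ i, a c i ω * u c i ω) / mk (fun ω => ∑ i, a c' i ω * u c' i ω) ∉ k) :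
    ∃ b : Fin M → Fin m → ℤ, ∀ᶠ ω in (𝒰 : Filter Ω),
      Good φ G Q (fun i => s i ω) (fun c i => a c i ω * u c i ω) b := by
  classical
  choose g hg hgu using hu
  obtain ⟨g', hg', hgv⟩ := hv
  -- the family of all variables
  let φE : A →+* E := mk.comp ((Pi.constRingHom Ω F).comp φ)
  have hφE : ∀ c, φE c ∈ k := hφ
  let aV : Vr r M m → E := Sum.elim (fun j => mk (s j)) fun p => mk (a p.1 p.2)
  let gV : Vr r M m → Eˣ := Sum.elim (fun _ => 1) fun p => g p.1 p.2
  have haV : ∀ p, aV p ∈ k := by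
    rintro (j | p)
    · exact hs j
    · exact ha _ _
  have hgV : ∀ p, gV p ∈ 𝒢 := by
    rintro (j | p)
    · exact 𝒢.one_mem
    · exact hg _ _
  let gO : Option (Vr r M m) → Eˣ := fun p => match p with
    | none => g'
    | some p => gV p
  have hgO : ∀ p, gO p ∈ 𝒢 := by
    rintro (_ | p)
    · exact hg'
    · exact hgV p
  obtain ⟨lO, hl1, hl2⟩ := exists_wt hR gO hgO
  let l : Vr r M m → ℤ := fun p => lO (some p)
  let l' : ℤ := lO none
  have hl : ∀ (γ : Vr r M m → ℤ) (ε : ℤ), (((∏ p, gV p ^ γ p) * g' ^ ε : Eˣ) : E) ∈ k →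
      ∑ p, l p * γ p + l' * ε = 0 := by
    intro γ ε h
    have h1 := hl1 (fun p => match p with
      | none => ε
      | some p => γ p) (by
      rw [Fintype.prod_option, mul_comm]
      exact h)
    rw [Fintype.sum_option] at h1
    simp only at h1
    simp only [l, l']
    linarith
  let b : Fin M → Fin m → ℤ := fun c i => l (Sum.inr (c, i))
  have hlb : l = wv r b := by
    funext p
    rcases p with j | p
    · have h1 := hl (Pi.single (Sum.inl j) 1) 0 (by
        rw [zpow_zero, mul_one, Finset.prod_eq_single (Sum.inl j)]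
        · rw [Pi.single_eq_same, zpow_one]
          show ((1 : Eˣ) : E) ∈ k
          rw [Units.val_one]
          exact k.one_mem
        · intro q _ hq
          rw [Pi.single_eq_of_ne hq, zpow_zero]
        · intro h
          exact absurd (Finset.mem_univ _) h)
      rw [Finset.sum_eq_single (Sum.inl j)] at h1
      · simp only [Pi.single_eq_same, mul_one, mul_zero, add_zero] at h1
        exact h1
      · intro q _ hq
        rw [Pi.single_eq_of_ne hq, mul_zero]
      · intro h
        exact absurd (Finset.mem_univ _) h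
    · rfl
  -- the values
  let yω : Ω → Fin M → Fin m → F := fun ω c i => a c i ω * u c i ω
  have hev : ∀ P : MvPolynomial (Vr r M m) A, eval₂ φE (fun p => aV p * (gV p : E)) P =
      mk fun ω => eval₂ φ (pt (fun i => s i ω) (yω ω)) P := by
    intro P
    let V : Vr r M m → Ω → F := fun p ω => pt (fun i => s i ω) (yω ω) p
    have h1 : (fun p => aV p * (gV p : E)) = fun p => mk (V p) := by
      funext p
      rcases p with j | p
      · show mk (s j) * ((1 : Eˣ) : E) = mk (s j)
        rw [Units.val_one, mul_one]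
      · show mk (a p.1 p.2) * (g p.1 p.2 : E) = _
        rw [hgu, ← map_mul]
        rfl
    have h2 : eval₂ ((Pi.constRingHom Ω F).comp φ) V P =
        fun ω => eval₂ φ (pt (fun i => s i ω) (yω ω)) P := by
      funext ω
      have h3 := eval₂_comp_left (Pi.evalRingHom (fun _ : Ω => F) ω)
        ((Pi.constRingHom Ω F).comp φ) V P
      exact h3
    rw [h1, ← h2]
    exact (eval₂_comp_left mk ((Pi.constRingHom Ω F).comp φ) V P).symm
  have hsub : ∀ (P : MvPolynomial (Fin r ⊕ Fin M) A) (ω : Ω),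
      eval₂ φ (pt (fun i => s i ω) (yω ω)) (sub m P) =
        val φ (fun i => s i ω) (fun c => ∑ i, a c i ω * u c i ω) P := fun P ω =>
    eval₂_sub φ _ _ P
  have hmk0 : ∀ f, mk f ≠ 0 → ∀ᶠ ω in (𝒰 : Filter Ω), f ω ≠ 0 := by
    intro f hf
    by_contra h
    exact hf ((hmk f).2 (by
      rw [← Ultrafilter.eventually_not] at h
      filter_upwards [h] with ω h1
      exact not_not.1 h1))
  have hcmp := fun (P : MvPolynomial (Vr r M m) A) (a' : E) (ha' : a' ∈ k)
    (h : eval₂ φE (fun p => aV p * (gV p : E)) P = a' * (g' : E)) (e : ℤ) =>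
    transfer hI φE hφE aV gV haV hgV a' g' ha' hg' l l' hl P h e
  refine ⟨b, ?_⟩
  -- the equations
  have h1 : ∀ᶠ ω in (𝒰 : Filter Ω), ∀ j, ∀ e ∈ (sub m (G j)).support.image (wt (wv r b)),
      eval₂ φ (pt (fun i => s i ω) (yω ω)) (cmp (wv r b) e (sub m (G j))) = 0 := by
    rw [eventually_all]
    intro j
    rw [Finset.eventually_all]
    intro e _
    rw [← hmk, ← hev, ← hlb, hcmp _ 0 k.zero_mem]
    · rw [zero_mul, ite_self]
    · rw [zero_mul, hev, hmk]
      filter_upwards [hG j] with ω h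
      rw [hsub]
      exact h
  have hQE : eval₂ φE (fun p => aV p * (gV p : E)) (sub m Q) = mk q * (g' : E) := by
    rw [hev, hgv, ← map_mul]
    have h2 : mk ((fun ω => eval₂ φ (pt (fun i => s i ω) (yω ω)) (sub m Q)) - q * v) = 0 := by
      rw [hmk]
      filter_upwards [hQ] with ω h
      rw [Pi.sub_apply, hsub, h]
      exact sub_self _
    rw [map_sub, sub_eq_zero] at h2
    exact h2
  have h2 : ∀ᶠ ω in (𝒰 : Filter Ω), ∀ e ∈ (sub m Q).support.image (wt (wv r b)), e ≠ l' →
      eval₂ φ (pt (fun i => s i ω) (yω ω)) (cmp (wv r b) e (sub m Q)) = 0 := by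
    rw [Finset.eventually_all]
    intro e _
    by_cases he : e = l'
    · exact Eventually.of_forall fun ω h => absurd he h
    · have h3 : ∀ᶠ ω in (𝒰 : Filter Ω),
          eval₂ φ (pt (fun i => s i ω) (yω ω)) (cmp (wv r b) e (sub m Q)) = 0 := by
        rw [← hmk, ← hev, ← hlb, hcmp _ (mk q) hq hQE, if_neg he]
      filter_upwards [h3] with ω h4 _
      exact h4
  have h3 : ∀ᶠ ω in (𝒰 : Filter Ω),
      eval₂ φ (pt (fun i => s i ω) (yω ω)) (cmp (wv r b) l' (sub m Q)) ≠ 0 := by
    apply hmk0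
    rw [← hev, ← hlb, hcmp _ (mk q) hq hQE, if_pos rfl]
    exact mul_ne_zero hq0 (Units.ne_zero _)
  -- the curve is nonconstant
  have h4 : ∃ c c' e e', ∀ᶠ ω in (𝒰 : Filter Ω),
      cf (yω ω) b c e * cf (yω ω) b c' e' ≠ cf (yω ω) b c' e * cf (yω ω) b c e' := by
    by_contra hcon
    push Not at hcon
    obtain ⟨c, c', hx', hnk⟩ := hne
    apply hnk
    let p : Fin M → ℤ → E := fun c e => mk fun ω => cf (yω ω) b c e
    have hpp : ∀ c c' e e', p c e * p c' e' = p c' e * p c e' := by
      intro c c' e e'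
      rw [← sub_eq_zero]
      by_contra hne
      have h5 : mk (((fun ω => cf (yω ω) b c e) * fun ω => cf (yω ω) b c' e') -
          (fun ω => cf (yω ω) b c' e) * fun ω => cf (yω ω) b c e') ≠ 0 := by
        rw [map_sub, map_mul, map_mul]
        exact hne
      have h6 := hmk0 _ h5
      obtain ⟨ω, h7, h8⟩ := (h6.and (hcon c c' e e')).exists
      exact h7 (sub_eq_zero.2 h8)
    have hsum : ∀ c, mk (fun ω => ∑ i, a c i ω * u c i ω) = ∑ e ∈ exps b, p c e := by
      intro c
      rw [← map_sum]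
      congr 1
      funext ω
      rw [Finset.sum_apply]
      have h5 := laur_cf (yω ω) b c 1 (exps b) (mem_exps b c)
      rw [laur_one] at h5
      simp only [one_zpow, mul_one] at h5
      exact h5
    have hpk : ∀ c e i₀ c₀, b c₀ i₀ = e → ∃ κ ∈ k, p c e = κ * (g c₀ i₀ : E) := by
      intro c e i₀ c₀ h0
      refine ⟨∑ i ∈ univ.filter (fun i => b c i = e), mk (a c i) * ((g c i : E) / g c₀ i₀), ?_, ?_⟩
      · refine k.sum_mem fun i hi => k.mul_mem (ha _ _) ?_
        refine hl2 (some (Sum.inr (c, i))) (some (Sum.inr (c₀, i₀))) ?_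
        show b c i = b c₀ i₀
        rw [h0]
        exact (Finset.mem_filter.1 hi).2
      · rw [Finset.sum_mul]
        have h5 : p c e = ∑ i ∈ univ.filter (fun i => b c i = e), mk (a c i) * mk (u c i) := by
          simp only [p, ← map_mul]
          rw [← map_sum]
          congr 1
          funext ω
          rw [Finset.sum_apply]
          rfl
        rw [h5]
        refine Finset.sum_congr rfl fun i _ => ?_
        rw [mul_assoc, div_mul_cancel₀ _ (Units.ne_zero _), hgu]
    rw [hsum c'] at hx'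
    obtain ⟨e, he, hpe⟩ := Finset.exists_ne_zero_of_sum_ne_zero hx'
    obtain ⟨⟨c₀, i₀⟩, -, h0⟩ := Finset.mem_image.1 he
    obtain ⟨κ, hκ, h5⟩ := hpk c e i₀ c₀ h0
    obtain ⟨κ', hκ', h6⟩ := hpk c' e i₀ c₀ h0
    have h7 : (∑ e' ∈ exps b, p c e') * p c' e = (∑ e' ∈ exps b, p c' e') * p c e := by
      rw [Finset.sum_mul, Finset.sum_mul]
      exact Finset.sum_congr rfl fun e' _ => hpp c c' e' e
    rw [hsum c, hsum c']
    have h8 : κ' ≠ 0 := by
      rintro rfl
      rw [zero_mul] at h6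
      exact hpe h6
    have h9 : (∑ e' ∈ exps b, p c e') / (∑ e' ∈ exps b, p c' e') = κ / κ' := by
      rw [div_eq_div_iff hx' h8]
      rw [h5, h6] at h7
      have h10 : (g c₀ i₀ : E) ≠ 0 := Units.ne_zero _
      apply mul_right_cancel₀ h10
      linear_combination h7
    rw [h9]
    exact k.div_mem hκ hκ'
  obtain ⟨c, c', e, e', h4⟩ := h4
  filter_upwards [h1, h2, h3, h4] with ω g1 g2 g3 g4
  refine ⟨fun j e => ?_, ⟨l', g3, fun e he => ?_⟩, c, c', e, e', g4⟩
  · by_cases he : e ∈ (sub m (G j)).support.image (wt (wv r b))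
    · exact g1 j e he
    · rw [cmp_eq_zero _ _ he, eval₂_zero]
  · by_cases he' : e ∈ (sub m Q).support.image (wt (wv r b))
    · exact g2 e he' he
    · rw [cmp_eq_zero _ _ he', eval₂_zero]

end special

end Pool.Agent.W2helper39.MU
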