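import Pool.Agent.W2helper39.MU.Defs
import Pool.Agent.W2helper39.BR.Dom
import Pool.Agent.Results.MP_70ba79_ag.SparseCurves
import Pool.Agent.TH119.MX.Gal

/-!
# The complement of a divisor of log general type over a number field

There is a form with coefficients in the ring of integers of `K` which vanishes on all nonconstant
maps from the punctured line to `X - D` with at most `m` terms in each coordinate and not on `X`.
-/

set_option autoImplicit false

namespace Pool.Agent.W2helper39.MU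

open MvPolynomial
open scoped NumberField
open Pool.Agent.Results.MP_70ba79_ag.SparseCurves
open Pool.Agent.W2helper39.BR (GmQ gmQ_of)
open Pool.Agent.TH119.MX Pool.Agent.TH119.DR

section

variable {K : Type} [Field K] (σ : K →+* ℂ) {m M : ℕ} {ι : Type}

/-- a curve with at most `m` terms in `G = 0`, `Q ≠ 0` -/
def Crv (G : ι → MvPolynomial (Fin M) (𝓞 K)) (Q : MvPolynomial (Fin M) (𝓞 K))
    (a : Fin M → Fin m → ℂ) (b : Fin M → Fin m → ℤ) : Prop :=
  (∀ t, t ≠ 0 → (∀ j, eval₂ (emb σ) (laur a b t) (G j) = 0) ∧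
    eval₂ (emb σ) (laur a b t) Q ≠ 0) ∧
  ∃ t u c c', t ≠ 0 ∧ u ≠ 0 ∧ laur a b t c * laur a b u c' ≠ laur a b t c' * laur a b u c

variable {σ}

theorem ev_aut (τ : ℂ ≃+* ℂ) (hτ : ∀ x ∈ σ.fieldRange, τ x = x) (z : Fin M → ℂ)
    (P : MvPolynomial (Fin M) (𝓞 K)) :
    eval₂ (emb σ) (fun c => τ (z c)) P = τ (eval₂ (emb σ) z P) := by
  have h1 := (hom_eval₂ P (emb σ) (τ : ℂ →+* ℂ) z)
  have h2 : (τ : ℂ →+* ℂ).comp (emb σ) = emb σ := by
    ext x
    exact hτ _ ⟨algebraMap (𝓞 K) K x, rfl⟩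
  rw [h2] at h1
  exact h1.symm

theorem laur_aut (τ : ℂ ≃+* ℂ) (a : Fin M → Fin m → ℂ) (b : Fin M → Fin m → ℤ) (t : ℂ) :
    laur (fun c i => τ (a c i)) b (τ t) = fun c => τ (laur a b t c) := by
  funext c
  simp only [laur, map_sum, map_mul, map_zpow₀]

theorem crv_aut (τ : ℂ ≃+* ℂ) (hτ : ∀ x ∈ σ.fieldRange, τ x = x)
    {G : ι → MvPolynomial (Fin M) (𝓞 K)} {Q : MvPolynomial (Fin M) (𝓞 K)}
    {a : Fin M → Fin m → ℂ} {b : Fin M → Fin m → ℤ} (h : Crv σ G Q a b) :
    Crv σ G Q (fun c i => τ (a c i)) b := by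
  obtain ⟨h1, t, u, c, c', ht, hu, hne⟩ := h
  refine ⟨fun t ht => ?_, τ t, τ u, c, c', by simpa using ht, by simpa using hu, ?_⟩
  · have h0 : t = τ (τ.symm t) := (τ.apply_symm_apply t).symm
    have ht' : τ.symm t ≠ 0 := by simpa using ht
    rw [h0, laur_aut]
    obtain ⟨h2, h3⟩ := h1 _ ht'
    refine ⟨fun j => ?_, ?_⟩
    · rw [ev_aut τ hτ, h2 j, map_zero]
    · rw [ev_aut τ hτ]
      simpa using h3
  · rw [laur_aut, laur_aut]
    intro h
    apply hne
    apply τ.injective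
    simpa using h

end

/-- the form with the coefficients `v` -/
noncomputable def frm {R : Type} [CommSemiring R] {M : ℕ} (s : Finset (Fin M →₀ ℕ)) (v : s → R) :
    MvPolynomial (Fin M) R :=
  ∑ α : s, monomial α.1 (v α)

theorem frm_hom {R : Type} [CommSemiring R] {M n : ℕ} (s : Finset (Fin M →₀ ℕ))
    (hs : ∀ α ∈ s, α.degree = n) (v : s → R) : (frm s v).IsHomogeneous n := by
  apply IsHomogeneous.sum
  intro α _
  exact isHomogeneous_monomial _ (hs α.1 α.2)

theorem ev_frm {R : Type} [CommSemiring R] {M : ℕ} (s : Finset (Fin M →₀ ℕ)) (φ : R →+* ℂ) (v : s → R)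
    (z : Fin M → ℂ) : eval₂ φ z (frm s v) = ∑ α : s, φ (v α) * α.1.prod fun c e => z c ^ e := by
  rw [frm, eval₂_sum]
  refine Finset.sum_congr rfl fun α _ => ?_
  rw [eval₂_monomial]

theorem frm_coeff {M : ℕ} (Φ : MvPolynomial (Fin M) ℂ) : frm Φ.support (fun α => coeff α.1 Φ) = Φ := by
  conv_rhs => rw [Φ.as_sum]
  rw [frm]
  exact (Finset.sum_coe_sort Φ.support fun α => monomial α (coeff α Φ))

/-- **Descent.** -/
theorem exists_form {K : Type} [Field K] [NumberField K] (σ : K →+* ℂ) {m M : ℕ} {ι : Type}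
    (G : ι → MvPolynomial (Fin M) (𝓞 K)) (Q : MvPolynomial (Fin M) (𝓞 K))
    (Φ : MvPolynomial (Fin M) ℂ) {n : ℕ} (hn : Φ.IsHomogeneous n)
    (hX : ∃ z, (∀ j, eval₂ (emb σ) z (G j) = 0) ∧ eval z Φ ≠ 0)
    (hΦ : ∀ (a : Fin M → Fin m → ℂ) (b : Fin M → Fin m → ℤ), Crv σ G Q a b → ∀ t, t ≠ 0 →
      eval (laur a b t) Φ = 0) :
    ∃ H : MvPolynomial (Fin M) (𝓞 K), H.IsHomogeneous n ∧
      (∃ z, (∀ j, eval₂ (emb σ) z (G j) = 0) ∧ eval₂ (emb σ) z H ≠ 0) ∧
      ∀ (a : Fin M → Fin m → ℂ) (b : Fin M → Fin m → ℤ), Crv σ G Q a b → ∀ t, t ≠ 0 →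
        eval₂ (emb σ) (laur a b t) H = 0 := by
  classical
  set s := Φ.support with hs
  have hdeg : ∀ α ∈ s, α.degree = n := by
    intro α hα
    rw [Finsupp.degree_eq_weight_one]
    exact hn (mem_support_iff.mp hα)
  have hev : ∀ (v : s → ℂ) (z : Fin M → ℂ), eval z (frm s v) =
      ∑ α : s, v α * α.1.prod fun c e => z c ^ e := by
    intro v z
    exact ev_frm s (RingHom.id ℂ) v z
  let W : Submodule ℂ (s → ℂ) :=
    { carrier := {v | ∀ (a : Fin M → Fin m → ℂ) (b : Fin M → Fin m → ℤ), Crv σ G Q a b →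
        ∀ t, t ≠ 0 → eval (laur a b t) (frm s v) = 0}
      zero_mem' := by
        intro a b _ t _
        rw [hev]
        simp
      add_mem' := by
        intro v w hv hw a b h t ht
        have h1 := hv a b h t ht
        have h2 := hw a b h t ht
        rw [hev] at h1 h2 ⊢
        simp only [Pi.add_apply, add_mul, Finset.sum_add_distrib]
        rw [h1, h2, add_zero]
      smul_mem' := by
        intro c v hv a b h t ht
        have h1 := hv a b h t ht
        rw [hev] at h1 ⊢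
        simp only [Pi.smul_apply, smul_eq_mul, mul_assoc, ← Finset.mul_sum]
        rw [h1, mul_zero] }
  have hW : DefOver σ.fieldRange W := by
    apply defOver_of_aut
    intro τ hτ v hv a b h t ht
    have hτ' : ∀ x ∈ σ.fieldRange, τ.symm x = x := by
      intro x hx
      rw [RingEquiv.symm_apply_eq]
      exact (hτ x hx).symm
    have h1 := hv _ b (crv_aut τ.symm hτ' h) (τ.symm t) (by simpa using ht)
    rw [laur_aut, hev] at h1
    rw [hev]
    have h2 := congrArg τ h1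
    rw [map_zero, map_sum] at h2
    rw [← h2]
    refine Finset.sum_congr rfl fun α _ => ?_
    rw [map_mul]
    congr 1
    rw [Finsupp.prod, Finsupp.prod, map_prod]
    refine Finset.prod_congr rfl fun c _ => ?_
    rw [map_pow, RingEquiv.apply_symm_apply]
  -- the forms which vanish on `X`
  obtain ⟨v, hvW, hvF, z, hz, hzv⟩ : ∃ v : s → ℂ, v ∈ W ∧ (∀ α, v α ∈ σ.fieldRange) ∧
      ∃ z, (∀ j, eval₂ (emb σ) z (G j) = 0) ∧ eval z (frm s v) ≠ 0 := by
    by_contra hcon
    push Not at hcon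
    obtain ⟨z, hz, hz'⟩ := hX
    apply hz'
    have hmem : (fun α : s => coeff α.1 Φ) ∈ W := by
      intro a b h t ht
      rw [frm_coeff]
      exact hΦ a b h t ht
    have h1 := hW hmem
    have h2 : ∀ v ∈ Submodule.span ℂ {w | w ∈ W ∧ ∀ a, w a ∈ σ.fieldRange},
        eval z (frm s v) = 0 := by
      intro v hv
      induction hv using Submodule.span_induction with
      | mem w hw => exact hcon w hw.1 hw.2 z hz
      | zero =>
        rw [hev]
        simp
      | add x y _ _ hx hy =>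
        rw [hev] at hx hy ⊢
        simp only [Pi.add_apply, add_mul, Finset.sum_add_distrib]
        rw [hx, hy, add_zero]
      | smul c x _ hx =>
        rw [hev] at hx ⊢
        simp only [Pi.smul_apply, smul_eq_mul, mul_assoc, ← Finset.mul_sum]
        rw [hx, mul_zero]
    have h3 := h2 _ h1
    rwa [frm_coeff] at h3
  choose w hw using hvF
  obtain ⟨N, hN⟩ := IsLocalization.exist_integer_multiples (nonZeroDivisors (𝓞 K))
    (Finset.univ : Finset s) w
  have hN' : ∀ α : s, ∃ c : 𝓞 K, algebraMap (𝓞 K) K c = algebraMap (𝓞 K) K N * w α := by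
    intro α
    obtain ⟨c, hc⟩ := hN α (Finset.mem_univ _)
    exact ⟨c, by rw [hc]; rfl⟩
  choose c hc using hN'
  have hN0 : emb σ N ≠ 0 := by
    have h1 : (N : 𝓞 K) ≠ 0 := nonZeroDivisors.coe_ne_zero N
    intro h
    apply h1
    have h2 : Function.Injective (emb σ) := σ.injective.comp (FaithfulSMul.algebraMap_injective (𝓞 K) K)
    exact h2 (by rw [h, map_zero])
  have key : ∀ z : Fin M → ℂ, eval₂ (emb σ) z (frm s c) = emb σ N * eval z (frm s v) := by
    intro z
    rw [ev_frm, hev, Finset.mul_sum]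
    refine Finset.sum_congr rfl fun α _ => ?_
    rw [← mul_assoc]
    congr 1
    change σ (algebraMap (𝓞 K) K (c α)) = σ (algebraMap (𝓞 K) K N) * v α
    rw [hc, map_mul, hw]
  refine ⟨frm s c, frm_hom s hdeg c, ⟨z, hz, ?_⟩, ?_⟩
  · rw [key]
    exact mul_ne_zero hN0 hzv
  · intro a b h t ht
    rw [key, hvW a b h t ht, mul_zero]

theorem aeval_map' {K : Type} [Field K] (σ : K →+* ℂ) {M : ℕ} (z : Fin M → ℂ)
    (P : MvPolynomial (Fin M) (𝓞 K)) : aeval z (map (emb σ) P) = eval₂ (emb σ) z P := by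
  rw [aeval_eq_eval, eval_map]

theorem hom_zero {M n : ℕ} {Φ : MvPolynomial (Fin M) ℂ} (hn : Φ.IsHomogeneous n) (hn0 : n ≠ 0) :
    eval (0 : Fin M → ℂ) Φ = 0 := by
  rw [eval_eq]
  apply Finset.sum_eq_zero
  intro α hα
  have h1 : α.degree = n := by
    rw [Finsupp.degree_eq_weight_one]
    exact hn (mem_support_iff.mp hα)
  have h2 : α ≠ 0 := by
    rintro rfl
    apply hn0
    rw [← h1, map_zero]
  obtain ⟨c, hc⟩ := Finsupp.ne_iff.mp h2
  rw [Finset.prod_eq_zero (Finsupp.mem_support_iff.mpr hc), mul_zero]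
  rw [Pi.zero_apply, zero_pow hc]

/-- from the curves through a given point to all curves -/
theorem crv_of_gmQ {K : Type} [Field K] (σ : K →+* ℂ) {m M : ℕ} {ι : Type}
    {G : ι → MvPolynomial (Fin M) (𝓞 K)} {Q : MvPolynomial (Fin M) (𝓞 K)}
    {Φ : MvPolynomial (Fin M) ℂ} {n : ℕ} (hn : Φ.IsHomogeneous n)
    (hΦ : GmQ m (fun j => map (emb σ) (G j)) (map (emb σ) Q) Φ)
    {a : Fin M → Fin m → ℂ} {b : Fin M → Fin m → ℤ} (h : Crv σ G Q a b) (t : ℂ) (ht : t ≠ 0) :
    eval (laur a b t) Φ = 0 := by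
  have key : ∀ t, t ≠ 0 → laur a b t ≠ 0 → eval (laur a b t) Φ = 0 := by
    intro z hz hx
    have h1 := hΦ (fun t => laur a b (z * t)) (fun c => ?_) (by simpa using hx)
      (fun i t ht => by
        rw [eval_map]
        exact (h.1 _ (mul_ne_zero hz ht)).1 i) (fun t ht => by
        rw [eval_map]
        exact (h.1 _ (mul_ne_zero hz ht)).2) ?_
    · simpa using h1
    · refine ⟨fun j => a c j * z ^ b c j, b c, fun t ht => ?_⟩
      simp only [laur]
      refine Finset.sum_congr rfl fun j _ => ?_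
      rw [mul_zpow]
      ring
    · obtain ⟨z1, z2, c, c', hz1, hz2, hnc⟩ := h.2
      by_contra hcon
      push Not at hcon
      simp only [mul_one] at hcon
      obtain ⟨k, hk⟩ := Function.ne_iff.mp hx
      have hk' : laur a b z k ≠ 0 := hk
      have h1 : ∀ s j, s ≠ 0 → laur a b s j * laur a b z k = laur a b s k * laur a b z j := by
        intro s j hs
        have h2 := hcon (z⁻¹ * s) j k (mul_ne_zero (inv_ne_zero hz) hs)
        rw [mul_inv_cancel_left₀ hz] at h2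
        exact h2
      apply hnc
      have h3 := h1 z1 c hz1
      have h4 := h1 z1 c' hz1
      have h5 := h1 z2 c hz2
      have h6 := h1 z2 c' hz2
      apply mul_right_cancel₀ (mul_ne_zero hk' hk')
      linear_combination laur a b z2 c' * laur a b z k * h3 + laur a b z1 k * laur a b z c * h6 -
        laur a b z2 c * laur a b z k * h4 - laur a b z1 k * laur a b z c' * h5
  by_cases h0 : laur a b t = 0
  · by_cases hn0 : n = 0
    · obtain ⟨z1, z2, c, c', hz1, hz2, hnc⟩ := h.2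
      have h2 : ∃ z, z ≠ 0 ∧ laur a b z ≠ 0 := by
        by_contra hcon
        push Not at hcon
        apply hnc
        rw [hcon z1 hz1, hcon z2 hz2]
        simp
      obtain ⟨z, hz, hz'⟩ := h2
      have h3 := key z hz hz'
      rw [hn0] at hn
      have h4 : Φ = C (coeff 0 Φ) :=
        totalDegree_eq_zero_iff_eq_C.mp (Nat.le_zero.mp hn.totalDegree_le)
      rw [h4, eval_C] at h3 ⊢
      exact h3
    · rw [h0]
      exact hom_zero hn hn0
  · exact key t ht h0

/-- **Pairs of log general type.** -/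
theorem lgt {K : Type} [Field K] [NumberField K] (σ : K →+* ℂ) (m : ℕ) {N s g q w : ℕ}
    (G : Fin g → MvPolynomial (Fin (N + 1 + s)) (𝓞 K)) {e : Fin g → ℕ}
    (E : Fin q → Fin w → MvPolynomial (Fin (N + 1 + s)) ℂ) {d : Fin q → Fin w → ℕ}
    (Q : MvPolynomial (Fin (N + 1 + s)) (𝓞 K)) {δ : ℕ}
    (hG : ∀ j, (G j).IsHomogeneous (e j)) (hE : ∀ i j, (E i j).IsHomogeneous (d i j))
    (hdim : DimGE N fun j => map (emb σ) (G j))
    (hsm : SmoothPair s (fun j => map (emb σ) (G j)) E)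
    (hirr : Irred fun j => map (emb σ) (G j))
    (hlgt : LogGeneralType N (fun j => map (emb σ) (G j)) E d) (hQh : Q.IsHomogeneous δ)
    (hQ : ∀ z : Fin (N + 1 + s) → ℂ, z ≠ 0 → OnX (fun j => map (emb σ) (G j)) z →
      (aeval z (map (emb σ) Q) ≠ 0 ↔ ∀ i, ∃ j, aeval z (E i j) ≠ 0))
    (hne : ∃ z : Fin (N + 1 + s) → ℂ, z ≠ 0 ∧ OnX (fun j => map (emb σ) (G j)) z ∧
      aeval z (map (emb σ) Q) ≠ 0) :
    ∃ H : MvPolynomial (Fin (N + 1 + s)) (𝓞 K), (∃ n, H.IsHomogeneous n) ∧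
      (∃ z : Fin (N + 1 + s) → ℂ, z ≠ 0 ∧ OnX (fun j => map (emb σ) (G j)) z ∧
        aeval z (map (emb σ) Q) ≠ 0 ∧ aeval z (map (emb σ) H) ≠ 0) ∧
      ∀ (a : Fin (N + 1 + s) → Fin m → ℂ) (b : Fin (N + 1 + s) → Fin m → ℤ), Crv σ G Q a b →
        ∀ t, t ≠ 0 → eval₂ (emb σ) (laur a b t) H = 0 := by
  obtain ⟨Φ, n, B, hn, ⟨x1, hx1, hx1Φ⟩, hmain⟩ :=
    (Pool.Agent.Results.MP_70ba79_ag.SparseCurves.result (k := ℂ)
      N s g q w m _ e (fun j => (hG j).map _) E d hE hdim hsm).2 hirr hlgt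
  have hgm : GmQ m (fun j => map (emb σ) (G j)) (map (emb σ) Q) Φ :=
    gmQ_of (fun j => (hG j).map _) hE _ (hQh.map _)
      (fun z hz hzX hzQ => (hQ z hz hzX).mp hzQ) Φ B hmain
  have hcrv : ∀ (a : Fin (N + 1 + s) → Fin m → ℂ) (b : Fin (N + 1 + s) → Fin m → ℤ),
      Crv σ G Q a b → ∀ t, t ≠ 0 → eval (laur a b t) Φ = 0 :=
    fun a b h t ht => crv_of_gmQ σ hn hgm h t ht
  have hX : ∃ z, (∀ j, eval₂ (emb σ) z (G j) = 0) ∧ eval z Φ ≠ 0 := by
    refine ⟨x1, fun j => ?_, ?_⟩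
    · rw [← aeval_map']
      exact hx1 j
    · rwa [aeval_eq_eval] at hx1Φ
  obtain ⟨H, hH, ⟨z1, hz1, hz1H⟩, hHc⟩ := exists_form σ G Q Φ hn hX hcrv
  refine ⟨H, ⟨n, hH⟩, ?_, hHc⟩
  -- the form does not vanish on `X - D`
  by_contra hcon
  push Not at hcon
  obtain ⟨x0, hx0, hx0G, hx0Q⟩ := hne
  obtain ⟨j, hj⟩ := Function.ne_iff.mp hx0
  have hz1' : OnX (fun j => map (emb σ) (G j)) z1 := by
    intro j
    rw [aeval_map']
    exact hz1 j
  rcases hirr (map (emb σ) H) (map (emb σ) Q * X j) (fun z hz => by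
    by_cases hzQ : aeval z (map (emb σ) Q) = 0
    · rw [map_mul, hzQ, zero_mul, mul_zero]
    by_cases hz0 : z = 0
    · rw [map_mul, aeval_X, hz0, Pi.zero_apply, mul_zero, mul_zero]
    · rw [hcon z hz0 hz hzQ, zero_mul]) with h | h
  · have := h z1 hz1'
    rw [aeval_map'] at this
    exact hz1H this
  · have h5 := h x0 hx0G
    rw [map_mul, aeval_X] at h5
    exact mul_ne_zero hx0Q hj h5

end Pool.Agent.W2helper39.MU
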