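import Mathlib
import Pool.Agent.W2helper39.MU.Core
import Pool.Agent.W2helper42.RB.SeqE

/-!
Entire functions without zeros, modulo quotients of small entire functions.
-/

set_option autoImplicit false
set_option linter.unusedSectionVars false

namespace Pool.Agent.W2helper39.MU

open MeasureTheory Set Filter Topology Metric Real ValueDistribution Asymptotics
open Pool.Agent.N131.SR
open Pool.Agent.N754.MT (SS mem_SS Szd kF rF KF RF kE rE jR mvF units_li kE_inj rE_inj)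
open Pool.Agent.N754.FV (GC gc gc_eq gc_zero)
open Pool.Agent.H159R3.NV (ci_log ci_posLog mero_of_diff)
open Pool.Agent.W2helper42.RB

variable {L : Filter ℝ} {τ : ℝ → ℝ}

/-- the field of the quotients of small entire functions -/
noncomputable def kk (H : Cmp L τ) (hτ : ∀ r, 0 ≤ τ r) (𝒰 : Ultrafilter ℂ)
    (h𝒰 : (𝒰 : Filter ℂ) ≤ codiscrete ℂ) : Subfield (GC ℂ ℂ 𝒰) :=
  kF (DcE H hτ) (thE H 𝒰) (thE_inj H 𝒰 h𝒰)

theorem mem_SS_of (H : Cmp L τ) (hτ : ∀ r, 0 ≤ τ r) (x : ES H)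
    (hx : proximity (x : ℂ → ℂ) ⊤ =o[L] τ) : x ∈ SS (DcE H hτ) := by
  rw [mem_SS]
  refine negE_of (h := fun z => log⁺ ‖(x : ℂ → ℂ) z‖) (t := proximity (x : ℂ → ℂ) ⊤) hτ
    (Eventually.of_forall fun z => ?_) (fun r => ci_posLog (mero_of_diff (ES.diff H x)) r) hx
    (Eventually.of_forall fun r => ?_)
  · show max (Real.log ‖(x : ℂ → ℂ) z‖) 0 ≤ _
    rw [max_comm]
    exact le_refl _
  · rw [proximity_top]

theorem prox_of_mem_SS (H : Cmp L τ) (hτ : ∀ r, 0 ≤ τ r) (x : ES H)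
    (hx : x ∈ SS (DcE H hτ)) : proximity (x : ℂ → ℂ) ⊤ =o[L] τ := by
  rw [mem_SS] at hx
  rw [isLittleO_iff]
  intro c hc
  have h1 := negE_avg H.ge hx (g := fun z => log⁺ ‖(x : ℂ → ℂ) z‖)
    (Eventually.of_forall fun z => by
      show log⁺ ‖(x : ℂ → ℂ) z‖ ≤ max (Real.log ‖(x : ℂ → ℂ) z‖) 0
      rw [max_comm]
      exact le_refl _) (fun r => ci_posLog (mero_of_diff (ES.diff H x)) r) c hc
  filter_upwards [h1] with r hr
  rw [Real.norm_eq_abs, Real.norm_eq_abs, abs_of_nonneg (hτ r), abs_of_nonneg (proximity_nonneg r),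
    proximity_top]
  exact hr

theorem char_prox' {f : ℂ → ℂ} (hf : Differentiable ℂ f) :
    characteristic f ⊤ = proximity f ⊤ := funext fun r => char_prox hf r

theorem mem_kk (H : Cmp L τ) (hτ : ∀ r, 0 ≤ τ r) (𝒰 : Ultrafilter ℂ)
    (h𝒰 : (𝒰 : Filter ℂ) ≤ codiscrete ℂ) (b : GC ℂ ℂ 𝒰) : b ∈ kk H hτ 𝒰 h𝒰 ↔
      ∃ x d : ℂ → ℂ, Differentiable ℂ x ∧ Differentiable ℂ d ∧ Sm L τ x ∧ Sm L τ d ∧
        (∃ z, d z ≠ 0) ∧ b * gc 𝒰 d = gc 𝒰 x := by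
  constructor
  · rintro ⟨x, hx, d, hd, hd0, h⟩
    refine ⟨x, d, ES.diff H x, ES.diff H d, ⟨(ES.ot H x).1, ?_⟩, ⟨(ES.ot H d).1, ?_⟩, ?_, h⟩
    · rw [char_prox' (ES.diff H x)]
      exact prox_of_mem_SS H hτ x hx
    · rw [char_prox' (ES.diff H d)]
      exact prox_of_mem_SS H hτ d hd
    · by_contra hcon
      push Not at hcon
      exact hd0 (Subtype.ext (funext hcon))
  · rintro ⟨x, d, hx, hd, hxs, hds, ⟨z, hz⟩, h⟩
    refine ⟨⟨x, hx, hxs.ot⟩, mem_SS_of H hτ _ ?_, ⟨d, hd, hds.ot⟩, mem_SS_of H hτ _ ?_, ?_, h⟩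
    · rw [← char_prox' hx]
      exact hxs.2
    · rw [← char_prox' hd]
      exact hds.2
    · intro h0
      exact hz (congrFun (congrArg Subtype.val h0) z)

theorem ent_mem (H : Cmp L τ) (hτ : ∀ r, 0 ≤ τ r) (𝒰 : Ultrafilter ℂ)
    (h𝒰 : (𝒰 : Filter ℂ) ≤ codiscrete ℂ) {x : ℂ → ℂ} (hx : Differentiable ℂ x) (h : Sm L τ x) :
    gc 𝒰 x ∈ kk H hτ 𝒰 h𝒰 := by
  rw [mem_kk]
  refine ⟨x, fun _ => 1, hx, differentiable_const _, h, sm_const H 1, ⟨0, one_ne_zero⟩, ?_⟩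
  have h1 : gc 𝒰 (fun _ : ℂ => (1 : ℂ)) = 1 := map_one (gc 𝒰)
  rw [h1, mul_one]

theorem sm_of_mem (H : Cmp L τ) (hτ : ∀ r, 0 ≤ τ r) (𝒰 : Ultrafilter ℂ)
    (h𝒰 : (𝒰 : Filter ℂ) ≤ codiscrete ℂ) {f : ℂ → ℂ} (hf : Meromorphic f)
    (h : gc 𝒰 f ∈ kk H hτ 𝒰 h𝒰) : Sm L τ f := by
  rw [mem_kk] at h
  obtain ⟨x, d, hx, hd, hxs, hds, hd0, h⟩ := h
  have h1 : ∀ᶠ z in (𝒰 : Filter ℂ), f z * d z - x z = 0 := by
    rw [← map_mul, gc_eq] at h
    filter_upwards [h] with z hz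
    rw [sub_eq_zero]
    exact hz
  have hm : Meromorphic fun z => f z * d z - x z :=
    (hf.mul (mero_of_diff hd)).sub (mero_of_diff hx)
  have h2 : ∀ᶠ z in codiscrete ℂ, f z * d z - x z = 0 := by
    rcases nz_or hm with h3 | h3
    · exfalso
      obtain ⟨z, h4, h5⟩ := (h1.and (h𝒰 (h3.ne hm))).exists
      exact h5 h4
    · exact h3
  obtain ⟨z0, hz0⟩ := hd0
  have h3 : ∀ᶠ z in codiscrete ℂ, d z ≠ 0 :=
    AnalyticOnNhd.preimage_zero_mem_codiscrete (fun z _ => hd.analyticAt z) hz0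
  have h4 : ∀ᶠ z in codiscrete ℂ, f z = x z * (d z)⁻¹ := by
    filter_upwards [h2, h3] with z h5 h6
    rw [← sub_eq_zero.1 h5]
    field_simp
  refine ⟨hf, H.o_of_le (fun r hr => ⟨char_nonneg _ hr, ?_⟩) (hxs.mul H (hds.inv H)).2⟩
  exact (char_le_of_congr h4 hr).le

theorem kk_mono {τ' : ℝ → ℝ} (H : Cmp L τ) (hτ : ∀ r, 0 ≤ τ r) (H' : Cmp L τ')
    (hτ' : ∀ r, 0 ≤ τ' r) (hle : τ =O[L] τ') (𝒰 : Ultrafilter ℂ)
    (h𝒰 : (𝒰 : Filter ℂ) ≤ codiscrete ℂ) {b : GC ℂ ℂ 𝒰} (hb : b ∈ kk H hτ 𝒰 h𝒰) :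
    b ∈ kk H' hτ' 𝒰 h𝒰 := by
  rw [mem_kk] at hb ⊢
  obtain ⟨x, d, hx, hd, hxs, hds, hd0, h⟩ := hb
  exact ⟨x, d, hx, hd, ⟨hxs.1, hxs.2.trans_isBigO hle⟩, ⟨hds.1, hds.2.trans_isBigO hle⟩, hd0, h⟩

/-- entire functions without zeros -/
def ZF (u : ℂ → ℂ) : Prop := Differentiable ℂ u ∧ ∀ z, u z ≠ 0

theorem ZF.one : ZF fun _ => 1 := ⟨differentiable_const _, fun _ => one_ne_zero⟩

theorem ZF.mul {u v : ℂ → ℂ} (hu : ZF u) (hv : ZF v) : ZF fun z => u z * v z :=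
  ⟨hu.1.mul hv.1, fun z => mul_ne_zero (hu.2 z) (hv.2 z)⟩

theorem ZF.inv {u : ℂ → ℂ} (hu : ZF u) : ZF fun z => (u z)⁻¹ :=
  ⟨fun z => (hu.1 z).inv (hu.2 z), fun z => inv_ne_zero (hu.2 z)⟩

theorem ZF.mul_inv {u : ℂ → ℂ} (hu : ZF u) (𝒰 : Ultrafilter ℂ) :
    gc 𝒰 u * gc 𝒰 (fun z => (u z)⁻¹) = 1 := by
  rw [← map_mul]
  have h2 : (u * fun z => (u z)⁻¹) = 1 := by
    funext z
    exact mul_inv_cancel₀ (hu.2 z)
  rw [h2, map_one]

/-- the group of the germs of the entire functions without zeros, with a property -/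
noncomputable def GEP (𝒰 : Ultrafilter ℂ) (P : (ℂ → ℂ) → Prop) (h1 : P fun _ => 1)
    (hm : ∀ u v, P u → P v → P fun z => u z * v z) (hi : ∀ u, P u → P fun z => (u z)⁻¹) :
    Subgroup (GC ℂ ℂ 𝒰)ˣ where
  carrier := {g | ∃ u : ℂ → ℂ, ZF u ∧ P u ∧ (g : GC ℂ ℂ 𝒰) = gc 𝒰 u}
  mul_mem' := by
    rintro g g' ⟨u, hu, hP, h⟩ ⟨u', hu', hP', h'⟩
    refine ⟨fun z => u z * u' z, hu.mul hu', hm _ _ hP hP', ?_⟩
    rw [Units.val_mul, h, h', ← map_mul]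
    rfl
  one_mem' := ⟨fun _ => 1, ZF.one, h1, by
    rw [Units.val_one]
    exact (map_one (gc 𝒰)).symm⟩
  inv_mem' := by
    rintro g ⟨u, hu, hP, h⟩
    refine ⟨fun z => (u z)⁻¹, hu.inv, hi _ hP, ?_⟩
    have h1 := hu.mul_inv 𝒰
    rw [← h] at h1
    exact Units.inv_eq_of_mul_eq_one_right h1

/-- the group of the germs of the entire functions without zeros -/
noncomputable def GE (𝒰 : Ultrafilter ℂ) : Subgroup (GC ℂ ℂ 𝒰)ˣ :=
  GEP 𝒰 (fun _ => True) trivial (fun _ _ _ _ => trivial) fun _ _ => trivial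

theorem mem_GE (𝒰 : Ultrafilter ℂ) (g : (GC ℂ ℂ 𝒰)ˣ) :
    g ∈ GE 𝒰 ↔ ∃ u : ℂ → ℂ, ZF u ∧ (g : GC ℂ ℂ 𝒰) = gc 𝒰 u :=
  ⟨fun ⟨u, hu, _, h⟩ => ⟨u, hu, h⟩, fun ⟨u, hu, h⟩ => ⟨u, hu, trivial, h⟩⟩

/-- the germ of an entire function without zeros -/
noncomputable def uE (𝒰 : Ultrafilter ℂ) {u : ℂ → ℂ} (hu : ZF u) : (GC ℂ ℂ 𝒰)ˣ :=
  Units.mkOfMulEqOne _ _ (hu.mul_inv 𝒰)

theorem uE_val (𝒰 : Ultrafilter ℂ) {u : ℂ → ℂ} (hu : ZF u) :
    (uE 𝒰 hu : GC ℂ ℂ 𝒰) = gc 𝒰 u := rfl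

theorem OT.zinv (H : Cmp L τ) {u : ℂ → ℂ} (h : OT L τ u) : OT L τ fun z => (u z)⁻¹ := h.inv H

/-- the group of the germs of the entire functions without zeros of moderate growth -/
noncomputable def GT (H : Cmp L τ) (𝒰 : Ultrafilter ℂ) : Subgroup (GC ℂ ℂ 𝒰)ˣ :=
  GEP 𝒰 (OT L τ) (sm_const H 1).ot (fun _ _ h h' => h.mul H h') fun _ h => h.inv H

/-- independence at the scale of the functions -/
theorem indT (H : Cmp L τ) (hτ : ∀ r, 0 ≤ τ r) (𝒰 : Ultrafilter ℂ)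
    (h𝒰 : (𝒰 : Filter ℂ) ≤ codiscrete ℂ) : IndU (kk H hτ 𝒰 h𝒰) (GT H 𝒰) := by
  classical
  intro J _ g c hg hc hne hsum
  choose u hu hut hgu using hg
  let D := DcE H hτ
  let θ := thE H 𝒰
  have hθ := thE_inj H 𝒰 h𝒰
  let e : Fin (Fintype.card J) ≃ J := (Fintype.equivFin J).symm
  -- the units
  let x : J → ES H := fun j => ⟨u j, (hu j).1, hut j⟩
  let y : J → ES H := fun j => ⟨fun z => (u j z)⁻¹, (hu j).inv.1, (hut j).inv H⟩
  have hxy : ∀ j, x j * y j = 1 := fun j => by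
    apply Subtype.ext
    funext z
    exact mul_inv_cancel₀ ((hu j).2 z)
  let w : J → (RF D θ)ˣ := fun j => Units.mkOfMulEqOne (jR D θ (x j)) (jR D θ (y j)) (by
    rw [← map_mul, hxy, map_one])
  have hw : ∀ j, rE D θ (w j : RF D θ) = (g j : GC ℂ ℂ 𝒰) := fun j => by
    rw [hgu]
    rfl
  let c' : J → KF D θ hθ := fun j => (⟨c j, hc j⟩ : kF D θ hθ)
  have hc' : ∀ j, kE D θ hθ (c' j) = c j := fun j => rfl
  have halg : ∀ a : KF D θ hθ, rE D θ (algebraMap (KF D θ hθ) (RF D θ) a) = kE D θ hθ a := fun a => rfl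
  have h1 := units_li ((mvF D θ hθ).dm (szdE H hτ)) (Fintype.card J) (fun i => w (e i)) (by
    intro i j hij a ha
    apply hne (e i) (e j) (fun h => hij (e.injective h))
    have h2 := congrArg (rE D θ) ha
    rw [map_mul, hw, hw, halg] at h2
    rw [h2, mul_div_cancel_right₀ _ (Units.ne_zero _)]
    exact a.2) (fun i => c' (e i)) (by
    apply rE_inj D θ
    rw [map_sum, map_zero, ← hsum, ← e.sum_comp]
    refine Finset.sum_congr rfl fun i _ => ?_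
    rw [map_mul, hw, halg, hc'])
  intro j
  have h2 := congrFun h1 (e.symm j)
  simp only [Equiv.apply_symm_apply, Pi.zero_apply] at h2
  rw [← hc', h2, map_zero]

/-- the restriction to the nonzero coefficients -/
theorem indU_of {E : Type} [Field E] {k : Subfield E} {𝒢 : Subgroup Eˣ}
    (h : ∀ (n : ℕ) (J : Type) [Fintype J] (g : J → Eˣ) (c : J → E), Fintype.card J = n → 0 < n →
      (∀ j, g j ∈ 𝒢) → (∀ j, c j ∈ k) → (∀ j, c j ≠ 0) →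
      (∀ i j, i ≠ j → ((g i : E) / (g j : E)) ∉ k) → ∑ j, c j * (g j : E) = 0 → False) :
    IndU k 𝒢 := by
  classical
  intro J _ g c hg hc hne hsum
  by_contra hcon
  push Not at hcon
  obtain ⟨j₀, hj₀⟩ := hcon
  let J' : Type := {j : J // c j ≠ 0}
  have hpos : 0 < Fintype.card J' := Fintype.card_pos_iff.2 ⟨⟨j₀, hj₀⟩⟩
  refine h (Fintype.card J') J' (fun j => g j.1) (fun j => c j.1) rfl hpos (fun j => hg _)
    (fun j => hc _) (fun j => j.2) (fun i j hij => hne _ _ fun h => hij (Subtype.ext h)) ?_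
  rw [← Finset.sum_filter_add_sum_filter_not (Finset.univ : Finset J) (fun i => c i ≠ 0)] at hsum
  have h3 : ∑ i ∈ Finset.univ.filter (fun i => ¬ c i ≠ 0), c i * (g i : E) = 0 := by
    refine Finset.sum_eq_zero fun i hi => ?_
    rw [not_not.1 (Finset.mem_filter.1 hi).2, zero_mul]
  rw [h3, add_zero] at hsum
  refine Eq.trans ?_ hsum
  refine Finset.sum_bij (fun a _ => a.1) (fun a _ => ?_) (fun a _ b _ h => Subtype.ext h)
    (fun b hb => ⟨⟨b, (Finset.mem_filter.1 hb).2⟩, Finset.mem_univ _, rfl⟩) fun a _ => rfl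
  exact Finset.mem_filter.2 ⟨Finset.mem_univ _, a.2⟩

/-- **Independence.** -/
theorem indE (H : Cmp L τ) (hτ : ∀ r, 0 ≤ τ r) (𝒰 : Ultrafilter ℂ)
    (h𝒰 : (𝒰 : Filter ℂ) ≤ codiscrete ℂ) : IndU (kk H hτ 𝒰 h𝒰) (GE 𝒰) := by
  classical
  apply indU_of
  intro n
  induction n using Nat.strong_induction_on with
  | _ n ih =>
  intro J _ g c hcard hn hg hc hc0 hne hsum
  choose u hu hgu using fun j => (mem_GE 𝒰 _).1 (hg j)
  have hJ : Nonempty J := Fintype.card_pos_iff.1 (by omega)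
  obtain ⟨j₀⟩ := hJ
  let w : J → ℂ → ℂ := fun j z => u j z * (u j₀ z)⁻¹
  have hw : ∀ j, ZF (w j) := fun j => (hu j).mul (hu j₀).inv
  let N : ℝ → ℝ := fun r => τ r + ∑ j, proximity (w j) ⊤ r
  have hS0 : ∀ r, 0 ≤ ∑ j, proximity (w j) ⊤ r := fun r =>
    Finset.sum_nonneg fun j _ => proximity_nonneg r
  have hN : ∀ r, 0 ≤ N r := fun r => add_nonneg (hτ r) (hS0 r)
  have hle : τ =O[L] N := by
    apply IsBigO.of_bound 1
    filter_upwards with r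
    rw [Real.norm_eq_abs, Real.norm_eq_abs, abs_of_nonneg (hτ r), abs_of_nonneg (hN r), one_mul]
    have := hS0 r
    simp only [N]
    linarith
  have H' : Cmp L N := ⟨H.big, H.log.trans_isBigO hle⟩
  have hwT : ∀ j, OT L N (w j) := by
    intro j
    refine ⟨mero_of_diff (hw j).1, H'.O_of_le (t := N) (fun r _ => ?_) (isBigO_refl N L)⟩
    rw [char_prox (hw j).1]
    refine ⟨proximity_nonneg r, ?_⟩
    have h1 := Finset.single_le_sum (f := fun j => proximity (w j) ⊤ r)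
      (fun _ _ => proximity_nonneg r) (Finset.mem_univ j)
    have := hτ r
    simp only [N]
    linarith
  let g' : J → (GC ℂ ℂ 𝒰)ˣ := fun j => uE 𝒰 (hw j)
  have hg'v : ∀ j, (g' j : GC ℂ ℂ 𝒰) = (g j : GC ℂ ℂ 𝒰) * gc 𝒰 (fun z => (u j₀ z)⁻¹) := fun j => by
    rw [hgu, ← map_mul]
    rfl
  have hg' : ∀ j, g' j ∈ GT H' 𝒰 := fun j => ⟨w j, hw j, hwT j, rfl⟩
  have hI := indT H' hN 𝒰 h𝒰
  have hc' : ∀ j, c j ∈ kk H' hN 𝒰 h𝒰 := fun j => kk_mono H hτ H' hN hle 𝒰 h𝒰 (hc j)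
  have hsum' : ∑ j, c j * (g' j : GC ℂ ℂ 𝒰) = 0 := by
    simp only [hg'v, ← mul_assoc]
    rw [← Finset.sum_mul, hsum, zero_mul]
  have hu0 : gc 𝒰 (fun z => (u j₀ z)⁻¹) ≠ 0 := by
    intro h0
    have h1 := (hu j₀).mul_inv 𝒰
    rw [h0, mul_zero] at h1
    exact zero_ne_one h1
  have hratio : ∀ i j, (g' i : GC ℂ ℂ 𝒰) / (g' j : GC ℂ ℂ 𝒰) =
      (g i : GC ℂ ℂ 𝒰) / (g j : GC ℂ ℂ 𝒰) := by
    intro i j
    rw [hg'v, hg'v, mul_div_mul_right _ _ hu0]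
  have hg'0 : (g' j₀ : GC ℂ ℂ 𝒰) = 1 := by
    rw [hg'v, hgu]
    exact (hu j₀).mul_inv 𝒰
  let ψ : J → ℤ := fun j => if (g' j : GC ℂ ℂ 𝒰) ∈ kk H' hN 𝒰 h𝒰 then 0 else 1
  have hψ : ∀ i j, (g' i : GC ℂ ℂ 𝒰) / (g' j : GC ℂ ℂ 𝒰) ∈ kk H' hN 𝒰 h𝒰 → ψ i = ψ j := by
    intro i j h
    have h1 : (g' i : GC ℂ ℂ 𝒰) ∈ kk H' hN 𝒰 h𝒰 ↔ (g' j : GC ℂ ℂ 𝒰) ∈ kk H' hN 𝒰 h𝒰 := by
      constructor
      · intro h2
        have h3 := (kk H' hN 𝒰 h𝒰).div_mem h2 h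
        rwa [div_div_cancel₀ (Units.ne_zero _)] at h3
      · intro h2
        have h3 := (kk H' hN 𝒰 h𝒰).mul_mem h h2
        rwa [div_mul_cancel₀ _ (Units.ne_zero _)] at h3
    simp only [ψ, h1]
  have hcl := class_sums hI g' hg' c hc' hsum' ψ hψ 0
  by_cases hall : ∀ j, (g' j : GC ℂ ℂ 𝒰) ∈ kk H' hN 𝒰 h𝒰
  · -- all quotients are small
    have h1 : ∀ j, proximity (w j) ⊤ =o[L] N := by
      intro j
      have h2 := (sm_of_mem H' hN 𝒰 h𝒰 (mero_of_diff (hw j).1) (hall j)).2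
      rwa [char_prox' (hw j).1] at h2
    have h2 : (fun r => ∑ j, proximity (w j) ⊤ r) =o[L] N := by
      have h3 : (fun r => ∑ j, proximity (w j) ⊤ r) = ∑ j, proximity (w j) ⊤ := by
        funext r
        rw [Finset.sum_apply]
      rw [h3]
      exact IsLittleO.sum fun j _ => h1 j
    have h3 : N =O[L] τ := by
      apply IsBigO.of_bound 2
      filter_upwards [isLittleO_iff.1 h2 (show (0 : ℝ) < 1 / 2 by norm_num)] with r hr
      rw [Real.norm_eq_abs, Real.norm_eq_abs, abs_of_nonneg (hS0 r), abs_of_nonneg (hN r)] at hr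
      rw [Real.norm_eq_abs, Real.norm_eq_abs, abs_of_nonneg (hτ r), abs_of_nonneg (hN r)]
      have h4 : N r = τ r + ∑ j, proximity (w j) ⊤ r := rfl
      linarith
    have h4 : ∀ j, (g' j : GC ℂ ℂ 𝒰) ∈ kk H hτ 𝒰 h𝒰 := by
      intro j
      refine ent_mem H hτ 𝒰 h𝒰 (hw j).1 ⟨mero_of_diff (hw j).1, ?_⟩
      rw [char_prox' (hw j).1]
      exact (h1 j).trans_isBigO h3
    by_cases hs : ∃ j, j ≠ j₀
    · obtain ⟨j, hj⟩ := hs
      apply hne j j₀ hj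
      rw [← hratio, hg'0, div_one]
      exact h4 j
    · push Not at hs
      have h5 : ∑ j, c j * (g' j : GC ℂ ℂ 𝒰) = c j₀ * (g' j₀ : GC ℂ ℂ 𝒰) :=
        Finset.sum_eq_single j₀ (fun j _ hj => absurd (hs j) hj) fun h =>
          absurd (Finset.mem_univ _) h
      rw [hsum'] at h5
      exact mul_ne_zero (hc0 j₀) (Units.ne_zero _) h5.symm
  · push Not at hall
    obtain ⟨j₁, hj₁⟩ := hall
    let J' : Type := {j : J // ψ j = 0}
    have h0 : ψ j₀ = 0 := by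
      simp only [ψ]
      rw [if_pos]
      rw [hg'0]
      exact (kk H' hN 𝒰 h𝒰).one_mem
    have h1 : ψ j₁ ≠ 0 := by
      simp only [ψ]
      rw [if_neg hj₁]
      exact one_ne_zero
    have hlt : Fintype.card J' < n := by
      rw [← hcard]
      exact Fintype.card_subtype_lt h1
    refine ih (Fintype.card J') hlt J' (fun j => g' j.1) (fun j => c j.1) rfl
      (Fintype.card_pos_iff.2 ⟨⟨j₀, h0⟩⟩) (fun j => (mem_GE 𝒰 _).2 ⟨w j.1, hw j.1, rfl⟩)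
      (fun j => hc _) (fun j => hc0 _) (fun i j hij => by
        rw [hratio]
        exact hne _ _ fun h => hij (Subtype.ext h)) ?_
    refine Eq.trans ?_ hcl
    refine Finset.sum_bij (fun a _ => a.1) (fun a _ => ?_) (fun a _ b _ h => Subtype.ext h)
      (fun b hb => ⟨⟨b, (Finset.mem_filter.1 hb).2⟩, Finset.mem_univ _, rfl⟩) fun a _ => rfl
    exact Finset.mem_filter.2 ⟨Finset.mem_univ _, a.2⟩

theorem rootE (H : Cmp L τ) (hτ : ∀ r, 0 ≤ τ r) (𝒰 : Ultrafilter ℂ)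
    (h𝒰 : (𝒰 : Filter ℂ) ≤ codiscrete ℂ) : RootC (kk H hτ 𝒰 h𝒰) (GE 𝒰) := by
  intro g hg n hn h
  obtain ⟨u, hu, hgu⟩ := (mem_GE 𝒰 _).1 hg
  rw [hgu, ← map_pow] at h
  have hm := mero_of_diff hu.1
  have h1 := (sm_of_mem H hτ 𝒰 h𝒰 (f := u ^ n) hm.pow h).2
  rw [characteristic_pow_top hm] at h1
  rw [hgu]
  refine ent_mem H hτ 𝒰 h𝒰 hu.1 ⟨hm, ?_⟩
  have h2 : (fun r => (n : ℝ) * characteristic u ⊤ r) =o[L] τ := by
    refine h1.congr_left fun r => ?_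
    rw [Pi.smul_apply, nsmul_eq_mul]
  have h3 := h2.const_mul_left ((n : ℝ)⁻¹)
  refine h3.congr_left fun r => ?_
  have hn' : (n : ℝ) ≠ 0 := by exact_mod_cast hn.ne'
  field_simp

end Pool.Agent.W2helper39.MU
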