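import Mathlib
import Pool.Agent.W2helper39.MU.Ent

/-!
The analytic bound.
-/

set_option autoImplicit false
set_option linter.unusedSectionVars false

namespace Pool.Agent.W2helper39.MU

open MeasureTheory Set Filter Topology Metric ValueDistribution Asymptotics
open Pool.Agent.N131.SR
open Pool.Agent.N754.FV (GC gc gc_eq gc_zero)
open Pool.Agent.H159R3.NV (ci_log ci_posLog mero_of_diff)
open Pool.Agent.W2helper42.RB
open scoped NumberField

variable {K : Type} [Field K] {ι κ : Type} {r M : ℕ} (σ : K →+* ℂ) (m : ℕ)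
  (G : ι → MvPolynomial (Fin r ⊕ Fin M) (𝓞 K)) (Q : MvPolynomial (Fin r ⊕ Fin M) (𝓞 K))
  (H : κ → MvPolynomial (Fin r ⊕ Fin M) (𝓞 K))

theorem val_diff {A : Type} [CommRing A] (φ : A →+* ℂ) {s : Fin r → ℂ → ℂ} {f : ℂ → Fin M → ℂ}
    (hs : ∀ j, Differentiable ℂ (s j)) (hf : ∀ c, Differentiable ℂ fun z => f z c)
    (P : MvPolynomial (Fin r ⊕ Fin M) A) :
    Differentiable ℂ fun z => val φ (fun i => s i z) (f z) P := by
  unfold val
  induction P using MvPolynomial.induction_on with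
  | C a =>
    simp only [MvPolynomial.eval₂_C]
    exact differentiable_const _
  | add p q hp hq =>
    simp only [MvPolynomial.eval₂_add]
    exact hp.add hq
  | mul_X p i hp =>
    simp only [MvPolynomial.eval₂_mul, MvPolynomial.eval₂_X]
    refine hp.mul ?_
    rcases i with j | c
    · exact hs j
    · exact hf c

/-- **The analytic bound.** -/
theorem entire_of_gm [Finite ι] (h : GmIn σ m G Q H) : EntireBound σ m G Q H := by
  classical
  intro s a u q v f hs ha hq hu hv hf hG hQ hq0 hV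
  by_contra hcon
  push Not at hcon
  have hfc : ∀ c, Differentiable ℂ fun z => f z c := by
    intro c
    have h1 : (fun z => f z c) = fun z => ∑ i, a c i z * u c i z := funext fun z => hf z c
    rw [h1]
    exact Differentiable.fun_sum fun i _ => (ha c i).mul (hu c i).1
  let Tc : Fin M → Fin M → ℝ → ℝ := fun c c' => characteristic (fun z => f z c / f z c') ⊤
  let S1 : ℝ → ℝ := fun ρ => ∑ j, characteristic (s j) ⊤ ρ
  let S2 : ℝ → ℝ := fun ρ => ∑ c, ∑ i, characteristic (a c i) ⊤ ρ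
  let S3 : ℝ → ℝ := fun ρ => characteristic q ⊤ ρ
  let W : ℝ → ℝ := fun ρ => 1 + Real.log ρ + S1 ρ + S2 ρ + S3 ρ
  let T : ℝ → ℝ := fun ρ => ∑ c, ∑ c', Tc c c' ρ
  let τ : ℝ → ℝ := fun ρ => max (T ρ) 0
  have hτ : ∀ ρ, 0 ≤ τ ρ := fun ρ => le_max_right _ _
  have hTc0 : ∀ c c' ρ, 1 ≤ ρ → 0 ≤ Tc c c' ρ := fun c c' ρ hρ => char_nonneg _ hρ
  have hT0 : ∀ ρ, 1 ≤ ρ → 0 ≤ T ρ := fun ρ hρ =>
    Finset.sum_nonneg fun c _ => Finset.sum_nonneg fun c' _ => hTc0 c c' ρ hρ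
  have hτT : ∀ ρ, 1 ≤ ρ → τ ρ = T ρ := fun ρ hρ => max_eq_left (hT0 ρ hρ)
  have hS1 : ∀ ρ, 1 ≤ ρ → 0 ≤ S1 ρ := fun ρ hρ =>
    Finset.sum_nonneg fun j _ => char_nonneg _ hρ
  have hS2 : ∀ ρ, 1 ≤ ρ → 0 ≤ S2 ρ := fun ρ hρ =>
    Finset.sum_nonneg fun c _ => Finset.sum_nonneg fun i _ => char_nonneg _ hρ
  have hS3 : ∀ ρ, 1 ≤ ρ → 0 ≤ S3 ρ := fun ρ hρ => char_nonneg _ hρ
  have hlog : ∀ ρ : ℝ, 1 ≤ ρ → 0 ≤ Real.log ρ := fun ρ hρ => Real.log_nonneg hρ
  have hW : ∀ ρ, 1 ≤ ρ → 1 ≤ W ρ := fun ρ hρ => by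
    have h1 := hS1 ρ hρ
    have h2 := hS2 ρ hρ
    have h3 := hS3 ρ hρ
    have h4 := hlog ρ hρ
    simp only [W]
    linarith
  have hTT : ∀ c c' ρ, 1 ≤ ρ → Tc c c' ρ ≤ T ρ := by
    intro c c' ρ hρ
    have h1 : Tc c c' ρ ≤ ∑ c', Tc c c' ρ :=
      Finset.single_le_sum (f := fun c' => Tc c c' ρ) (fun c' _ => hTc0 c c' ρ hρ)
        (Finset.mem_univ c')
    have h2 : ∑ c', Tc c c' ρ ≤ T ρ :=
      Finset.single_le_sum (f := fun c => ∑ c', Tc c c' ρ)
        (fun c _ => Finset.sum_nonneg fun c' _ => hTc0 c c' ρ hρ) (Finset.mem_univ c)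
    exact h1.trans h2
  have hvol : ∀ C : ℝ, volume {ρ | 1 ≤ ρ ∧ C * W ρ < T ρ} = ⊤ := by
    intro C
    by_contra h1
    obtain ⟨ρ, h2, h3, c, c', h4⟩ := hcon C _ (lt_top_iff_ne_top.2 h1)
    exact h3 ⟨h2, h4.trans_le (hTT c c' ρ h2)⟩
  obtain ⟨L, hL, hLP⟩ := exists_big (P := fun n ρ => (n : ℝ) * max (W ρ) 0 < T ρ) (by
    intro n n' ρ hnn h1
    have e1 : (n : ℝ) ≤ n' := by exact_mod_cast hnn
    exact lt_of_le_of_lt (mul_le_mul_of_nonneg_right e1 (le_max_right _ _)) h1) fun n => by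
    have h1 : {ρ | 1 ≤ ρ ∧ (n : ℝ) * max (W ρ) 0 < T ρ} = {ρ | 1 ≤ ρ ∧ (n : ℝ) * W ρ < T ρ} := by
      ext ρ
      simp only [mem_ofPred_eq]
      constructor
      · rintro ⟨h2, h3⟩
        rw [max_eq_left (by linarith [hW ρ h2])] at h3
        exact ⟨h2, h3⟩
      · rintro ⟨h2, h3⟩
        rw [max_eq_left (by linarith [hW ρ h2])]
        exact ⟨h2, h3⟩
    rw [h1]
    exact hvol n
  have hL1 : ∀ᶠ ρ : ℝ in L, 1 ≤ ρ := hL.top (eventually_ge_atTop 1)
  have hsmall : ∀ t : ℝ → ℝ, (∀ ρ, 1 ≤ ρ → 0 ≤ t ρ ∧ t ρ ≤ W ρ) → t =o[L] τ := by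
    intro t ht
    rw [isLittleO_iff]
    intro c hc
    obtain ⟨n, hn⟩ := exists_nat_gt (1 / c)
    filter_upwards [hLP n, hL1] with ρ h1 h2
    obtain ⟨h3, h4⟩ := ht ρ h2
    rw [Real.norm_eq_abs, Real.norm_eq_abs, abs_of_nonneg h3, abs_of_nonneg (hτ ρ), hτT ρ h2]
    rw [max_eq_left (by linarith [hW ρ h2])] at h1
    have h5 : 1 / c * t ρ ≤ n * W ρ :=
      mul_le_mul hn.le h4 h3 (Nat.cast_nonneg n)
    have h6 := h5.trans h1.le
    rw [div_mul_eq_mul_div, one_mul, div_le_iff₀ hc] at h6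
    linarith
  have hcmp : Cmp L τ := ⟨hL, hsmall _ fun ρ hρ => ⟨hlog ρ hρ, by
    have h1 := hS1 ρ hρ
    have h2 := hS2 ρ hρ
    have h3 := hS3 ρ hρ
    simp only [W]
    linarith⟩⟩
  have hsms : ∀ j, Sm L τ (s j) := fun j => ⟨mero_of_diff (hs j), hsmall _ fun ρ hρ =>
    ⟨char_nonneg _ hρ, by
      have h1 : characteristic (s j) ⊤ ρ ≤ S1 ρ :=
        Finset.single_le_sum (f := fun j => characteristic (s j) ⊤ ρ)
          (fun j _ => char_nonneg _ hρ) (Finset.mem_univ j)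
      have h2 := hS2 ρ hρ
      have h3 := hS3 ρ hρ
      have h4 := hlog ρ hρ
      simp only [W]
      linarith⟩⟩
  have hsma : ∀ c i, Sm L τ (a c i) := fun c i => ⟨mero_of_diff (ha c i), hsmall _ fun ρ hρ =>
    ⟨char_nonneg _ hρ, by
      have h1 : characteristic (a c i) ⊤ ρ ≤ ∑ i, characteristic (a c i) ⊤ ρ :=
        Finset.single_le_sum (f := fun i => characteristic (a c i) ⊤ ρ)
          (fun i _ => char_nonneg _ hρ) (Finset.mem_univ i)
      have h5 : ∑ i, characteristic (a c i) ⊤ ρ ≤ S2 ρ :=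
        Finset.single_le_sum (f := fun c => ∑ i, characteristic (a c i) ⊤ ρ)
          (fun c _ => Finset.sum_nonneg fun i _ => char_nonneg _ hρ) (Finset.mem_univ c)
      have h2 := hS1 ρ hρ
      have h3 := hS3 ρ hρ
      have h4 := hlog ρ hρ
      simp only [W]
      linarith⟩⟩
  have hsmq : Sm L τ q := ⟨mero_of_diff hq, hsmall _ fun ρ hρ =>
    ⟨char_nonneg _ hρ, by
      have h2 := hS1 ρ hρ
      have h3 := hS2 ρ hρ
      have h4 := hlog ρ hρ
      simp only [W]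
      linarith⟩⟩
  -- the germs
  let 𝒰 : Ultrafilter ℂ := Ultrafilter.of (codiscrete ℂ)
  have h𝒰 : (𝒰 : Filter ℂ) ≤ codiscrete ℂ := Ultrafilter.of_le _
  have hI := indE hcmp hτ 𝒰 h𝒰
  have hR := rootE hcmp hτ 𝒰 h𝒰
  have hfe : ∀ c, (fun z => ∑ i, a c i z * u c i z) = fun z => f z c := fun c =>
    funext fun z => (hf z c).symm
  -- some ratio is not small
  have hnot : ∃ c c', gc 𝒰 (fun z => ∑ i, a c' i z * u c' i z) ≠ 0 ∧
      gc 𝒰 (fun z => ∑ i, a c i z * u c i z) / gc 𝒰 (fun z => ∑ i, a c' i z * u c' i z) ∉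
        kk hcmp hτ 𝒰 h𝒰 := by
    by_contra hcon2
    push Not at hcon2
    simp only [hfe] at hcon2
    have h1 : ∀ c c', Tc c c' =o[L] τ := by
      intro c c'
      have hm : Meromorphic fun z => f z c / f z c' :=
        (mero_of_diff (hfc c)).div (mero_of_diff (hfc c'))
      by_cases h0 : ∃ z, f z c' ≠ 0
      · obtain ⟨z0, hz0⟩ := h0
        have h2 : ∀ᶠ z in codiscrete ℂ, f z c' ≠ 0 :=
          AnalyticOnNhd.preimage_zero_mem_codiscrete (fun z _ => (hfc c').analyticAt z) hz0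
        have h3 : gc 𝒰 (fun z => f z c') ≠ 0 := by
          intro h4
          rw [gc_zero] at h4
          obtain ⟨z, h5, h6⟩ := (h4.and (h𝒰 h2)).exists
          exact h6 h5
        refine (sm_of_mem hcmp hτ 𝒰 h𝒰 hm ?_).2
        have h4 : gc 𝒰 (fun z => f z c / f z c') =
            gc 𝒰 (fun z => f z c) / gc 𝒰 (fun z => f z c') := by
          rw [eq_div_iff h3, ← map_mul, gc_eq]
          filter_upwards [h𝒰 h2] with z hz
          exact div_mul_cancel₀ _ hz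
        rw [h4]
        exact hcon2 c c' h3
      · push Not at h0
        have h2 : (fun z => f z c / f z c') = fun _ => 0 := by
          funext z
          rw [h0 z, div_zero]
        show characteristic (fun z => f z c / f z c') ⊤ =o[L] τ
        rw [h2]
        exact (sm_const hcmp 0).2
    have h2 : T =o[L] τ := by
      have h3 : T = ∑ c, ∑ c', Tc c c' := by
        funext ρ
        simp only [T, Finset.sum_apply]
      rw [h3]
      exact IsLittleO.sum fun c _ => IsLittleO.sum fun c' _ => h1 c c'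
    have hne := hL.ne
    obtain ⟨ρ, h3, h4, h5⟩ := ((isLittleO_iff.1 h2 (show (0 : ℝ) < 1 / 2 by norm_num)).and
      ((hLP 1).and hL1)).exists
    rw [Real.norm_eq_abs, Real.norm_eq_abs, abs_of_nonneg (hT0 ρ h5), abs_of_nonneg (hτ ρ),
      hτT ρ h5] at h3
    rw [max_eq_left (by linarith [hW ρ h5])] at h4
    have h6 := hW ρ h5
    push_cast at h4
    linarith
  obtain ⟨b, hb⟩ := special 𝒰 (gc 𝒰) (fun f => gc_zero 𝒰 f) hI hR (emb σ)
    (fun c => ent_mem hcmp hτ 𝒰 h𝒰 (differentiable_const _) (sm_const hcmp _)) G Q s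
    (fun j => ent_mem hcmp hτ 𝒰 h𝒰 (hs j) (hsms j)) a u
    (fun c i => ent_mem hcmp hτ 𝒰 h𝒰 (ha c i) (hsma c i))
    (fun c i => ⟨uE 𝒰 (hu c i), (mem_GE 𝒰 _).2 ⟨u c i, hu c i, rfl⟩, rfl⟩) q v
    (ent_mem hcmp hτ 𝒰 h𝒰 hq hsmq) ⟨uE 𝒰 hv, (mem_GE 𝒰 _).2 ⟨v, hv, rfl⟩, rfl⟩ (by
      obtain ⟨z0, hz0⟩ := hq0
      have h2 : ∀ᶠ z in codiscrete ℂ, q z ≠ 0 :=
        AnalyticOnNhd.preimage_zero_mem_codiscrete (fun z _ => hq.analyticAt z) hz0
      intro h4
      rw [gc_zero] at h4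
      obtain ⟨z, h5, h6⟩ := (h4.and (h𝒰 h2)).exists
      exact h6 h5)
    (fun j => Eventually.of_forall fun z => by
      rw [← hG z j]
      congr 1
      funext c
      exact (hf z c).symm) (Eventually.of_forall fun z => by
      rw [← hQ z]
      congr 1
      funext c
      exact (hf z c).symm) hnot
  obtain ⟨z0, hz0⟩ := hV
  obtain ⟨l, hl⟩ : ∃ l, val (emb σ) (fun i => s i z0) (f z0) (H l) ≠ 0 := by
    by_contra h1
    push Not at h1
    exact hz0 h1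
  have h1 : ∀ᶠ z in codiscrete ℂ, val (emb σ) (fun i => s i z) (f z) (H l) ≠ 0 :=
    AnalyticOnNhd.preimage_zero_mem_codiscrete
      (fun z _ => (val_diff (emb σ) hs hfc (H l)).analyticAt z) hl
  obtain ⟨z, hz1, hz2⟩ := (hb.and (h𝒰 h1)).exists
  obtain ⟨h2, h3⟩ := hz1.curve
  have h4 := h _ _ _ h2 h3 1 one_ne_zero l
  rw [laur_one] at h4
  apply hz2
  have h5 : f z = fun c => ∑ i, a c i z * u c i z := funext fun c => hf z c
  rw [h5]
  exact h4

end Pool.Agent.W2helper39.MU
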