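import Mathlib
import Pool.Agent.W2helper39.MU.EntM
import Pool.Agent.N254.SQ.RatP

/-!
From the analytic bound to entire curves and maps from the punctured line.
-/

set_option autoImplicit false
set_option linter.unusedSectionVars false

namespace Pool.Agent.W2helper39.MU

open MeasureTheory Set Filter Topology Metric ValueDistribution Asymptotics
open Pool.Agent.N131.SR
open Pool.Agent.H159R3.NV (mero_of_diff)
open scoped NumberField

/-- good radii -/
theorem exists_good {E : Set ℝ} (hE : volume E < ⊤) (r : ℝ) :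
    ∃ s, r ≤ s ∧ s ≤ r + (volume E).toReal + 1 ∧ s ∉ E := by
  by_contra hcon
  push Not at hcon
  have h1 : Icc r (r + (volume E).toReal + 1) ⊆ E := fun s hs => by
    by_contra h
    exact h (hcon s hs.1 hs.2)
  have h2 := measure_mono (μ := volume) h1
  rw [Real.volume_Icc] at h2
  have h3 : r + (volume E).toReal + 1 - r = (volume E).toReal + 1 := by ring
  rw [h3] at h2
  have h4 := ENNReal.toReal_mono hE.ne h2
  rw [ENNReal.toReal_ofReal (by positivity)] at h4
  linarith

theorem ne_cod {g : ℂ → ℂ} (hg : Differentiable ℂ g) (h : ∃ z, g z ≠ 0) :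
    ∀ᶠ z in codiscrete ℂ, g z ≠ 0 := by
  obtain ⟨z0, hz0⟩ := h
  exact AnalyticOnNhd.preimage_zero_mem_codiscrete (fun z _ => hg.analyticAt z) hz0

/-- entire functions which agree almost everywhere agree -/
theorem ent_eq {g h : ℂ → ℂ} (hg : Differentiable ℂ g) (hh : Differentiable ℂ h)
    (he : ∀ᶠ z in codiscrete ℂ, g z = h z) (z : ℂ) : g z = h z := by
  by_contra hz
  obtain ⟨w, h2, h3⟩ := ((ne_cod (hg.sub hh) ⟨z, sub_ne_zero.2 hz⟩).and he).exists
  exact h2 (sub_eq_zero.2 h3)

/-- quotients with logarithmic growth are rational -/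
theorem ratio_rat {g1 g2 : ℂ → ℂ} (hg1 : Differentiable ℂ g1) (hg2 : Differentiable ℂ g2)
    (hl : ∃ z, g2 z ≠ 0) {C C0 : ℝ} (hC : 0 ≤ C) {E : Set ℝ} (hE : volume E < ⊤)
    (hb : ∀ r, 1 ≤ r → r ∉ E →
      characteristic (fun z => g1 z / g2 z) ⊤ r ≤ C * Real.log r + C0) :
    ∃ A B : Polynomial ℂ, B ≠ 0 ∧ ∀ z, g1 z * B.eval z = A.eval z * g2 z := by
  classical
  by_cases hj : ∃ z, g1 z ≠ 0
  swap
  · push Not at hj
    exact ⟨0, 1, one_ne_zero, fun z => by simp [hj z]⟩
  have hjne := ne_cod hg1 hj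
  have hlne := ne_cod hg2 hl
  set Φ : ℂ → ℂ := fun z => g1 z / g2 z with hΦ
  have hΦm : Meromorphic Φ := (mero_of_diff hg1).div (mero_of_diff hg2)
  set v : ℝ := (volume E).toReal with hv
  have hv0 : 0 ≤ v := ENNReal.toReal_nonneg
  have hchar : ∀ r, 1 ≤ r → characteristic Φ ⊤ r ≤
      (C + |C * Real.log (v + 2) + C0|) * (1 + Real.log r) := by
    intro r hr
    obtain ⟨s, h1, h2, h3⟩ := exists_good hE r
    have hs1 : 1 ≤ s := hr.trans h1
    have h4 := characteristic_monotoneOn hΦm (mem_Ioi.2 (lt_of_lt_of_le one_pos hr))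
      (mem_Ioi.2 (lt_of_lt_of_le one_pos hs1)) h1
    have h6 := hb s hs1 h3
    have h7 : Real.log s ≤ Real.log r + Real.log (v + 2) := by
      rw [← Real.log_mul (by linarith) (by linarith)]
      apply Real.log_le_log (by linarith)
      nlinarith
    have h8 : C * Real.log s ≤ C * (Real.log r + Real.log (v + 2)) :=
      mul_le_mul_of_nonneg_left h7 hC
    have h9 := Real.log_nonneg hr
    have h10 := le_abs_self (C * Real.log (v + 2) + C0)
    have h11 : 0 ≤ |C * Real.log (v + 2) + C0| * Real.log r := mul_nonneg (abs_nonneg _) h9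
    have h12 : characteristic Φ ⊤ r ≤ C * Real.log s + C0 := by
      change characteristic Φ ⊤ r ≤ characteristic Φ ⊤ s at h4
      linarith
    nlinarith
  have hord0 : ∀ u : ℂ, meromorphicOrderAt Φ u ≠ ⊤ := by
    intro u
    rw [meromorphicOrderAt_ne_top_iff_eventually_ne_zero (hΦm u)]
    have h2 : ∀ᶠ z in codiscrete ℂ, Φ z ≠ 0 := by
      filter_upwards [hjne, hlne] with z h1 h2
      exact div_ne_zero h1 h2
    exact Pool.Agent.TH143.EL.codis_ev h2 u
  obtain ⟨T, D, c, hT⟩ := Pool.Agent.N254.SQ.RatP_rational hΦm hord0 hchar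
  let A : Polynomial ℂ := Polynomial.C c * ∏ u ∈ T, (Polynomial.X - Polynomial.C u) ^ (D u).toNat
  let B : Polynomial ℂ := ∏ u ∈ T, (Polynomial.X - Polynomial.C u) ^ (-D u).toNat
  have hB : B ≠ 0 := Finset.prod_ne_zero_iff.2 fun u _ =>
    pow_ne_zero _ (Polynomial.X_sub_C_ne_zero u)
  refine ⟨A, B, hB, fun z => ?_⟩
  refine ent_eq (hg1.mul B.differentiable) (A.differentiable.mul hg2) ?_ z
  have hTn : ∀ᶠ z in codiscrete ℂ, z ∉ T := by
    have h1 : ∀ u ∈ T, ∀ᶠ z in codiscrete ℂ, z ≠ u := fun u _ => by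
      have h3 : ∃ z : ℂ, z - u ≠ 0 := ⟨u + 1, by simp⟩
      have h4 : Differentiable ℂ fun z : ℂ => z - u := differentiable_id.sub_const u
      filter_upwards [ne_cod h4 h3] with z hz
      exact sub_ne_zero.1 hz
    have h2 := (Finset.eventually_all T).2 h1
    filter_upwards [h2] with z hz hzT
    exact hz z hzT rfl
  filter_upwards [hT, hTn, hlne] with z h1 h2 h3
  have h4 : g1 z = (∏ u ∈ T, (z - u) ^ D u) * c * g2 z := by
    rw [← h1, hΦ]
    field_simp
  have h5 : A.eval z = c * ∏ u ∈ T, (z - u) ^ (D u).toNat := by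
    change Polynomial.eval z (Polynomial.C c * ∏ u ∈ T, _) = _
    rw [Polynomial.eval_mul, Polynomial.eval_C, Polynomial.eval_prod]
    simp
  have h6 : B.eval z = ∏ u ∈ T, (z - u) ^ (-D u).toNat := by
    change Polynomial.eval z (∏ u ∈ T, _) = _
    rw [Polynomial.eval_prod]
    simp
  change g1 z * B.eval z = A.eval z * g2 z
  rw [h4, h5, h6]
  have h7 : (∏ u ∈ T, (z - u) ^ D u) * ∏ u ∈ T, (z - u) ^ (-D u).toNat =
      ∏ u ∈ T, (z - u) ^ (D u).toNat := by
    rw [← Finset.prod_mul_distrib]
    apply Finset.prod_congr rfl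
    intro u hu
    have h8 : z - u ≠ 0 := sub_ne_zero.2 fun h => h2 (h ▸ hu)
    rw [← zpow_natCast, ← zpow_natCast, ← zpow_add₀ h8]
    congr 1
    omega
  calc (∏ u ∈ T, (z - u) ^ D u) * c * g2 z * ∏ u ∈ T, (z - u) ^ (-D u).toNat
      = c * ((∏ u ∈ T, (z - u) ^ D u) * ∏ u ∈ T, (z - u) ^ (-D u).toNat) * g2 z := by ring
    _ = _ := by rw [h7]

/-- quotients of functions of `exp z` which are rational are constant -/
theorem wedge_exp {f1 f2 : ℂ → ℂ} (hf1 : Continuous f1) (hf2 : Continuous f2)
    {A B : Polynomial ℂ} (hB : B ≠ 0)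
    (h : ∀ z, f1 (Complex.exp z) * B.eval z = A.eval z * f2 (Complex.exp z)) (z w : ℂ) :
    f1 z * f2 w = f1 w * f2 z := by
  -- the case of exponentials
  have key : ∀ z w : ℂ, f2 (Complex.exp z) ≠ 0 →
      f1 (Complex.exp z) * f2 (Complex.exp w) = f1 (Complex.exp w) * f2 (Complex.exp z) := by
    intro z w hz
    set ρ : ℂ := f1 (Complex.exp z) / f2 (Complex.exp z) with hρ
    have hρ1 : f1 (Complex.exp z) = ρ * f2 (Complex.exp z) := by
      rw [hρ]
      field_simp
    have hAB : A = Polynomial.C ρ * B := by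
      rw [← sub_eq_zero]
      apply Polynomial.eq_zero_of_infinite_isRoot
      refine Set.infinite_of_injective_forall_mem (f := fun n : ℤ =>
        z + n * (2 * Real.pi * Complex.I)) ?_ ?_
      · intro n n' hn
        have h2 : (2 * Real.pi * Complex.I : ℂ) ≠ 0 := Complex.two_pi_I_ne_zero
        have h3 : (n : ℂ) * (2 * Real.pi * Complex.I) = n' * (2 * Real.pi * Complex.I) :=
          add_left_cancel hn
        exact_mod_cast mul_right_cancel₀ h2 h3
      · intro n
        have e : Complex.exp (z + n * (2 * Real.pi * Complex.I)) = Complex.exp z := by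
          rw [Complex.exp_eq_exp_iff_exists_int]
          exact ⟨n, rfl⟩
        have h1 := h (z + n * (2 * Real.pi * Complex.I))
        rw [e, hρ1] at h1
        change Polynomial.eval _ _ = 0
        simp only [Polynomial.eval_sub, Polynomial.eval_mul, Polynomial.eval_C]
        have h2 : (A.eval (z + n * (2 * Real.pi * Complex.I)) -
            ρ * B.eval (z + n * (2 * Real.pi * Complex.I))) * f2 (Complex.exp z) = 0 := by
          linear_combination -h1
        exact (mul_eq_zero.1 h2).resolve_right hz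
    -- outside of the zeros of `B`
    have h1 : ∀ w, B.eval w ≠ 0 → f1 (Complex.exp w) = ρ * f2 (Complex.exp w) := by
      intro w hw
      have h2 := h w
      rw [hAB, Polynomial.eval_mul, Polynomial.eval_C] at h2
      apply mul_right_cancel₀ hw
      linear_combination h2
    have h2 : (fun w => f1 (Complex.exp w)) = fun w => ρ * f2 (Complex.exp w) := by
      refine Continuous.ext_on (s := {w | B.eval w ≠ 0}) ?_
        (hf1.comp Complex.continuous_exp) (continuous_const.mul (hf2.comp Complex.continuous_exp))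
        (fun w hw => h1 w hw)
      have h3 : {w : ℂ | B.eval w ≠ 0} = {w | B.IsRoot w}ᶜ := rfl
      rw [h3]
      exact (Polynomial.finite_setOfPred_isRoot hB).countable.dense_compl ℂ
    have h3 : f1 (Complex.exp w) = ρ * f2 (Complex.exp w) := congrFun h2 w
    rw [h3, hρ1]
    ring
  have key2 : ∀ z w : ℂ, z ≠ 0 → w ≠ 0 → f1 z * f2 w = f1 w * f2 z := by
    intro z w hz hw
    have e1 := Complex.exp_log hz
    have e2 := Complex.exp_log hw
    by_cases h1 : f2 z ≠ 0
    · have h2 := key (Complex.log z) (Complex.log w) (by rwa [e1])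
      rwa [e1, e2] at h2
    · by_cases h3 : f2 w ≠ 0
      · have h2 := key (Complex.log w) (Complex.log z) (by rwa [e2])
        rw [e1, e2] at h2
        exact h2.symm
      · rw [not_not.1 h1, not_not.1 h3, mul_zero, mul_zero]
  have hd : Dense ({0}ᶜ : Set ℂ) := dense_compl_singleton 0
  have key3 : ∀ z w : ℂ, z ≠ 0 → f1 z * f2 w = f1 w * f2 z := by
    intro z w hz
    have h1 : (fun w => f1 z * f2 w) = fun w => f1 w * f2 z := by
      refine Continuous.ext_on hd (continuous_const.mul hf2) (hf1.mul continuous_const) ?_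
      intro w hw
      exact key2 z w hz hw
    exact congrFun h1 w
  have h1 : (fun z => f1 z * f2 w) = fun z => f1 w * f2 z := by
    refine Continuous.ext_on hd (hf1.mul continuous_const) (continuous_const.mul hf2) ?_
    intro z hz
    exact key3 z w hz
  exact congrFun h1 z

variable {K : Type} [Field K] {ι κ : Type} {r M : ℕ} (σ : K →+* ℂ) (m : ℕ)
  (G : ι → MvPolynomial (Fin r ⊕ Fin M) (𝓞 K)) (Q : MvPolynomial (Fin r ⊕ Fin M) (𝓞 K))
  (H : κ → MvPolynomial (Fin r ⊕ Fin M) (𝓞 K))

/-- the bound implies the condition on entire curves -/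
theorem entire_of_bound (h : EntireBound σ m G Q H) : EntireIn σ m G Q H := by
  classical
  intro s g f hg hfg hU hnc
  by_contra hcon
  push Not at hcon
  obtain ⟨z0, hV⟩ := hcon
  obtain ⟨l, hl⟩ : ∃ l, val (emb σ) s (f z0) (H l) ≠ 0 := by
    by_contra h1
    push Not at h1
    exact hV h1
  have hfc : ∀ c, Differentiable ℂ fun z => f z c := by
    intro c
    have h1 : (fun z => f z c) = fun z => ∑ i, g c i z := funext fun z => hfg z c
    rw [h1]
    exact Differentiable.fun_sum fun i _ => (hg c i).1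
  have hvd : ∀ P : MvPolynomial (Fin r ⊕ Fin M) (𝓞 K),
      Differentiable ℂ fun z => val (emb σ) s (f z) P := fun P =>
    val_diff (emb σ) (s := fun j _ => s j) (fun j => differentiable_const _) hfc P
  -- the composition with the exponential function
  let a : Fin M → Fin m → ℂ → ℂ := fun c i _ => if ∀ z, g c i z = 0 then 0 else 1
  let u : Fin M → Fin m → ℂ → ℂ := fun c i z =>
    if ∀ z, g c i z = 0 then 1 else g c i (Complex.exp z)
  obtain ⟨C, E, hE, hb⟩ := h (fun j _ => s j) a u (fun _ => 1)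
    (fun z => val (emb σ) s (f (Complex.exp z)) Q) (fun z => f (Complex.exp z))
    (fun j => differentiable_const _) (fun c i => differentiable_const _)
    (differentiable_const _) (fun c i => by
      simp only [u]
      split_ifs with h0
      · exact ⟨differentiable_const _, fun _ => one_ne_zero⟩
      · exact ⟨(hg c i).1.comp Complex.differentiable_exp, fun z =>
          ((hg c i).2.resolve_left h0) _⟩)
    ⟨(hvd Q).comp Complex.differentiable_exp, fun z => (hU _).2⟩ (fun z c => by
      rw [hfg]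
      refine Finset.sum_congr rfl fun i _ => ?_
      simp only [a, u]
      split_ifs with h0
      · rw [h0, zero_mul]
      · rw [one_mul])
    (fun z j => (hU _).1 j) (fun z => (one_mul _).symm) ⟨0, one_ne_zero⟩ (by
      have h1 := ne_cod (hvd (H l)) ⟨z0, hl⟩
      have h2 := ne_cod (g := fun z : ℂ => z) differentiable_id ⟨1, one_ne_zero⟩
      obtain ⟨w, h3, h4⟩ := (h1.and h2).exists
      refine ⟨Complex.log w, fun h5 => h3 ?_⟩
      have h6 := h5 l
      rw [Complex.exp_log h4] at h6
      exact h6)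
  obtain ⟨z, w, c, c', hne⟩ := hnc
  apply hne
  by_cases h0 : ∃ z, f z c' ≠ 0
  swap
  · push Not at h0
    rw [h0, h0, mul_zero, zero_mul]
  let A0 : ℝ := ∑ j, Real.posLog ‖s j‖ + ∑ c, ∑ i, Real.posLog ‖a c i 0‖ + Real.posLog ‖(1 : ℂ)‖
  obtain ⟨A, B, hB, hAB⟩ := ratio_rat (g1 := fun z => f (Complex.exp z) c)
    (g2 := fun z => f (Complex.exp z) c') ((hfc c).comp Complex.differentiable_exp)
    ((hfc c').comp Complex.differentiable_exp) (by
      have h1 := ne_cod (hfc c') h0
      have h2 := ne_cod (g := fun z : ℂ => z) differentiable_id ⟨1, one_ne_zero⟩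
      obtain ⟨w, h3, h4⟩ := (h1.and h2).exists
      refine ⟨Complex.log w, ?_⟩
      show f (Complex.exp (Complex.log w)) c' ≠ 0
      rw [Complex.exp_log h4]
      exact h3) (C := |C|) (C0 := |C| * (1 + A0)) (abs_nonneg C) hE (fun ρ hρ hρE => by
      have h1 := hb ρ hρ hρE c c'
      refine h1.trans ?_
      have h2 : ∀ x : ℂ, characteristic (fun _ : ℂ => x) ⊤ ρ = Real.posLog ‖x‖ := fun x =>
        char_const x ρ
      have h3 : ∀ c i, characteristic (a c i) ⊤ ρ = Real.posLog ‖a c i 0‖ := fun c i => h2 _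
      simp only [h2, h3]
      have h4 : 0 ≤ 1 + Real.log ρ + ∑ j, Real.posLog ‖s j‖ + ∑ c, ∑ i, Real.posLog ‖a c i 0‖ +
          Real.posLog ‖(1 : ℂ)‖ := by
        have h5 := Real.log_nonneg hρ
        have h6 : 0 ≤ ∑ j, Real.posLog ‖s j‖ := Finset.sum_nonneg fun j _ => Real.posLog_nonneg
        have h7 : 0 ≤ ∑ c, ∑ i, Real.posLog ‖a c i 0‖ :=
          Finset.sum_nonneg fun c _ => Finset.sum_nonneg fun i _ => Real.posLog_nonneg
        have h8 : 0 ≤ Real.posLog ‖(1 : ℂ)‖ := Real.posLog_nonneg
        linarith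
      refine (mul_le_mul_of_nonneg_right (le_abs_self C) h4).trans ?_
      simp only [A0]
      linarith)
  exact wedge_exp (f1 := fun z => f z c) (f2 := fun z => f z c') (hfc c).continuous
    (hfc c').continuous hB hAB z w |>.trans (mul_comm _ _)

/-- the condition on entire curves implies the one on maps from the punctured line -/
theorem gm_of_entire (h : EntireIn σ m G Q H) : GmIn σ m G Q H := by
  classical
  intro s a b hU hnc t ht
  have hl : ∀ z, laur a b (Complex.exp z) = fun c => ∑ i, a c i * Complex.exp (b c i * z) := by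
    intro z
    funext c
    unfold laur
    refine Finset.sum_congr rfl fun i _ => ?_
    rw [← Complex.exp_int_mul]
  have h1 := h s (fun c i z => a c i * Complex.exp (b c i * z)) (fun z => laur a b (Complex.exp z))
    (fun c i => ⟨(((differentiable_id.const_mul ((b c i : ℤ) : ℂ)).cexp).const_mul (a c i)), by
      by_cases h0 : a c i = 0
      · exact Or.inl fun z => by rw [h0, zero_mul]
      · exact Or.inr fun z => mul_ne_zero h0 (Complex.exp_ne_zero _)⟩)
    (fun z c => by rw [hl z]) (fun z => hU _ (Complex.exp_ne_zero z)) (by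
      obtain ⟨t, u, c, c', ht, hu, hne⟩ := hnc
      refine ⟨Complex.log t, Complex.log u, c, c', ?_⟩
      rw [Complex.exp_log ht, Complex.exp_log hu]
      exact hne) (Complex.log t)
  rw [Complex.exp_log ht] at h1
  exact h1

end Pool.Agent.W2helper39.MU
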