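import Mathlib
import Pool.Agent.W2helper39.MU.Core
import Pool.Agent.NH29.GN.Mue
import Pool.Agent.NH29.GN.Mov
import Pool.Agent.NH29.GN.MovS
import Pool.Agent.NH29.GN.MovD
import Pool.Agent.NH29.GN.Gal
import Pool.Agent.NH29.GN.Hn
import Pool.Agent.NH29.GN.Sml
import Pool.Agent.H39R3.Tor.SUnit

/-!
The arithmetic bound.
-/

set_option autoImplicit false
set_option linter.unusedSectionVars false

namespace Pool.Agent.W2helper39.MU

open MvPolynomial Finset Filter IsDedekindDomain Height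
open Pool.Agent.NH29.GN
open scoped NumberField

section ultra

variable {L : Type} [Field L] [NumberField L] (𝒰 : Ultrafilter ℕ) (Γ : Subgroup Lˣ) (H : ℕ → ℝ)

/-- the constant family of fields -/
abbrev EU (L : Type) [Field L] (𝒰 : Ultrafilter ℕ) : Type := UPr 𝒰 (fun _ : ℕ => L)

/-- the class of a sequence -/
noncomputable def mkU : (ℕ → L) →+* EU L 𝒰 := UPr.mk 𝒰 (fun _ : ℕ => L)

theorem mkU_zero (f : ℕ → L) : mkU 𝒰 f = 0 ↔ ∀ᶠ n in (𝒰 : Filter ℕ), f n = 0 := by
  have h := UPr.mk_eq 𝒰 (E := fun _ : ℕ => L) (f := f) (g := 0)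
  rw [map_zero] at h
  exact h

/-- the classes of sequences in `Γ` -/
noncomputable def GU : Subgroup (EU L 𝒰)ˣ where
  carrier := {g | ∃ u : ℕ → Lˣ, (∀ n, u n ∈ Γ) ∧ (g : EU L 𝒰) = mkU 𝒰 fun n => (u n : L)}
  mul_mem' := by
    rintro g g' ⟨u, hu, h⟩ ⟨u', hu', h'⟩
    refine ⟨fun n => u n * u' n, fun n => Γ.mul_mem (hu n) (hu' n), ?_⟩
    rw [Units.val_mul, h, h', ← map_mul]
    rfl
  one_mem' := ⟨fun _ => 1, fun n => Γ.one_mem, by
    rw [Units.val_one]
    exact (map_one (mkU 𝒰)).symm⟩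
  inv_mem' := by
    rintro g ⟨u, hu, h⟩
    refine ⟨fun n => (u n)⁻¹, fun n => Γ.inv_mem (hu n), ?_⟩
    have h1 : (g : EU L 𝒰) * mkU 𝒰 (fun n => (((u n)⁻¹ : Lˣ) : L)) = 1 := by
      rw [h, ← map_mul]
      have h2 : ((fun n => ((u n : Lˣ) : L)) * fun n => (((u n)⁻¹ : Lˣ) : L)) = 1 := by
        funext n
        exact Units.mul_inv _
      rw [h2, map_one]
    exact Units.inv_eq_of_mul_eq_one_right h1

variable {H}

/-- the heights -/
noncomputable def hf (hH : ∀ B : ℝ, ∀ᶠ n in (𝒰 : Filter ℕ), B ≤ H n) :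
    HFam 𝒰 (fun _ : ℕ => L) where
  h := fun _ a => logHeight₁ a
  H := H
  c := fun n => (hn L).choose n + 0
  nonneg := fun _ a => zero_le_logHeight₁ a
  zero := fun _ => by
    rw [logHeight₁_zero]
    have := (hn L).choose_spec.1 0
    linarith
  one := fun _ => by
    rw [logHeight₁_one]
    have := (hn L).choose_spec.1 0
    linarith
  neg := fun _ a => by
    have := (hn L).choose_spec.2.1 a
    linarith
  inv := fun _ a => by
    have := (hn L).choose_spec.2.2.1 a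
    linarith
  add := fun _ a b => by
    have := (hn L).choose_spec.2.2.2.1 a b
    linarith
  mul := fun _ a b => by
    have := (hn L).choose_spec.2.2.2.2.1 a b
    linarith
  root := fun n _ g a h => by
    have := (hn L).choose_spec.2.2.2.2.2.1 n g a h
    linarith
  small := fun n N => hH _

theorem exists_small (hH : ∀ B : ℝ, ∀ᶠ n in (𝒰 : Filter ℕ), B ≤ H n) :
    ∃ k : Subfield (EU L 𝒰), (∀ f : ℕ → L, mkU 𝒰 f ∈ k ↔ SmN 𝒰 H f) ∧
      ∀ y : EU L 𝒰, IsAlgebraic k y → y ∈ k := by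
  obtain ⟨k, h1, h2⟩ := sml ℕ 𝒰 (fun _ => L) (hf 𝒰 hH)
  exact ⟨k, h1, h2⟩

theorem indU (hΓ : Γ.FG) (hH : ∀ B : ℝ, ∀ᶠ n in (𝒰 : Filter ℕ), B ≤ H n) {k : Subfield (EU L 𝒰)}
    (hk : ∀ f : ℕ → L, mkU 𝒰 f ∈ k ↔ SmN 𝒰 H f) : IndU k (GU 𝒰 Γ) := by
  classical
  intro J _ g c hg hc hne hsum
  by_contra hcon
  push Not at hcon
  obtain ⟨j₀, hj₀⟩ := hcon
  choose u hu hgu using hg
  choose c' hc' using fun j => UPr.mk_surj 𝒰 (fun _ : ℕ => L) (c j)
  have hc'' : ∀ j, mkU 𝒰 (c' j) = c j := hc'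
  let J' : Type := {j : J // c j ≠ 0}
  have hJ' : Nonempty J' := ⟨⟨j₀, hj₀⟩⟩
  obtain ⟨i, j, hij, hsm⟩ := mue (mov (movs gal) movd) hn L Γ hΓ 𝒰 H hH J'
    (fun j => u j.1) (fun j => c' j.1) (fun j n => hu j.1 n) (fun j => by
      by_contra h
      apply j.2
      rw [← hc'', mkU_zero]
      rw [← Ultrafilter.eventually_not] at h
      filter_upwards [h] with n h1
      exact not_not.1 h1) (fun j => by
      rw [← hk, hc'']
      exact hc j.1) (by
      rw [← mkU_zero]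
      have h1 : (fun n => ∑ j : J', c' j.1 n * (u j.1 n : L)) =
          ∑ j : J', (c' j.1 * fun n => (u j.1 n : L)) := by
        funext n
        rw [Finset.sum_apply]
        rfl
      rw [h1, map_sum]
      have h2 : ∀ j, mkU 𝒰 (c' j * fun n => (u j n : L)) = c j * (g j : EU L 𝒰) := by
        intro j
        rw [map_mul, hc'', hgu]
      simp only [h2]
      rw [← Finset.sum_filter_add_sum_filter_not (Finset.univ : Finset J)
        (fun i => c i ≠ 0)] at hsum
      have h3 : ∑ i ∈ Finset.univ.filter (fun i => ¬ c i ≠ 0), c i * (g i : EU L 𝒰) = 0 := by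
        refine Finset.sum_eq_zero fun i hi => ?_
        rw [not_not.1 (Finset.mem_filter.1 hi).2, zero_mul]
      rw [h3, add_zero] at hsum
      refine Eq.trans ?_ hsum
      refine Finset.sum_bij (fun a _ => a.1) (fun a _ => ?_) (fun a _ b _ h => Subtype.ext h)
        (fun b hb => ⟨⟨b, (Finset.mem_filter.1 hb).2⟩, Finset.mem_univ _, rfl⟩) fun a _ => rfl
      exact Finset.mem_filter.2 ⟨Finset.mem_univ _, a.2⟩)
  apply hne i.1 j.1 (fun h => hij (Subtype.ext h))
  have h1 : (g i.1 : EU L 𝒰) / (g j.1 : EU L 𝒰) = mkU 𝒰 fun n => (u i.1 n : L) / u j.1 n := by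
    rw [div_eq_iff (Units.ne_zero _), hgu, hgu, ← map_mul]
    congr 1
    funext n
    exact (div_mul_cancel₀ _ (Units.ne_zero _)).symm
  rw [h1, hk]
  exact hsm

theorem rootC {k : Subfield (EU L 𝒰)} (hk : ∀ y : EU L 𝒰, IsAlgebraic k y → y ∈ k) :
    RootC k (GU 𝒰 Γ) := by
  intro g _ n hn h
  apply hk
  refine IsAlgebraic.of_pow hn ?_
  exact isAlgebraic_algebraMap (R := k) (⟨_, h⟩ : k)

end ultra

variable {K : Type} [Field K] [NumberField K] {ι κ : Type} {r M : ℕ} (σ : K →+* ℂ) (m : ℕ)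
  (G : ι → MvPolynomial (Fin r ⊕ Fin M) (𝓞 K)) (Q : MvPolynomial (Fin r ⊕ Fin M) (𝓞 K))
  (H : κ → MvPolynomial (Fin r ⊕ Fin M) (𝓞 K))

theorem val_comp {A F F' : Type} [CommRing A] [CommRing F] [CommRing F'] (φ : A →+* F)
    (θ : F →+* F') (s : Fin r → F) (x : Fin M → F) (P : MvPolynomial (Fin r ⊕ Fin M) A) :
    val (θ.comp φ) (fun j => θ (s j)) (fun c => θ (x c)) P = θ (val φ s x P) := by
  unfold val
  have h1 : Sum.elim (fun j => θ (s j)) (fun c => θ (x c)) = fun p => θ (Sum.elim s x p) := by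
    funext p
    rcases p with j | p
    · rfl
    · rfl
  rw [h1]
  exact (eval₂_comp_left θ φ (Sum.elim s x) P).symm

/-- extensions of the embedding -/
theorem exists_ext (L : Type) [Field L] [NumberField L] [Algebra K L] :
    ∃ θ : L →+* ℂ, θ.comp (inc K L) = emb σ := by
  let _ := σ.toAlgebra
  have hfin : FiniteDimensional K L := Module.Finite.of_restrictScalars_finite ℚ K L
  have halg : Algebra.IsAlgebraic K L := Algebra.IsAlgebraic.of_finite K L
  let θ : L →ₐ[K] ℂ := IsAlgClosed.lift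
  refine ⟨θ, RingHom.ext fun x => ?_⟩
  exact θ.commutes _

/-- a good point is in `V'` -/
theorem inV_of_good (h : GmIn σ m G Q H) {L : Type} [Field L] [NumberField L] [Algebra K L]
    {s : Fin r → L} {y : Fin M → Fin m → L} {b : Fin M → Fin m → ℤ}
    (hg : Good (inc K L) G Q s y b) : InV (inc K L) H s (fun c => ∑ i, y c i) := by
  obtain ⟨θ, hθ⟩ := exists_ext σ L
  have h1 := hg.map θ
  rw [hθ] at h1
  obtain ⟨h2, h3⟩ := h1.curve
  have h4 := h _ _ _ h2 h3 1 one_ne_zero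
  rw [laur_one] at h4
  intro j
  have h5 := h4 j
  have h6 : (fun c => ∑ i, θ (y c i)) = fun c => θ (∑ i, y c i) := by
    funext c
    rw [map_sum]
  rw [h6, ← hθ, val_comp] at h5
  exact (map_eq_zero θ).1 h5

theorem tends_hyper {H : ℕ → ℝ} (h : ∀ n : ℕ, (n : ℝ) ≤ H n) (B : ℝ) :
    ∀ᶠ n in (hyperfilter ℕ : Ultrafilter ℕ), B ≤ H n := by
  obtain ⟨N, hN⟩ := exists_nat_ge B
  have h1 : ∀ᶠ n : ℕ in atTop, N ≤ n := eventually_ge_atTop N
  have h2 : ∀ᶠ n : ℕ in (hyperfilter ℕ : Ultrafilter ℕ), N ≤ n := by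
    refine hyperfilter_le_cofinite ?_
    rw [Nat.cofinite_eq_atTop]
    exact h1
  filter_upwards [h2] with n hn
  have h3 : (N : ℝ) ≤ n := by exact_mod_cast hn
  linarith [h n]

/-- **The arithmetic bound.** -/
theorem bound_of_gm [Finite ι] (h : GmIn σ m G Q H) : IntegralBound m G Q H := by
  classical
  intro L _ _ _ S hS
  by_contra hcon
  push Not at hcon
  choose s a u q v x hu hv hx hx0 hG hQ hq0 hV hht using fun n : ℕ => hcon (n : ℝ)
  let 𝒰 : Ultrafilter ℕ := hyperfilter ℕ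
  let Ht : ℕ → ℝ := fun n => logHeight (x n)
  let W : ℕ → ℝ := fun n => 1 + ∑ j, logHeight₁ (s n j) + ∑ c, ∑ i, logHeight₁ (a n c i) +
    logHeight₁ (q n)
  have hW : ∀ n : ℕ, (n : ℝ) * W n < Ht n := hht
  have hs0 : ∀ n, 0 ≤ ∑ j, logHeight₁ (s n j) := fun n =>
    Finset.sum_nonneg fun j _ => zero_le_logHeight₁ _
  have ha0 : ∀ n, 0 ≤ ∑ c, ∑ i, logHeight₁ (a n c i) := fun n =>
    Finset.sum_nonneg fun c _ => Finset.sum_nonneg fun i _ => zero_le_logHeight₁ _
  have hq1 : ∀ n, 0 ≤ logHeight₁ (q n) := fun n => zero_le_logHeight₁ _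
  have hW1 : ∀ n, 1 ≤ W n := fun n => by
    have := hs0 n
    have := ha0 n
    have := hq1 n
    simp only [W]
    linarith
  have hn0 : ∀ n : ℕ, (n : ℝ) ≤ Ht n := fun n => by
    have h1 : (n : ℝ) * 1 ≤ n * W n := mul_le_mul_of_nonneg_left (hW1 n) (Nat.cast_nonneg n)
    linarith [hW n]
  have hH := fun B => tends_hyper hn0 B
  have hsmall : ∀ f : ℕ → L, (∀ n, logHeight₁ (f n) ≤ W n) → SmN 𝒰 Ht f := by
    intro f hf N
    have h1 : ∀ᶠ n : ℕ in (𝒰 : Filter ℕ), N ≤ n := by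
      refine hyperfilter_le_cofinite ?_
      rw [Nat.cofinite_eq_atTop]
      exact eventually_ge_atTop N
    filter_upwards [h1] with n hn
    have h2 : (N : ℝ) ≤ n := by exact_mod_cast hn
    calc (N : ℝ) * logHeight₁ (f n) ≤ n * W n :=
          mul_le_mul h2 (hf n) (zero_le_logHeight₁ _) (Nat.cast_nonneg n)
      _ ≤ Ht n := (hW n).le
  obtain ⟨k, hk1, hk2⟩ := exists_small (L := L) 𝒰 hH
  have hFG := Pool.Agent.H39R3.Tor.sunit_fg L S hS
  have hI := indU 𝒰 (S.unit L) hFG hH hk1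
  have hR := rootC 𝒰 (S.unit L) hk2
  have hgrp : ∀ f : ℕ → L, (∀ n, SUnit S (f n)) → ∃ g ∈ GU 𝒰 (S.unit L), (g : EU L 𝒰) = mkU 𝒰 f := by
    intro f hf
    choose w hw hwf using hf
    have h1 : mkU 𝒰 f * mkU 𝒰 (fun n => (((w n)⁻¹ : Lˣ) : L)) = 1 := by
      rw [← map_mul]
      have h2 : (f * fun n => (((w n)⁻¹ : Lˣ) : L)) = 1 := by
        funext n
        rw [Pi.mul_apply, ← hwf]
        exact Units.mul_inv _
      rw [h2, map_one]
    refine ⟨Units.mkOfMulEqOne _ _ h1, ⟨w, hw, ?_⟩, rfl⟩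
    show mkU 𝒰 f = _
    congr 1
    funext n
    exact (hwf n).symm
  -- the ratio which is not small
  have hnot : ∃ c c', mkU 𝒰 (fun n => ∑ i, a n c' i * u n c' i) ≠ 0 ∧
      mkU 𝒰 (fun n => ∑ i, a n c i * u n c i) / mkU 𝒰 (fun n => ∑ i, a n c' i * u n c' i) ∉ k := by
    by_contra hcon
    push Not at hcon
    have hxe : ∀ c, (fun n => ∑ i, a n c i * u n c i) = fun n => x n c := fun c =>
      funext fun n => (hx n c).symm
    simp only [hxe] at hcon
    have h1 : ∃ c₀, mkU 𝒰 (fun n => x n c₀) ≠ 0 := by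
      by_contra h2
      push Not at h2
      have h3 : ∀ c, ∀ᶠ n in (𝒰 : Filter ℕ), x n c = 0 := fun c => (mkU_zero 𝒰 _).1 (h2 c)
      obtain ⟨n, hn⟩ := (eventually_all.2 h3).exists
      exact hx0 n (funext hn)
    obtain ⟨c₀, hc₀⟩ := h1
    obtain ⟨M', rfl⟩ : ∃ M', M = M' + 1 := ⟨M - 1, by
      have := c₀.pos
      omega⟩
    have h2 : ∀ᶠ n in (𝒰 : Filter ℕ), x n c₀ ≠ 0 := by
      by_contra h3
      apply hc₀
      rw [mkU_zero]
      rw [← Ultrafilter.eventually_not] at h3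
      filter_upwards [h3] with n h4
      exact not_not.1 h4
    have h3 : ∀ c, SmN 𝒰 Ht fun n => x n c / x n c₀ := by
      intro c
      rw [← hk1]
      have h4 : mkU 𝒰 (fun n => x n c / x n c₀) =
          mkU 𝒰 (fun n => x n c) / mkU 𝒰 (fun n => x n c₀) := by
        rw [eq_div_iff hc₀, ← map_mul, ← sub_eq_zero, ← map_sub, mkU_zero]
        filter_upwards [h2] with n hn
        show x n c / x n c₀ * x n c₀ - x n c = 0
        rw [div_mul_cancel₀ _ hn, sub_self]
      rw [h4]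
      exact hcon c c₀ hc₀
    have h4 : ∀ᶠ n in (𝒰 : Filter ℕ), ∀ c,
        ((2 * (M' + 1) : ℕ) : ℝ) * logHeight₁ (x n c / x n c₀) ≤ Ht n :=
      eventually_all.2 fun c => h3 c _
    obtain ⟨n, h5, h6, h7⟩ := (h2.and (h4.and (hH 1))).exists
    have h8 : Ht n ≤ ∑ c, logHeight₁ (x n c / x n c₀) :=
      (hn L).choose_spec.2.2.2.2.2.2 M' (x n) c₀ h5
    have h9 : ((2 * (M' + 1) : ℕ) : ℝ) * ∑ c, logHeight₁ (x n c / x n c₀) ≤
        ∑ _c : Fin (M' + 1), Ht n := by
      rw [Finset.mul_sum]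
      exact Finset.sum_le_sum fun c _ => h6 c
    rw [Finset.sum_const, Finset.card_univ, Fintype.card_fin, nsmul_eq_mul] at h9
    have h10 : ((2 * (M' + 1) : ℕ) : ℝ) * Ht n ≤
        ((2 * (M' + 1) : ℕ) : ℝ) * ∑ c, logHeight₁ (x n c / x n c₀) :=
      mul_le_mul_of_nonneg_left h8 (Nat.cast_nonneg _)
    push_cast at h9 h10
    have h11 : (0 : ℝ) ≤ M' := Nat.cast_nonneg _
    nlinarith
  obtain ⟨b, hb⟩ := special 𝒰 (mkU 𝒰) (mkU_zero 𝒰) hI hR (inc K L) (fun c => by
      rw [hk1]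
      intro N
      exact hH _) G Q (fun j n => s n j) (fun j => by
      rw [hk1]
      refine hsmall _ fun n => ?_
      have h1 : logHeight₁ (s n j) ≤ ∑ j, logHeight₁ (s n j) :=
        Finset.single_le_sum (f := fun j => logHeight₁ (s n j))
          (fun j _ => zero_le_logHeight₁ _) (Finset.mem_univ j)
      have := ha0 n
      have := hq1 n
      simp only [W]
      linarith) (fun c i n => a n c i) (fun c i n => u n c i) (fun c i => by
      rw [hk1]
      refine hsmall _ fun n => ?_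
      have h1 : logHeight₁ (a n c i) ≤ ∑ i, logHeight₁ (a n c i) :=
        Finset.single_le_sum (f := fun i => logHeight₁ (a n c i))
          (fun i _ => zero_le_logHeight₁ _) (Finset.mem_univ i)
      have h2 : ∑ i, logHeight₁ (a n c i) ≤ ∑ c, ∑ i, logHeight₁ (a n c i) :=
        Finset.single_le_sum (f := fun c => ∑ i, logHeight₁ (a n c i))
          (fun c _ => Finset.sum_nonneg fun i _ => zero_le_logHeight₁ _) (Finset.mem_univ c)
      have := hs0 n
      have := hq1 n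
      simp only [W]
      linarith) (fun c i => hgrp _ fun n => hu n c i) q v (by
      rw [hk1]
      refine hsmall _ fun n => ?_
      have := hs0 n
      have := ha0 n
      simp only [W]
      linarith) (hgrp _ hv) (fun h0 => by
      obtain ⟨n, hn⟩ := ((mkU_zero 𝒰 q).1 h0).exists
      exact hq0 n hn) (fun j => Eventually.of_forall fun n => by
      rw [← hG n j]
      congr 1
      funext c
      exact (hx n c).symm) (Eventually.of_forall fun n => by
      rw [← hQ n]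
      congr 1
      funext c
      exact (hx n c).symm) hnot
  obtain ⟨n, hn⟩ := hb.exists
  apply hV n
  have h1 := inV_of_good σ m G Q H h hn
  have h2 : x n = fun c => ∑ i, a n c i * u n c i := funext fun c => hx n c
  rw [h2]
  exact h1

end Pool.Agent.W2helper39.MU
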