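import Mathlib
import Pool.Agent.W2helper39.MU.Core
import Pool.Agent.K1H83.VN.Ht1
import Pool.Agent.H952R2.Sextic.CommonZero

/-!
Finiteness of the integral points, and maps from the punctured line.
-/

set_option autoImplicit false
set_option linter.unusedSectionVars false

namespace Pool.Agent.W2helper39.MU

open MvPolynomial Finset Filter IsDedekindDomain Height
open scoped NumberField LinearAlgebra.Projectivization

section units

variable {L : Type} [Field L] [NumberField L] {S : Set (HeightOneSpectrum (𝓞 L))}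

theorem SUnit.one : SUnit S (1 : L) := ⟨1, one_mem _, Units.val_one⟩

theorem SUnit.mul {x y : L} (hx : SUnit S x) (hy : SUnit S y) : SUnit S (x * y) := by
  obtain ⟨u, hu, rfl⟩ := hx
  obtain ⟨v, hv, rfl⟩ := hy
  exact ⟨u * v, mul_mem hu hv, Units.val_mul _ _⟩

theorem SUnit.zpow {x : L} (hx : SUnit S x) (n : ℤ) : SUnit S (x ^ n) := by
  obtain ⟨u, hu, rfl⟩ := hx
  exact ⟨u ^ n, Subgroup.zpow_mem _ hu n, Units.val_zpow_eq_zpow_val _ _⟩

theorem SUnit.ne {x : L} (hx : SUnit S x) : x ≠ 0 := by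
  obtain ⟨u, hu, rfl⟩ := hx
  exact Units.ne_zero _

/-- finitely many elements are `S`-units -/
theorem exists_S {J : Type} [Finite J] (f : J → L) (hf : ∀ j, f j ≠ 0) :
    ∃ S : Set (HeightOneSpectrum (𝓞 L)), S.Finite ∧ ∀ j, SUnit S (f j) := by
  refine ⟨⋃ j, (HeightOneSpectrum.Support (𝓞 L) (f j) ∪ HeightOneSpectrum.Support (𝓞 L) (f j)⁻¹),
    Set.finite_iUnion fun j => (HeightOneSpectrum.Support.finite (𝓞 L) _).union
      (HeightOneSpectrum.Support.finite (𝓞 L) _), fun j => ⟨Units.mk0 (f j) (hf j), ?_, rfl⟩⟩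
  intro v hv
  have h1 : v ∉ HeightOneSpectrum.Support (𝓞 L) (f j) := fun h =>
    hv (Set.mem_iUnion.2 ⟨j, Or.inl h⟩)
  have h2 : v ∉ HeightOneSpectrum.Support (𝓞 L) (f j)⁻¹ := fun h =>
    hv (Set.mem_iUnion.2 ⟨j, Or.inr h⟩)
  have h3 : ¬ 1 < v.valuation L (f j) := h1
  have h4 : ¬ 1 < v.valuation L (f j)⁻¹ := h2
  rw [not_lt] at h3 h4
  show v.valuation L (f j) = 1
  refine le_antisymm h3 ?_
  rw [map_inv₀] at h4
  have h5 : v.valuation L (f j) ≠ 0 := (Valuation.ne_zero_iff _).2 (hf j)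
  rwa [inv_le_one₀ (zero_lt_iff.2 h5)] at h4

/-- **Northcott's theorem** -/
theorem northcott {M : ℕ} (B : ℝ) :
    {P : ℙ L (Fin M → L) | ∃ (x : Fin M → L) (hx : x ≠ 0), P = Projectivization.mk L x hx ∧
      logHeight x ≤ B}.Finite := by
  classical
  have hfin : {y : Fin M → L | ∀ i, logHeight₁ (y i) ≤ B}.Finite := by
    have := Set.Finite.pi' (t := fun _ : Fin M => {x : L | logHeight₁ x ≤ B})
      (fun _ => NumberField.finite_setOfPred_logHeight₁_le (K := L) B)
    exact this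
  by_cases hne : Nonempty (ℙ L (Fin M → L))
  · obtain ⟨P0⟩ := hne
    let f : (Fin M → L) → ℙ L (Fin M → L) := fun y =>
      if h : y ≠ 0 then Projectivization.mk L y h else P0
    refine (hfin.image f).subset ?_
    rintro P ⟨x, hx, rfl, hB⟩
    obtain ⟨k, hk⟩ := Function.ne_iff.mp hx
    have hk' : x k ≠ 0 := hk
    have hy : (fun i => x i / x k) ≠ 0 := by
      intro h
      have := congrFun h k
      simp [hk'] at this
    refine ⟨fun i => x i / x k, fun i => ?_, ?_⟩
    · exact (Pool.Agent.K1H83.VN.logHeight₁_div_le x i k).trans hB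
    · simp only [f]
      rw [dif_pos hy, Projectivization.mk_eq_mk_iff']
      refine ⟨(x k)⁻¹, ?_⟩
      funext i
      simp only [Pi.smul_apply, smul_eq_mul]
      rw [div_eq_inv_mul]
  · exact Set.Finite.subset Set.finite_empty (fun P _ => (hne ⟨P⟩).elim)

end units

variable {K : Type} [Field K] [NumberField K] {ι κ : Type} {r M : ℕ} (σ : K →+* ℂ) (m : ℕ)
  (G : ι → MvPolynomial (Fin r ⊕ Fin M) (𝓞 K)) (Q : MvPolynomial (Fin r ⊕ Fin M) (𝓞 K))
  (H : κ → MvPolynomial (Fin r ⊕ Fin M) (𝓞 K))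

/-- the bound implies finiteness -/
theorem finite_of_bound (h : IntegralBound m G Q H) : IntegralFinite m G Q H := by
  classical
  intro L _ _ _ S hS s
  obtain ⟨C, hC⟩ := h L S hS
  refine (northcott (L := L) (M := M) (C * (1 + ∑ j, logHeight₁ (s j)))).subset ?_
  rintro P ⟨x, hx, g, rfl, hg, hxg, hG, hQ, hV⟩
  refine ⟨x, hx, rfl, ?_⟩
  have h1 := hC s (fun c i => if g c i = 0 then 0 else 1) (fun c i => if g c i = 0 then 1 else g c i)
    1 (val (inc K L) s x Q) x (fun c i => by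
      by_cases h0 : g c i = 0
      · rw [if_pos h0]
        exact SUnit.one
      · rw [if_neg h0]
        exact (hg c i).resolve_left h0) hQ (fun c => by
      rw [hxg]
      refine Finset.sum_congr rfl fun i _ => ?_
      by_cases h0 : g c i = 0
      · rw [if_pos h0, if_pos h0, h0, zero_mul]
      · rw [if_neg h0, if_neg h0, one_mul]) hx hG (one_mul _).symm one_ne_zero hV
  have h2 : ∀ c i, logHeight₁ (if g c i = 0 then (0 : L) else 1) = 0 := by
    intro c i
    split_ifs
    · exact logHeight₁_zero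
    · exact logHeight₁_one
  simp only [h2, Finset.sum_const_zero, add_zero, logHeight₁_one] at h1
  exact h1

/-- a good curve, not in `V'`, has infinitely many points with coordinates in a suitable group -/
theorem infinite_group {F A : Type} [Field F] [CharZero F] [CommRing A] (φ : A →+* F) {ι κ : Type}
    (G : ι → MvPolynomial (Fin r ⊕ Fin M) A) (Q : MvPolynomial (Fin r ⊕ Fin M) A)
    (H : κ → MvPolynomial (Fin r ⊕ Fin M) A) (Γ : Subgroup Fˣ) {s : Fin r → F}
    {y : Fin M → Fin m → F} {b : Fin M → Fin m → ℤ} (hg : Good φ G Q s y b) {l : κ} {e₀ e₁ : ℤ}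
    (hq0 : eval₂ φ (pt s y) (cmp (wv r b) e₀ (sub m Q)) ≠ 0)
    (hq1 : ∀ e, e ≠ e₀ → eval₂ φ (pt s y) (cmp (wv r b) e (sub m Q)) = 0)
    (hl : eval₂ φ (pt s y) (cmp (wv r b) e₁ (sub m (H l))) ≠ 0)
    (h2 : ∃ w ∈ Γ, (w : F) = 2)
    (hq : ∃ w ∈ Γ, (w : F) = eval₂ φ (pt s y) (cmp (wv r b) e₀ (sub m Q)))
    (hy : ∀ c i, y c i ≠ 0 → ∃ w ∈ Γ, (w : F) = y c i)
    (hfin : {P : ℙ F (Fin M → F) | ∃ (x : Fin M → F) (hx : x ≠ 0) (g : Fin M → Fin m → F),
        P = Projectivization.mk F x hx ∧ (∀ c i, g c i = 0 ∨ ∃ w ∈ Γ, (w : F) = g c i) ∧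
        (∀ c, x c = ∑ i, g c i) ∧ (∀ j, val φ s x (G j) = 0) ∧
        (∃ w ∈ Γ, (w : F) = val φ s x Q) ∧ ¬ InV φ H s x}.Finite) : False := by
  classical
  have hmul : ∀ x y : F, (∃ w ∈ Γ, (w : F) = x) → (∃ w ∈ Γ, (w : F) = y) →
      ∃ w ∈ Γ, (w : F) = x * y := by
    rintro _ _ ⟨u, hu, rfl⟩ ⟨v, hv, rfl⟩
    exact ⟨u * v, mul_mem hu hv, Units.val_mul _ _⟩
  have hzpow : ∀ (x : F) (n : ℤ), (∃ w ∈ Γ, (w : F) = x) → ∃ w ∈ Γ, (w : F) = x ^ n := by
    rintro _ n ⟨u, hu, rfl⟩
    exact ⟨u ^ n, Subgroup.zpow_mem _ hu n, Units.val_zpow_eq_zpow_val _ _⟩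
  obtain ⟨hcv, -⟩ := hg.curve
  obtain ⟨c, c', e, e', hnc⟩ := hg.nc
  -- the values `t`
  let T : Set F := Set.range fun n : ℕ => (2 : F) ^ n
  have hT : T.Infinite := by
    refine Set.infinite_range_of_injective ?_
    intro n n' hn
    have h3 : ((2 ^ n : ℕ) : F) = ((2 ^ n' : ℕ) : F) := by
      push_cast
      exact hn
    exact Nat.pow_right_injective le_rfl (Nat.cast_injective h3)
  have hT0 : ∀ t ∈ T, t ≠ 0 := by
    rintro _ ⟨n, rfl⟩
    exact pow_ne_zero _ two_ne_zero
  have hTS : ∀ t ∈ T, ∃ w ∈ Γ, (w : F) = t := by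
    rintro _ ⟨n, rfl⟩
    have := hzpow 2 n h2
    rwa [zpow_natCast] at this
  have hH : {t : F | t ≠ 0 ∧ val φ s (laur y b t) (H l) = 0}.Finite := by
    by_contra hcon
    have he₁ : e₁ ∈ (sub m (H l)).support.image (wt (wv r b)) := by
      by_contra hcon
      rw [cmp_eq_zero _ _ hcon, eval₂_zero] at hl
      exact hl rfl
    refine hl (coeff_zero _ (fun e => eval₂ φ (pt s y) (cmp (wv r b) e (sub m (H l)))) ?_
      e₁ he₁)
    refine Set.Infinite.mono ?_ hcon
    rintro t ⟨ht, h3⟩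
    refine ⟨ht, ?_⟩
    rw [← h3, val_expand _ (H l) s y b ht]
    exact Finset.sum_congr rfl fun e _ => mul_comm _ _
  have hex : ∃ c₀ e₂, cf y b c₀ e₂ ≠ 0 := by
    by_contra hcon
    push Not at hcon
    apply hnc
    rw [hcon c e, hcon c' e, zero_mul, zero_mul]
  obtain ⟨c₀, e₂, hc₀⟩ := hex
  have hZ : {t : F | t ≠ 0 ∧ laur y b t = 0}.Finite := by
    by_contra hcon
    have he₂ : e₂ ∈ exps b := by
      by_contra h1
      exact hc₀ (cf_eq_zero h1)
    refine hc₀ (coeff_zero (exps b) (fun e => cf y b c₀ e) ?_ e₂ he₂)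
    refine Set.Infinite.mono ?_ hcon
    rintro t ⟨ht, h3⟩
    refine ⟨ht, ?_⟩
    rw [← laur_cf y b c₀ t _ (mem_exps b c₀), h3]
    rfl
  let B : Set F := T \ ({t : F | t ≠ 0 ∧ val φ s (laur y b t) (H l) = 0} ∪
    {t : F | t ≠ 0 ∧ laur y b t = 0})
  have hB : B.Infinite := hT.sdiff (hH.union hZ)
  have hB1 : ∀ t ∈ B, t ≠ 0 := fun t ht => hT0 t ht.1
  have hB2 : ∀ t ∈ B, laur y b t ≠ 0 := fun t ht h0 => ht.2 (Or.inr ⟨hB1 t ht, h0⟩)
  have hB3 : ∀ t ∈ B, val φ s (laur y b t) (H l) ≠ 0 := fun t ht h0 =>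
    ht.2 (Or.inl ⟨hB1 t ht, h0⟩)
  -- the points
  let f : B → ℙ F (Fin M → F) := fun t => Projectivization.mk F (laur y b t.1) (hB2 t.1 t.2)
  have hBinf : Infinite B := hB.to_subtype
  have hfr : (Set.range f).Finite := by
    refine hfin.subset ?_
    rintro _ ⟨t, rfl⟩
    have ht0 := hB1 t.1 t.2
    refine ⟨laur y b t.1, hB2 t.1 t.2, fun c i => y c i * t.1 ^ b c i, rfl, fun c i => ?_,
      fun c => rfl, fun j => (hcv t.1 ht0).1 j, ?_, fun h0 => hB3 t.1 t.2 (h0 l)⟩
    · by_cases h0 : y c i = 0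
      · exact Or.inl (by
          show y c i * t.1 ^ b c i = 0
          rw [h0, zero_mul])
      · exact Or.inr (hmul _ _ (hy c i h0) (hzpow _ _ (hTS t.1 t.2.1)))
    · have he : e₀ ∈ (sub m Q).support.image (wt (wv r b)) := by
        by_contra hcon
        rw [cmp_eq_zero _ _ hcon, eval₂_zero] at hq0
        exact hq0 rfl
      rw [val_expand _ Q s y b ht0, Finset.sum_eq_single e₀]
      · exact hmul _ _ (hzpow _ _ (hTS t.1 t.2.1)) hq
      · intro e _ hne
        rw [hq1 e hne, mul_zero]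
      · intro h2
        exact absurd he h2
  have hfr' : Finite (Set.range f) := hfr.to_subtype
  obtain ⟨P, hP⟩ := Finite.exists_infinite_fiber (Set.rangeFactorization f)
  let B' : Set F := {t | ∃ ht : t ∈ B, Set.rangeFactorization f ⟨t, ht⟩ = P}
  have hB' : B'.Infinite := by
    have h3 : (Subtype.val '' (Set.rangeFactorization f ⁻¹' {P})).Infinite :=
      (Set.infinite_coe_iff.1 hP).image Subtype.val_injective.injOn
    refine h3.mono ?_
    rintro _ ⟨t, ht, rfl⟩
    exact ⟨t.2, ht⟩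
  have hwedge : ∀ t ∈ B', ∀ u ∈ B', ∀ c c',
      laur y b t c * laur y b u c' - laur y b t c' * laur y b u c = 0 := by
    rintro t ⟨ht, h3⟩ u ⟨hu, h4⟩ c c'
    have h5 : f ⟨t, ht⟩ = f ⟨u, hu⟩ := by
      have h6 := h3.trans h4.symm
      exact congrArg Subtype.val h6
    simp only [f] at h5
    rw [Projectivization.mk_eq_mk_iff'] at h5
    obtain ⟨α, hα⟩ := h5
    rw [← hα]
    simp only [Pi.smul_apply, smul_eq_mul]
    ring
  have he : e ∈ exps b := by
    by_contra h1
    rw [cf_eq_zero h1, cf_eq_zero h1, zero_mul, zero_mul] at hnc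
    exact hnc rfl
  have he' : e' ∈ exps b := by
    by_contra h1
    rw [cf_eq_zero h1, cf_eq_zero h1, mul_zero, mul_zero] at hnc
    exact hnc rfl
  have h3 : ∀ u ∈ B', ∑ e' ∈ exps b,
      (cf y b c e * cf y b c' e' - cf y b c' e * cf y b c e') * u ^ e' = 0 := by
    intro u hu
    refine coeff_zero (exps b) (fun e => ∑ e' ∈ exps b,
      (cf y b c e * cf y b c' e' - cf y b c' e * cf y b c e') * u ^ e') ?_ e he
    refine hB'.mono fun t ht => ⟨hB1 t ht.1, ?_⟩
    rw [← wedge_expand]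
    exact hwedge t ht u hu c c'
  have h4 := coeff_zero (exps b)
    (fun e' => cf y b c e * cf y b c' e' - cf y b c' e * cf y b c e') (by
      refine hB'.mono fun u hu => ⟨hB1 u hu.1, h3 u hu⟩) e' he'
  exact hnc (sub_eq_zero.1 h4)

/-- a good curve over a number field, not in `V'`, has infinitely many integral points -/
theorem infinite_points {L : Type} [Field L] [NumberField L] [Algebra K L] {s : Fin r → L}
    {y : Fin M → Fin m → L} {b : Fin M → Fin m → ℤ} (hg : Good (inc K L) G Q s y b) {l : κ} {e₁ : ℤ}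
    (hl : eval₂ (inc K L) (pt s y) (cmp (wv r b) e₁ (sub m (H l))) ≠ 0)
    (h : IntegralFinite m G Q H) : False := by
  classical
  obtain ⟨e₀, hq0, hq1⟩ := hg.bd
  -- the places
  obtain ⟨S, hS, hSu⟩ := exists_S (L := L) (J := Option (Option (Fin M × Fin m))) (fun j => match j with
    | none => 2
    | some none => eval₂ (inc K L) (pt s y) (cmp (wv r b) e₀ (sub m Q))
    | some (some p) => if y p.1 p.2 = 0 then 1 else y p.1 p.2) (by
      rintro (_ | _ | p)
      · exact two_ne_zero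
      · exact hq0
      · simp only
        split_ifs with h0
        · exact one_ne_zero
        · exact h0)
  exact infinite_group m (inc K L) G Q H (S.unit L) hg hq0 hq1 hl (hSu none) (hSu (some none))
    (fun c i h0 => by
      have := hSu (some (some (c, i)))
      simp only [if_neg h0] at this
      exact this) (h L S hS s)

/-- finiteness for groups implies the condition on maps from the punctured line -/
theorem gm_of_group (h : GroupFinite σ m G Q H) : GmIn σ m G Q H := by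
  classical
  intro s y b hU hnc
  by_contra hcon
  push Not at hcon
  obtain ⟨t₀, ht₀, hV⟩ := hcon
  obtain ⟨l, hl⟩ : ∃ l, val (emb σ) s (laur y b t₀) (H l) ≠ 0 := by
    by_contra h1
    push Not at h1
    exact hV h1
  have hg := Good.of_curve hU hnc
  obtain ⟨e₁, he₁⟩ : ∃ e₁, eval₂ (emb σ) (pt s y) (cmp (wv r b) e₁ (sub m (H l))) ≠ 0 := by
    by_contra h1
    push Not at h1
    apply hl
    rw [val_expand _ (H l) s y b ht₀]
    exact Finset.sum_eq_zero fun e _ => by rw [h1, mul_zero]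
  obtain ⟨e₀, hq0, hq1⟩ := hg.bd
  let w : Option (Option (Fin M × Fin m)) → ℂˣ := fun j => match j with
    | none => Units.mk0 2 two_ne_zero
    | some none => Units.mk0 _ hq0
    | some (some p) => if h0 : y p.1 p.2 = 0 then 1 else Units.mk0 _ h0
  let Γ : Subgroup ℂˣ := Subgroup.closure (Set.range w)
  have hΓ : Γ.FG := (Subgroup.fg_iff _).2 ⟨Set.range w, rfl, Set.finite_range w⟩
  have hw : ∀ j, w j ∈ Γ := fun j => Subgroup.subset_closure ⟨j, rfl⟩
  exact infinite_group m (emb σ) G Q H Γ hg hq0 hq1 he₁ ⟨w none, hw none, rfl⟩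
    ⟨w (some none), hw (some none), rfl⟩ (fun c i h0 => ⟨w (some (some (c, i))), hw (some (some (c, i))), by
      simp only [w]
      rw [dif_neg h0]
      rfl⟩) (h Γ hΓ s)

/-- the coefficients of the curve, as polynomials -/
noncomputable def cfP (b : Fin M → Fin m → ℤ) (c : Fin M) (e : ℤ) : MvPolynomial (Vr r M m) K :=
  ∑ i ∈ univ.filter (fun i => b c i = e), X (Sum.inr (c, i))

theorem aeval_cfP {F : Type} [Field F] [Algebra K F] (b : Fin M → Fin m → ℤ) (c : Fin M) (e : ℤ)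
    (s : Fin r → F) (y : Fin M → Fin m → F) :
    aeval (pt s y) (cfP (K := K) m b c e) = cf y b c e := by
  unfold cfP cf
  rw [map_sum]
  refine Finset.sum_congr rfl fun i _ => ?_
  rw [aeval_X]
  rfl

/-- **Finiteness implies the condition on maps from the punctured line.** -/
theorem gm_of_finite (h : IntegralFinite m G Q H) : GmIn σ m G Q H := by
  classical
  intro s y b hU hnc
  by_contra hcon
  push Not at hcon
  obtain ⟨t₀, ht₀, hV⟩ := hcon
  obtain ⟨l, hl⟩ : ∃ l, val (emb σ) s (laur y b t₀) (H l) ≠ 0 := by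
    by_contra h1
    push Not at h1
    exact hV h1
  have hg := Good.of_curve hU hnc
  obtain ⟨e₁, he₁⟩ : ∃ e₁, eval₂ (emb σ) (pt s y) (cmp (wv r b) e₁ (sub m (H l))) ≠ 0 := by
    by_contra h1
    push Not at h1
    apply hl
    rw [val_expand _ (H l) s y b ht₀]
    exact Finset.sum_eq_zero fun e _ => by rw [h1, mul_zero]
  obtain ⟨e₀, hq0, hq1⟩ := hg.bd
  obtain ⟨c, c', e, e', hne⟩ := hg.nc
  let _ := σ.toAlgebra
  have hmap : ∀ (F : Type) [Field F] [Algebra K F] (z : Vr r M m → F)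
      (p : MvPolynomial (Vr r M m) (𝓞 K)), aeval z (map (algebraMap (𝓞 K) K) p)
        = eval₂ ((algebraMap K F).comp (algebraMap (𝓞 K) K)) z p := by
    intro F _ _ z p
    rw [aeval_def, eval₂_map]
  have hmapC : ∀ (z : Vr r M m → ℂ) (p : MvPolynomial (Vr r M m) (𝓞 K)),
      aeval z (map (algebraMap (𝓞 K) K) p) = eval₂ (emb σ) z p := fun z p => hmap ℂ z p
  let W : MvPolynomial (Vr r M m) K :=
    map (algebraMap (𝓞 K) K) (cmp (wv r b) e₀ (sub m Q)) *
      map (algebraMap (𝓞 K) K) (cmp (wv r b) e₁ (sub m (H l))) *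
      (cfP m b c e * cfP m b c' e' - cfP m b c' e * cfP m b c e')
  obtain ⟨z, hz, hzW⟩ := H952R2.Sextic.transfer (k := K) (kb := AlgebraicClosure K)
    (Sum.elim (fun x : ι × ℤ => map (algebraMap (𝓞 K) K) (cmp (wv r b) x.2 (sub m (G x.1))))
      (fun x : {e : ℤ // e ≠ e₀} => map (algebraMap (𝓞 K) K) (cmp (wv r b) x.1 (sub m Q)))) W
    ⟨pt s y, by
      rintro (x | x)
      · rw [Sum.elim_inl, hmapC]
        exact hg.eqs _ _
      · rw [Sum.elim_inr, hmapC]
        exact hq1 _ x.2, by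
      simp only [W]
      rw [map_mul, map_mul, map_sub, map_mul, map_mul, hmapC, hmapC, aeval_cfP, aeval_cfP,
        aeval_cfP, aeval_cfP]
      exact mul_ne_zero (mul_ne_zero hq0 he₁) (sub_ne_zero.2 hne)⟩
  let L := IntermediateField.adjoin K (Set.range z)
  have hfinL : FiniteDimensional K L := by
    apply IntermediateField.finiteDimensional_adjoin
    intro x _
    exact Algebra.IsIntegral.isIntegral x
  have hNF : NumberField L := NumberField.of_module_finite K L
  let zL : Vr r M m → L := fun j => ⟨z j, IntermediateField.subset_adjoin K _ ⟨j, rfl⟩⟩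
  let s' : Fin r → L := fun j => zL (Sum.inl j)
  let y' : Fin M → Fin m → L := fun c i => zL (Sum.inr (c, i))
  have hpt : zL = pt s' y' := by
    funext p
    rcases p with j | p
    · rfl
    · rfl
  have haev : ∀ p : MvPolynomial (Vr r M m) K,
      aeval z p = algebraMap L (AlgebraicClosure K) (aeval (pt s' y') p) := by
    intro p
    rw [← hpt, ← aeval_algebraMap_apply]
    rfl
  have hinc : ∀ p : MvPolynomial (Vr r M m) (𝓞 K),
      aeval (pt s' y') (map (algebraMap (𝓞 K) K) p) = eval₂ (inc K L) (pt s' y') p := fun p =>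
    hmap L _ p
  rw [haev] at hzW
  have hzW' : aeval (pt s' y') W ≠ 0 := fun h0 => hzW (by rw [h0, map_zero])
  simp only [W] at hzW'
  rw [map_mul, map_mul, map_sub, map_mul, map_mul, hinc, hinc, aeval_cfP, aeval_cfP,
    aeval_cfP, aeval_cfP] at hzW'
  have g3 := right_ne_zero_of_mul hzW'
  have g12 := left_ne_zero_of_mul hzW'
  have g1 := left_ne_zero_of_mul g12
  have g2 := right_ne_zero_of_mul g12
  have hz0 : ∀ p : MvPolynomial (Vr r M m) (𝓞 K), aeval z (map (algebraMap (𝓞 K) K) p) = 0 →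
      eval₂ (inc K L) (pt s' y') p = 0 := by
    intro p hp
    rw [haev, hinc] at hp
    exact (map_eq_zero _).1 hp
  refine infinite_points m G Q H (L := L) (s := s') (y := y') (b := b) ⟨fun j e => ?_,
    ⟨e₀, g1, fun e he => ?_⟩, c, c', e, e', sub_ne_zero.1 g3⟩ g2 h
  · exact hz0 _ (hz (Sum.inl (j, e)))
  · exact hz0 _ (hz (Sum.inr ⟨e, he⟩))

end Pool.Agent.W2helper39.MU
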