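import Mathlib
import Pool.Agent.W2helper39.MU.Core
import Pool.Agent.N754.FG.Unit
import Pool.Agent.N49.FG.RQ1
import Pool.Agent.N455.FG.RQ3
import Pool.Agent.N558.FG.SP

/-!
Points with coordinates in a finitely generated group.
-/

set_option autoImplicit false
set_option linter.unusedSectionVars false

namespace Pool.Agent.W2helper39.MU

open Filter Pool.Agent.N754.FG
open scoped NumberField LinearAlgebra.Projectivization

section germs

variable (𝒰 : Ultrafilter ℕ)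

/-- the constants -/
noncomputable def kC : Subfield (BC 𝒰) := (algebraMap ℂ (BC 𝒰)).fieldRange

theorem mem_kC (f : ℕ → ℂ) : gC 𝒰 f ∈ kC 𝒰 ↔ ∃ c, ∀ᶠ n in (𝒰 : Filter ℕ), f n = c := by
  constructor
  · rintro ⟨c, hc⟩
    refine ⟨c, ?_⟩
    rw [gC_const, gC_eq] at hc
    filter_upwards [hc] with n hn
    exact hn.symm
  · rintro ⟨c, hc⟩
    refine ⟨c, ?_⟩
    rw [gC_const, gC_eq]
    filter_upwards [hc] with n hn
    exact hn.symm

variable (Γ : Subgroup ℂˣ)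

/-- the germs of the sequences in `Γ` -/
noncomputable def GG : Subgroup (BC 𝒰)ˣ where
  carrier := {g | ∃ u : ℕ → ℂˣ, (∀ n, u n ∈ Γ) ∧ (g : BC 𝒰) = gC 𝒰 fun n => (u n : ℂ)}
  mul_mem' := by
    rintro g g' ⟨u, hu, h⟩ ⟨u', hu', h'⟩
    refine ⟨fun n => u n * u' n, fun n => Γ.mul_mem (hu n) (hu' n), ?_⟩
    rw [Units.val_mul, h, h', ← map_mul]
    rfl
  one_mem' := ⟨fun _ => 1, fun n => Γ.one_mem, by
    rw [Units.val_one]
    exact (map_one (gC 𝒰)).symm⟩
  inv_mem' := by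
    rintro g ⟨u, hu, h⟩
    refine ⟨fun n => (u n)⁻¹, fun n => Γ.inv_mem (hu n), ?_⟩
    have h1 : (g : BC 𝒰) * gC 𝒰 (fun n => (((u n)⁻¹ : ℂˣ) : ℂ)) = 1 := by
      rw [h, ← map_mul]
      have h2 : ((fun n => ((u n : ℂˣ) : ℂ)) * fun n => (((u n)⁻¹ : ℂˣ) : ℂ)) = 1 := by
        funext n
        exact Units.mul_inv _
      rw [h2, map_one]
    exact Units.inv_eq_of_mul_eq_one_right h1

theorem exists_ring (hΓ : Γ.FG) : ∃ s : Set ℂ, s.Finite ∧ ∀ u ∈ Γ,
    (u : ℂ) ∈ Subring.closure s ∧ ((u⁻¹ : ℂˣ) : ℂ) ∈ Subring.closure s := by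
  obtain ⟨T, hT, hTf⟩ := (Subgroup.fg_iff _).1 hΓ
  refine ⟨(fun u : ℂˣ => (u : ℂ)) '' T ∪ (fun u : ℂˣ => ((u⁻¹ : ℂˣ) : ℂ)) '' T,
    (hTf.image _).union (hTf.image _), fun u hu => ?_⟩
  rw [← hT] at hu
  induction hu using Subgroup.closure_induction with
  | mem x hx =>
    exact ⟨Subring.subset_closure (Or.inl ⟨x, hx, rfl⟩),
      Subring.subset_closure (Or.inr ⟨x, hx, rfl⟩)⟩
  | one =>
    rw [inv_one, Units.val_one]
    exact ⟨one_mem _, one_mem _⟩
  | mul x y _ _ hx hy =>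
    rw [mul_inv, Units.val_mul, Units.val_mul]
    exact ⟨mul_mem hx.1 hy.1, mul_mem hx.2 hy.2⟩
  | inv x _ hx =>
    rw [inv_inv]
    exact ⟨hx.2, hx.1⟩

theorem indG (hΓ : Γ.FG) : IndU (kC 𝒰) (GG 𝒰 Γ) := by
  classical
  obtain ⟨s, hs, hsΓ⟩ := exists_ring Γ hΓ
  have hSP : SP := Pool.Agent.N558.FG.sp (Pool.Agent.N455.FG.rq3 Pool.Agent.N49.FG.rq1)
  intro J _ g c hg hc hne hsum
  choose u hu hgu using hg
  choose c' hc' using hc
  let e : Fin (Fintype.card J) ≃ J := (Fintype.equivFin J).symm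
  have h1 := unitC 𝒰 hSP s hs (Fintype.card J) (fun i => g (e i)) (fun i => by
    rw [mem_WC]
    let v : (ℕ → Subring.closure s)ˣ :=
      { val := fun n => ⟨(u (e i) n : ℂ), (hsΓ _ (hu _ n)).1⟩
        inv := fun n => ⟨(((u (e i) n)⁻¹ : ℂˣ) : ℂ), (hsΓ _ (hu _ n)).2⟩
        val_inv := by
          funext n
          apply Subtype.ext
          exact Units.mul_inv _
        inv_val := by
          funext n
          apply Subtype.ext
          exact Units.inv_mul _ }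
    refine ⟨v, ?_⟩
    ext
    rw [hgu]
    rfl) (fun i j hij a ha => by
    apply hne (e i) (e j) (fun h => hij (e.injective h))
    rw [ha, mul_div_cancel_right₀ _ (Units.ne_zero _)]
    exact ⟨a, rfl⟩) (fun i => c' (e i)) (by
    rw [← hsum, ← e.sum_comp]
    refine Finset.sum_congr rfl fun i _ => ?_
    rw [hc'])
  intro j
  have h2 := congrFun h1 (e.symm j)
  simp only [Equiv.apply_symm_apply, Pi.zero_apply] at h2
  rw [← hc', h2, map_zero]

theorem const_of_finite {f : ℕ → ℂ} {A : Set ℂ} (hA : A.Finite)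
    (h : ∀ᶠ n in (𝒰 : Filter ℕ), f n ∈ A) : ∃ c, ∀ᶠ n in (𝒰 : Filter ℕ), f n = c := by
  have h1 : ∀ᶠ n in (𝒰 : Filter ℕ), ∃ c ∈ A, f n = c := by
    filter_upwards [h] with n hn
    exact ⟨f n, hn, rfl⟩
  obtain ⟨c, -, hc⟩ := (Ultrafilter.eventually_exists_mem_iff hA).1 h1
  exact ⟨c, hc⟩

theorem rootG : RootC (kC 𝒰) (GG 𝒰 Γ) := by
  rintro g ⟨u, hu, hgu⟩ n hn h
  rw [hgu, ← map_pow, mem_kC] at h
  obtain ⟨c, hc⟩ := h
  rw [hgu, mem_kC]
  refine const_of_finite 𝒰 (A := {z | (Polynomial.X ^ n - Polynomial.C c).IsRoot z}) ?_ ?_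
  · apply Polynomial.finite_setOfPred_isRoot
    exact Polynomial.X_pow_sub_C_ne_zero hn c
  · filter_upwards [hc] with t ht
    show Polynomial.eval _ _ = 0
    rw [Polynomial.eval_sub, Polynomial.eval_pow, Polynomial.eval_X, Polynomial.eval_C, sub_eq_zero]
    exact ht

end germs

variable {K : Type} [Field K] {ι κ : Type} {r M : ℕ} (σ : K →+* ℂ) (m : ℕ)
  (G : ι → MvPolynomial (Fin r ⊕ Fin M) (𝓞 K)) (Q : MvPolynomial (Fin r ⊕ Fin M) (𝓞 K))
  (H : κ → MvPolynomial (Fin r ⊕ Fin M) (𝓞 K))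

/-- **Finiteness for finitely generated groups.** -/
theorem group_of_gm [Finite ι] (h : GmIn σ m G Q H) : GroupFinite σ m G Q H := by
  classical
  intro Γ hΓ s
  by_contra hinf
  set B := {P : ℙ ℂ (Fin M → ℂ) | ∃ (x : Fin M → ℂ) (hx : x ≠ 0) (g : Fin M → Fin m → ℂ),
        P = Projectivization.mk ℂ x hx ∧ (∀ c i, g c i = 0 ∨ ∃ w ∈ Γ, (w : ℂ) = g c i) ∧
        (∀ c, x c = ∑ i, g c i) ∧ (∀ j, val (emb σ) s x (G j) = 0) ∧
        (∃ w ∈ Γ, (w : ℂ) = val (emb σ) s x Q) ∧ ¬ InV (emb σ) H s x} with hB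
  have : Infinite B := Set.infinite_coe_iff.2 hinf
  let Y : ℕ ↪ B := Infinite.natEmbedding B
  choose x hx g hY hg hxg hG hQ hV using fun n => (Y n).2
  let 𝒰 : Ultrafilter ℕ := hyperfilter ℕ
  have hI := indG 𝒰 Γ hΓ
  have hR := rootG 𝒰 Γ
  have hgrp : ∀ f : ℕ → ℂ, (∀ n, ∃ w ∈ Γ, (w : ℂ) = f n) →
      ∃ g ∈ GG 𝒰 Γ, (g : BC 𝒰) = gC 𝒰 f := by
    intro f hf
    choose w hw hwf using hf
    have h1 : gC 𝒰 f * gC 𝒰 (fun n => (((w n)⁻¹ : ℂˣ) : ℂ)) = 1 := by
      rw [← map_mul]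
      have h2 : (f * fun n => (((w n)⁻¹ : ℂˣ) : ℂ)) = 1 := by
        funext n
        rw [Pi.mul_apply, ← hwf]
        exact Units.mul_inv _
      rw [h2, map_one]
    refine ⟨Units.mkOfMulEqOne _ _ h1, ⟨w, hw, ?_⟩, rfl⟩
    show gC 𝒰 f = _
    congr 1
    funext n
    exact (hwf n).symm
  let a : Fin M → Fin m → ℕ → ℂ := fun c i n => if g n c i = 0 then 0 else 1
  let u : Fin M → Fin m → ℕ → ℂ := fun c i n => if g n c i = 0 then 1 else g n c i
  have hau : ∀ c i n, a c i n * u c i n = g n c i := by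
    intro c i n
    simp only [a, u]
    by_cases h0 : g n c i = 0
    · rw [if_pos h0, if_pos h0, h0, zero_mul]
    · rw [if_neg h0, if_neg h0, one_mul]
  have hxe : ∀ n c, ∑ i, a c i n * u c i n = x n c := fun n c => by
    rw [hxg]
    exact Finset.sum_congr rfl fun i _ => hau c i n
  have hxe' : ∀ n, (fun c => ∑ i, a c i n * u c i n) = x n := fun n => funext fun c => hxe n c
  have hnot : ∃ c c', gC 𝒰 (fun n => ∑ i, a c' i n * u c' i n) ≠ 0 ∧
      gC 𝒰 (fun n => ∑ i, a c i n * u c i n) / gC 𝒰 (fun n => ∑ i, a c' i n * u c' i n) ∉ kC 𝒰 := by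
    by_contra hcon
    push Not at hcon
    simp only [hxe] at hcon
    have h1 : ∃ c₀, gC 𝒰 (fun n => x n c₀) ≠ 0 := by
      by_contra h2
      push Not at h2
      have h3 : ∀ c, ∀ᶠ n in (𝒰 : Filter ℕ), x n c = 0 := fun c => (gC_zero 𝒰 _).1 (h2 c)
      obtain ⟨n, hn⟩ := (eventually_all.2 h3).exists
      exact hx n (funext hn)
    obtain ⟨c₀, hc₀⟩ := h1
    have h2 : ∀ᶠ n in (𝒰 : Filter ℕ), x n c₀ ≠ 0 := by
      by_contra h3
      apply hc₀
      rw [gC_zero]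
      rw [← Ultrafilter.eventually_not] at h3
      filter_upwards [h3] with n h4
      exact not_not.1 h4
    have h3 : ∀ c, ∃ α, ∀ᶠ n in (𝒰 : Filter ℕ), x n c / x n c₀ = α := by
      intro c
      rw [← mem_kC]
      have h4 : gC 𝒰 (fun n => x n c / x n c₀) =
          gC 𝒰 (fun n => x n c) / gC 𝒰 (fun n => x n c₀) := by
        rw [eq_div_iff hc₀, ← map_mul, gC_eq]
        filter_upwards [h2] with n hn
        exact div_mul_cancel₀ _ hn
      rw [h4]
      exact hcon c c₀ hc₀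
    choose α hα using h3
    have h4 : ∀ᶠ n in (𝒰 : Filter ℕ), ∀ c, x n c / x n c₀ = α c := eventually_all.2 hα
    obtain ⟨n, h5, h6⟩ := (h2.and h4).exists
    have h7 : ∀ᶠ n' in (𝒰 : Filter ℕ), n' ≠ n := by
      refine hyperfilter_le_cofinite ?_
      exact (Set.finite_singleton n).compl_mem_cofinite
    obtain ⟨n', h8, h9, h10⟩ := (h7.and (h2.and h4)).exists
    apply h8
    apply Y.injective
    apply Subtype.ext
    rw [hY, hY, Projectivization.mk_eq_mk_iff']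
    refine ⟨x n' c₀ / x n c₀, ?_⟩
    funext c
    have h11 := h6 c
    have h12 := h10 c
    rw [div_eq_iff h5] at h11
    rw [div_eq_iff h9] at h12
    rw [Pi.smul_apply, smul_eq_mul, h11, h12]
    field_simp
  obtain ⟨b, hb⟩ := special 𝒰 (gC 𝒰) (fun f => gC_zero 𝒰 f) hI hR (emb σ)
    (fun c => (mem_kC 𝒰 _).2 ⟨_, Eventually.of_forall fun _ => rfl⟩) G Q (fun j _ => s j)
    (fun j => (mem_kC 𝒰 _).2 ⟨_, Eventually.of_forall fun _ => rfl⟩) a u
    (fun c i => (mem_kC 𝒰 _).2 (const_of_finite 𝒰 (A := {0, 1}) (Set.toFinite _)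
      (Eventually.of_forall fun n => by
        simp only [a]
        split_ifs
        · exact Or.inl rfl
        · exact Or.inr rfl)))
    (fun c i => hgrp _ fun n => by
      simp only [u]
      split_ifs with h0
      · exact ⟨1, Γ.one_mem, Units.val_one⟩
      · exact (hg n c i).resolve_left h0)
    (fun _ => 1) (fun n => val (emb σ) s (x n) Q)
    ((mem_kC 𝒰 _).2 ⟨_, Eventually.of_forall fun _ => rfl⟩) (hgrp _ hQ) (by
      intro h0
      obtain ⟨n, hn⟩ := ((gC_zero 𝒰 _).1 h0).exists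
      exact one_ne_zero hn)
    (fun j => Eventually.of_forall fun n => by
      rw [hxe']
      exact hG n j) (Eventually.of_forall fun n => by
      rw [hxe', one_mul]) hnot
  obtain ⟨n, hn⟩ := hb.exists
  apply hV n
  obtain ⟨h2, h3⟩ := hn.curve
  have h4 := h _ _ _ h2 h3 1 one_ne_zero
  rw [laur_one, hxe'] at h4
  exact h4

end Pool.Agent.W2helper39.MU
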